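import Mathlib
import Pool.Agent.H.MP_7d3ffc_al.Lin

/-!
# Fixed points of two subgroups with a common subgroup

Let `R` be a subgroup of the subgroups `M₁`, `M₂` of a finite group, `|M₁| = |M₂|`, and suppose that
the sums of the character over the cosets `R x`, for `x` in `M₁ \ R` and for `x` in `M₂ \ R`, are all
equal. Then `M₁` and `M₂` have fixed point spaces of the same dimension.
-/

namespace Pool.Agent.H.MP_7d3ffc_al

open Finset Module

variable {G : Type*} [Group G] {V : Type*} [AddCommGroup V] [Module ℂ V]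

/-- The fixed points of a subgroup. -/
def fixSp (ρ : Representation ℂ G V) (M : Subgroup G) : Submodule ℂ V where
  carrier := {v | ∀ x ∈ M, ρ x v = v}
  add_mem' := fun {a b} ha hb x hx => by rw [map_add, ha x hx, hb x hx]
  zero_mem' := fun x _ => map_zero _
  smul_mem' := fun c v hv x hx => by rw [map_smul, hv x hx]

theorem mem_fixSp {ρ : Representation ℂ G V} {M : Subgroup G} {v : V} :
    v ∈ fixSp ρ M ↔ ∀ x ∈ M, ρ x v = v := Iff.rfl

theorem fixSp_anti (ρ : Representation ℂ G V) {M N : Subgroup G} (h : M ≤ N) :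
    fixSp ρ N ≤ fixSp ρ M := fun _ hv x hx => hv x (h hx)

/-- The dimension of the fixed point space is the average of the character. -/
theorem finrank_fixSp [Finite G] [FiniteDimensional ℂ V] (ρ : Representation ℂ G V)
    (M : Subgroup G) [Fintype M] :
    (Nat.card M : ℂ) * (finrank ℂ (fixSp ρ M) : ℂ) = ∑ x : M, ρ.character (x : G) := by
  have hcard : (Nat.card M : ℂ) ≠ 0 := Nat.cast_ne_zero.mpr Nat.card_pos.ne'
  have : Invertible (Nat.card M : ℂ) := invertibleOfNonzero hcard
  let σ : Representation ℂ M V := ρ.comp M.subtype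
  have h1 := Representation.card_inv_mul_sum_char_eq_finrank σ
  have h2 : ∀ x : M, σ.character x = ρ.character (x : G) := fun x => rfl
  have h3 : finrank ℂ σ.invariants = finrank ℂ (fixSp ρ M) := by
    refine LinearEquiv.finrank_eq (LinearEquiv.ofEq _ _ ?_)
    ext v
    exact ⟨fun h x hx => h ⟨x, hx⟩, fun h x => h x x.2⟩
  rw [h3] at h1
  simp only [h2] at h1
  rw [← h1, mul_inv_cancel_left₀ hcard]

open scoped Classical in
/-- The sum of the character over a coset of `R` outside `R`. -/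
theorem assoc_sum [Fintype G] (ρ : Representation ℂ G V) (M R : Subgroup G) [Fintype R]
    (hR : R ≤ M) (c : ℂ)
    (hc : ∀ x ∈ M, x ∉ R → ∑ r : R, ρ.character ((r : G) * x) = c) :
    (Nat.card R : ℂ) * ∑ x ∈ univ.filter (fun x : G => x ∈ M ∧ x ∉ R), ρ.character x =
      ((univ.filter (fun x : G => x ∈ M ∧ x ∉ R)).card : ℂ) * c := by
  have h1 : ∀ r : R, ∑ x ∈ univ.filter (fun x : G => x ∈ M ∧ x ∉ R), ρ.character ((r : G) * x) =
      ∑ x ∈ univ.filter (fun x : G => x ∈ M ∧ x ∉ R), ρ.character x := by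
    intro r
    refine Finset.sum_equiv (Equiv.mulLeft (r : G)) (fun x => ?_) fun x _ => rfl
    simp only [mem_filter, mem_univ, true_and, Equiv.coe_mulLeft]
    rw [M.mul_mem_cancel_left (hR r.2), R.mul_mem_cancel_left r.2]
  have h2 : ∑ r : R, ∑ x ∈ univ.filter (fun x : G => x ∈ M ∧ x ∉ R), ρ.character ((r : G) * x) =
      ((univ.filter (fun x : G => x ∈ M ∧ x ∉ R)).card : ℂ) * c := by
    rw [Finset.sum_comm, Finset.sum_congr rfl fun x hx => hc x (mem_filter.1 hx).2.1
      (mem_filter.1 hx).2.2, Finset.sum_const, nsmul_eq_mul]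
  rw [← h2, Finset.sum_congr rfl fun r _ => h1 r, Finset.sum_const, nsmul_eq_mul, card_univ,
    Nat.card_eq_fintype_card]

theorem assoc_conj [Finite G] (ρ : Representation ℂ G V) (R : Subgroup G) [Fintype R]
    {x y h : G} (hn : ∀ r ∈ R, h * r * h⁻¹ ∈ R) (hxy : h * x * h⁻¹ * y⁻¹ ∈ R) :
    ∑ r : R, ρ.character ((r : G) * x) = ∑ r : R, ρ.character ((r : G) * y) := by
  classical
  let f : R → R := fun r => ⟨h * r * h⁻¹ * (h * x * h⁻¹ * y⁻¹), R.mul_mem (hn r r.2) hxy⟩
  have hf : Function.Bijective f := by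
    refine Finite.injective_iff_bijective.1 fun a b hab => ?_
    have h1 : h * a * h⁻¹ * (h * x * h⁻¹ * y⁻¹) = h * b * h⁻¹ * (h * x * h⁻¹ * y⁻¹) :=
      congrArg Subtype.val hab
    have h2 : (a : G) = b := by simpa using h1
    exact Subtype.ext h2
  refine Fintype.sum_bijective f hf _ _ fun r => ?_
  have h3 : ((f r : R) : G) * y = h * ((r : G) * x) * h⁻¹ := by
    simp only [f]
    group
  rw [h3, Representation.char_conj]

theorem assoc_mul [Finite G] (ρ : Representation ℂ G V) (R : Subgroup G) [Fintype R]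
    {x y : G} (hxy : x * y⁻¹ ∈ R) :
    ∑ r : R, ρ.character ((r : G) * x) = ∑ r : R, ρ.character ((r : G) * y) :=
  assoc_conj ρ R (h := 1) (fun r hr => by simpa using hr) (by simpa using hxy)

theorem finrank_fixSp_eq [Finite G] [FiniteDimensional ℂ V] (ρ : Representation ℂ G V)
    {M₁ M₂ R : Subgroup G} [Fintype R] (h1 : R ≤ M₁) (h2 : R ≤ M₂)
    (hcard : Nat.card M₁ = Nat.card M₂) (c : ℂ)
    (hc1 : ∀ x ∈ M₁, x ∉ R → ∑ r : R, ρ.character ((r : G) * x) = c)
    (hc2 : ∀ x ∈ M₂, x ∉ R → ∑ r : R, ρ.character ((r : G) * x) = c) :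
    finrank ℂ (fixSp ρ M₁) = finrank ℂ (fixSp ρ M₂) := by
  classical
  have : Fintype G := Fintype.ofFinite _
  have hsum : ∀ M : Subgroup G, R ≤ M →
      (∀ x ∈ M, x ∉ R → ∑ r : R, ρ.character ((r : G) * x) = c) →
      (Nat.card R : ℂ) * ∑ x : M, ρ.character (x : G) =
        (Nat.card R : ℂ) * ∑ x : R, ρ.character (x : G) +
          ((Nat.card M : ℂ) - (Nat.card R : ℂ)) * c := by
    intro M hRM hcM
    have e1 := assoc_sum ρ M R hRM c hcM
    have e2 : ∀ (N : Subgroup G) (_ : Fintype N), ∑ x : N, ρ.character (x : G) =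
        ∑ x ∈ univ.filter (fun x : G => x ∈ N), ρ.character x := by
      intro N _
      rw [Finset.sum_subtype (univ.filter (fun x : G => x ∈ N)) (p := fun x => x ∈ N)
        (fun x => by simp)]
    have e3 : univ.filter (fun x : G => x ∈ M) =
        univ.filter (fun x : G => x ∈ R) ∪ univ.filter (fun x : G => x ∈ M ∧ x ∉ R) := by
      ext x
      simp only [mem_filter, mem_univ, true_and, mem_union]
      by_cases hx : x ∈ R
      · simp [hx, hRM hx]
      · simp [hx]
    have e4 : Disjoint (univ.filter (fun x : G => x ∈ R))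
        (univ.filter (fun x : G => x ∈ M ∧ x ∉ R)) := by
      rw [Finset.disjoint_left]
      intro x hx hx'
      exact (mem_filter.1 hx').2.2 (mem_filter.1 hx).2
    have e5 : ∀ N : Subgroup G, (univ.filter (fun x : G => x ∈ N)).card = Nat.card N := by
      intro N
      rw [Nat.card_eq_fintype_card]
      exact (Fintype.card_subtype _).symm
    have e6 : ((univ.filter (fun x : G => x ∈ M ∧ x ∉ R)).card : ℂ) =
        (Nat.card M : ℂ) - (Nat.card R : ℂ) := by
      rw [← e5 M, ← e5 R, e3, Finset.card_union_of_disjoint e4]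
      push_cast
      ring
    rw [e2 M inferInstance, e2 R inferInstance, e3, Finset.sum_union e4, mul_add, e1, e6]
  have f1 := hsum M₁ h1 hc1
  have f2 := hsum M₂ h2 hc2
  have g1 := finrank_fixSp ρ M₁
  have g2 := finrank_fixSp ρ M₂
  rw [← g1] at f1
  rw [← g2] at f2
  have hR0 : (Nat.card R : ℂ) ≠ 0 := Nat.cast_ne_zero.mpr Nat.card_pos.ne'
  have hM0 : (Nat.card M₂ : ℂ) ≠ 0 := Nat.cast_ne_zero.mpr Nat.card_pos.ne'
  rw [hcard, ← f2] at f1
  have := mul_left_cancel₀ hM0 (mul_left_cancel₀ hR0 f1)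
  exact_mod_cast this

end Pool.Agent.H.MP_7d3ffc_al
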