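import Pool.Agent.H.MP_7d3ffc_al.DC.Gen
import Pool.Agent.H.MP_7d3ffc_al.DC.Assoc

/-!
# Module DC/Adj: two neighbouring simple roots

Let `j = i + 1`, `k = i + 2`, let `M₁`, `M₂` be the groups of the unitriangular `u` with
`u i j = 0` and `u j k = 0`, and let `R` be the group of the unitriangular `u` with
`u i j = u j k = u i k = 0`. The transvections of the block `{i, j, k}` normalize `R`, and all elements
of `M₁ \\ R` and of `M₂ \\ R` are conjugate modulo `R` to `1 + E_ik` (all transvections of `SL₃` are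
conjugate). So `M₁` and `M₂` have fixed point spaces of the same dimension (`finrank_fixSp_eq`), and
if a nontrivial character of type `i` occurs then one of type `j` occurs.
-/

namespace Pool.Agent.H.MP_7d3ffc_al.DC

open Matrix Matrix.SpecialLinearGroup Finset Module Pool.Agent.H.MP_7d3ffc_al

variable {n : ℕ} {F : Type*} [Field F]

/-- conjugation by a transvection -/
private theorem Adj_entry {r s : Fin n} (h : r ≠ s) (m : F) (u : SpecialLinearGroup (Fin n) F)
    (h0 : u.1 s r = 0) (a b : Fin n) :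
    (SpecialLinearGroup.transvection h m * u * (SpecialLinearGroup.transvection h m)⁻¹).1 a b =
      u.1 a b + (if a = r then m * u.1 s b else 0) - (if b = s then m * u.1 a r else 0) := by
  have h1 : (SpecialLinearGroup.transvection h m * u *
      (SpecialLinearGroup.transvection h m)⁻¹).1 =
      Matrix.transvection r s m * u.1 * Matrix.transvection r s (-m) := by
    rw [SpecialLinearGroup.transvection_inv]
    rfl
  rw [h1]
  by_cases hb : b = s
  · subst hb
    rw [Matrix.mul_transvection_apply_same, if_pos rfl]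
    by_cases ha : a = r
    · subst ha
      rw [Matrix.transvection_mul_apply_same, Matrix.transvection_mul_apply_same, if_pos rfl, h0]
      ring
    · rw [Matrix.transvection_mul_apply_of_ne _ _ _ _ ha,
        Matrix.transvection_mul_apply_of_ne _ _ _ _ ha, if_neg ha]
      ring
  · rw [Matrix.mul_transvection_apply_of_ne _ _ _ _ hb, if_neg hb]
    by_cases ha : a = r
    · subst ha
      rw [Matrix.transvection_mul_apply_same, if_pos rfl]
      ring
    · rw [Matrix.transvection_mul_apply_of_ne _ _ _ _ ha, if_neg ha]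
      ring

private theorem Adj_mem {r s : Fin n} (h : r ≠ s) (ha : (s : ℕ) = r + 1 ∨ (r : ℕ) = s + 1)
    (m : F) {u : SpecialLinearGroup (Fin n) F} (hu : u ∈ UT n F) (h0 : u.1 s r = 0)
    (h0' : u.1 r s = 0) :
    SpecialLinearGroup.transvection h m * u * (SpecialLinearGroup.transvection h m)⁻¹ ∈
      UT n F := by
  rw [mem_UT] at hu ⊢
  refine ⟨fun a b hab => ?_, fun a => ?_⟩
  · rw [Adj_entry h m u h0, hu.1 a b hab, zero_add]
    have hab' : (b : ℕ) < a := hab
    by_cases h1 : a = r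
    · by_cases h2 : b = s
      · rw [if_pos h1, if_pos h2, h2, h1, hu.2, hu.2, sub_self]
      · rw [if_pos h1, if_neg h2, hu.1 s b, mul_zero, sub_zero]
        have h3 : (b : ℕ) ≠ s := fun h => h2 (Fin.ext h)
        have h4 : (a : ℕ) = r := congrArg Fin.val h1
        exact Fin.lt_def.2 (by omega)
    · by_cases h2 : b = s
      · rw [if_neg h1, if_pos h2, hu.1 a r, mul_zero, sub_zero]
        have h3 : (a : ℕ) ≠ r := fun h => h1 (Fin.ext h)
        have h4 : (b : ℕ) = s := congrArg Fin.val h2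
        exact Fin.lt_def.2 (by omega)
      · rw [if_neg h1, if_neg h2, sub_zero]
  · rw [Adj_entry h m u h0, hu.2]
    by_cases h1 : a = r
    · rw [if_pos h1, if_neg (fun h2 => h (h1.symm.trans h2)), h1, h0, mul_zero, add_zero, sub_zero]
    · by_cases h2 : a = s
      · rw [if_neg h1, if_pos h2, h2, h0, mul_zero, add_zero, sub_zero]
      · rw [if_neg h1, if_neg h2, add_zero, sub_zero]

variable (n F) in
/-- the entry next to the diagonal -/
def ent {i j : Fin n} (hs : (j : ℕ) = i + 1) : UT n F →* Multiplicative F where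
  toFun u := Multiplicative.ofAdd ((u : SpecialLinearGroup (Fin n) F).1 i j)
  map_one' := by
    have hij : i ≠ j := fun h => by
      have := congrArg Fin.val h
      omega
    have h1 : (((1 : UT n F) : SpecialLinearGroup (Fin n) F).1) i j = 0 := by
      change (1 : Matrix (Fin n) (Fin n) F) i j = 0
      rw [Matrix.one_apply_ne hij]
    rw [h1]
    rfl
  map_mul' u w := by
    rw [← ofAdd_add]
    congr 1
    have hij : i ≠ j := fun h => by
      have := congrArg Fin.val h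
      omega
    have hu := mem_UT.1 u.2
    have hw := mem_UT.1 w.2
    have h1 : (((u * w : UT n F) : SpecialLinearGroup (Fin n) F).1) i j =
        ∑ r, (u : SpecialLinearGroup (Fin n) F).1 i r * (w : SpecialLinearGroup (Fin n) F).1 r j :=
      Matrix.mul_apply
    rw [h1, Finset.sum_eq_add i j hij]
    · rw [hu.2, hw.2, one_mul, mul_one, add_comm]
    · intro r _ hr
      rcases lt_or_gt_of_ne hr.1 with h2 | h2
      · rw [hu.1 i r h2, zero_mul]
      · have h3 : (r : ℕ) ≠ j := fun h => hr.2 (Fin.ext h)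
        have h4 : (i : ℕ) < r := h2
        rw [hw.1 r j (Fin.lt_def.2 (by omega)), mul_zero]
    · intro h
      exact absurd (Finset.mem_univ i) h
    · intro h
      exact absurd (Finset.mem_univ j) h

variable (n F) in
/-- the unitriangular matrices with entry `0` in the position `(i, j)`, `j = i + 1` -/
def Mg {i j : Fin n} (hs : (j : ℕ) = i + 1) : Subgroup (SpecialLinearGroup (Fin n) F) :=
  (ent n F hs).ker.map (UT n F).subtype

theorem mem_Mg {i j : Fin n} (hs : (j : ℕ) = i + 1) {u : SpecialLinearGroup (Fin n) F} :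
    u ∈ Mg n F hs ↔ u ∈ UT n F ∧ u.1 i j = 0 := by
  rw [Mg, Subgroup.mem_map]
  constructor
  · rintro ⟨w, hw, rfl⟩
    exact ⟨w.2, Multiplicative.ofAdd.injective (MonoidHom.mem_ker.1 hw)⟩
  · rintro ⟨hu, h0⟩
    refine ⟨⟨u, hu⟩, MonoidHom.mem_ker.2 ?_, rfl⟩
    exact congrArg Multiplicative.ofAdd h0

theorem card_Mg [Finite F] {i j : Fin n} (hs : (j : ℕ) = i + 1) :
    Nat.card (Mg n F hs) * Nat.card F = Nat.card (UT n F) := by
  have hij : i < j := Fin.lt_def.2 (by omega)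
  rw [Mg, Subgroup.card_map_of_injective (Subgroup.subtype_injective _),
    ← Subgroup.card_mul_index (ent n F hs).ker, Subgroup.index_ker]
  congr 1
  have h1 : (ent n F hs).range = ⊤ := by
    rw [MonoidHom.range_eq_top]
    intro x
    refine ⟨el hij (Multiplicative.toAdd x), ?_⟩
    change Multiplicative.ofAdd ((Matrix.transvection i j (Multiplicative.toAdd x)) i j) = x
    rw [Matrix.transvection, Matrix.add_apply, Matrix.one_apply_ne hij.ne,
      Matrix.single_apply_same, zero_add]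
    rfl
  rw [h1, Subgroup.card_top]
  rfl

variable (n F) in
/-- the unitriangular matrices with entries `0` in the positions `(i, j)`, `(j, k)`, `(i, k)` -/
def Rg {i j k : Fin n} (h1 : (j : ℕ) = i + 1) (h2 : (k : ℕ) = j + 1) :
    Subgroup (SpecialLinearGroup (Fin n) F) where
  carrier := {u | u ∈ Mg n F h1 ∧ u ∈ Mg n F h2 ∧ u.1 i k = 0}
  one_mem' := by
    refine ⟨one_mem _, one_mem _, ?_⟩
    have hik : i ≠ k := fun h => by
      have := congrArg Fin.val h
      omega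
    change (1 : Matrix (Fin n) (Fin n) F) i k = 0
    rw [Matrix.one_apply_ne hik]
  mul_mem' := by
    rintro u w ⟨hu1, hu2, hu3⟩ ⟨hw1, hw2, hw3⟩
    refine ⟨mul_mem hu1 hw1, mul_mem hu2 hw2, ?_⟩
    have hu := (mem_UT.1 ((mem_Mg h1).1 hu1).1)
    have hw := (mem_UT.1 ((mem_Mg h1).1 hw1).1)
    have e1 : (u * w).1 i k = ∑ r, u.1 i r * w.1 r k := Matrix.mul_apply
    rw [e1]
    refine Finset.sum_eq_zero fun r _ => ?_
    rcases lt_trichotomy (r : ℕ) i with h3 | h3 | h3
    · rw [hu.1 i r (Fin.lt_def.2 h3), zero_mul]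
    · rw [show r = i from Fin.ext h3, hw3, mul_zero]
    · rcases lt_trichotomy (r : ℕ) j with h4 | h4 | h4
      · omega
      · rw [show r = j from Fin.ext h4, ((mem_Mg h2).1 hw2).2, mul_zero]
      · rcases lt_trichotomy (r : ℕ) k with h5 | h5 | h5
        · omega
        · rw [show r = k from Fin.ext h5, hu3, zero_mul]
        · rw [hw.1 r k (Fin.lt_def.2 h5), mul_zero]
  inv_mem' := by
    rintro u ⟨hu1, hu2, hu3⟩
    refine ⟨inv_mem hu1, inv_mem hu2, ?_⟩
    have hu := (mem_UT.1 ((mem_Mg h1).1 hu1).1)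
    have hw2 := ((mem_Mg h2).1 (inv_mem hu2)).2
    have hw := (mem_UT.1 ((mem_Mg h1).1 (inv_mem hu1)).1)
    have e1 : (u * u⁻¹).1 i k = ∑ r, u.1 i r * (u⁻¹).1 r k := Matrix.mul_apply
    have hik : i ≠ k := fun h => by
      have := congrArg Fin.val h
      omega
    rw [mul_inv_cancel] at e1
    have e2 : (1 : Matrix (Fin n) (Fin n) F) i k = 0 := Matrix.one_apply_ne hik
    have e3 : (1 : SpecialLinearGroup (Fin n) F).1 i k = 0 := e2
    rw [e3, Finset.sum_eq_single i] at e1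
    · rw [hu.2, one_mul] at e1
      exact e1.symm
    · intro r _ hri
      have h0 : (r : ℕ) ≠ i := fun h => hri (Fin.ext h)
      rcases lt_or_gt_of_ne h0 with h3 | h3
      · rw [hu.1 i r (Fin.lt_def.2 h3), zero_mul]
      · rcases lt_trichotomy (r : ℕ) j with h4 | h4 | h4
        · omega
        · rw [show r = j from Fin.ext h4, hw2, mul_zero]
        · rcases lt_trichotomy (r : ℕ) k with h5 | h5 | h5
          · omega
          · rw [show r = k from Fin.ext h5, hu3, zero_mul]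
          · rw [hw.1 r k (Fin.lt_def.2 h5), mul_zero]
    · intro h
      exact absurd (Finset.mem_univ i) h

theorem mem_Rg {i j k : Fin n} (h1 : (j : ℕ) = i + 1) (h2 : (k : ℕ) = j + 1)
    {u : SpecialLinearGroup (Fin n) F} :
    u ∈ Rg n F h1 h2 ↔ u ∈ UT n F ∧ u.1 i j = 0 ∧ u.1 j k = 0 ∧ u.1 i k = 0 := by
  constructor
  · rintro ⟨a, b, c⟩
    exact ⟨((mem_Mg h1).1 a).1, ((mem_Mg h1).1 a).2, ((mem_Mg h2).1 b).2, c⟩
  · rintro ⟨a, b, c, d⟩
    exact ⟨(mem_Mg h1).2 ⟨a, b⟩, (mem_Mg h2).2 ⟨a, c⟩, d⟩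

section sums

variable [Finite F] {V : Type*} [AddCommGroup V] [Module ℂ V] [FiniteDimensional ℂ V]
  (ρ : Representation ℂ (SpecialLinearGroup (Fin n) F) V)

/-- the sum over a coset of `R` -/
private noncomputable def Adj_S {i j k : Fin n} (h1 : (j : ℕ) = i + 1) (h2 : (k : ℕ) = j + 1)
    [Fintype (Rg n F h1 h2)] (x : SpecialLinearGroup (Fin n) F) : ℂ :=
  ∑ r : Rg n F h1 h2, ρ.character ((r : SpecialLinearGroup (Fin n) F) * x)

/-- conjugation with the transvections in the positions `(i, j)`, `(j, i)` -/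
private theorem Adj_first {i j k : Fin n} (h1 : (j : ℕ) = i + 1) (h2 : (k : ℕ) = j + 1)
    [Fintype (Rg n F h1 h2)] {u : SpecialLinearGroup (Fin n) F} (hu : u ∈ UT n F)
    (hij : u.1 i j = 0) (m : F) :
    (∃ w ∈ UT n F, w.1 i j = 0 ∧ w.1 j k = u.1 j k ∧ w.1 i k = u.1 i k + m * u.1 j k ∧
      Adj_S ρ h1 h2 u = Adj_S ρ h1 h2 w) ∧
    ∃ w ∈ UT n F, w.1 i j = 0 ∧ w.1 i k = u.1 i k ∧ w.1 j k = u.1 j k + m * u.1 i k ∧
      Adj_S ρ h1 h2 u = Adj_S ρ h1 h2 w := by
  have n1 : i ≠ j := fun h => by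
    have := congrArg Fin.val h
    omega
  have n2 : j ≠ k := fun h => by
    have := congrArg Fin.val h
    omega
  have n3 : i ≠ k := fun h => by
    have := congrArg Fin.val h
    omega
  have hji : u.1 j i = 0 := (mem_UT.1 hu).1 j i (Fin.lt_def.2 (by omega))
  constructor
  · refine ⟨_, Adj_mem n1 (Or.inl h1) m hu hji hij, ?_, ?_, ?_, ?_⟩
    · rw [Adj_entry n1 m u hji, if_pos rfl, if_pos rfl, hij, (mem_UT.1 hu).2, (mem_UT.1 hu).2]
      ring
    · rw [Adj_entry n1 m u hji, if_neg n1.symm, if_neg n2.symm]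
      ring
    · rw [Adj_entry n1 m u hji, if_pos rfl, if_neg n2.symm]
      ring
    · refine assoc_conj ρ _ (h := SpecialLinearGroup.transvection n1 m) (fun r hr => ?_) ?_
      · rw [mem_Rg] at hr ⊢
        obtain ⟨r1, r2, r3, r4⟩ := hr
        have r5 : r.1 j i = 0 := (mem_UT.1 r1).1 j i (Fin.lt_def.2 (by omega))
        refine ⟨Adj_mem n1 (Or.inl h1) m r1 r5 r2, ?_, ?_, ?_⟩
        · rw [Adj_entry n1 m r r5, if_pos rfl, if_pos rfl, r2, (mem_UT.1 r1).2, (mem_UT.1 r1).2]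
          ring
        · rw [Adj_entry n1 m r r5, if_neg n1.symm, if_neg n2.symm, r3]
          ring
        · rw [Adj_entry n1 m r r5, if_pos rfl, if_neg n2.symm, r3, r4]
          ring
      · rw [mul_inv_cancel]
        exact one_mem _
  · refine ⟨_, Adj_mem n1.symm (Or.inr h1) m hu hij hji, ?_, ?_, ?_, ?_⟩
    · rw [Adj_entry n1.symm m u hij, if_neg n1, if_neg n1.symm, hij]
      ring
    · rw [Adj_entry n1.symm m u hij, if_neg n1, if_neg n3.symm]
      ring
    · rw [Adj_entry n1.symm m u hij, if_pos rfl, if_neg n3.symm]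
      ring
    · refine assoc_conj ρ _ (h := SpecialLinearGroup.transvection n1.symm m) (fun r hr => ?_) ?_
      · rw [mem_Rg] at hr ⊢
        obtain ⟨r1, r2, r3, r4⟩ := hr
        have r5 : r.1 j i = 0 := (mem_UT.1 r1).1 j i (Fin.lt_def.2 (by omega))
        refine ⟨Adj_mem n1.symm (Or.inr h1) m r1 r2 r5, ?_, ?_, ?_⟩
        · rw [Adj_entry n1.symm m r r2, if_neg n1, if_neg n1.symm, r2]
          ring
        · rw [Adj_entry n1.symm m r r2, if_pos rfl, if_neg n3.symm, r3, r4]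
          ring
        · rw [Adj_entry n1.symm m r r2, if_neg n1, if_neg n3.symm, r4]
          ring
      · rw [mul_inv_cancel]
        exact one_mem _

/-- conjugation with the transvections in the positions `(j, k)`, `(k, j)` -/
private theorem Adj_second {i j k : Fin n} (h1 : (j : ℕ) = i + 1) (h2 : (k : ℕ) = j + 1)
    [Fintype (Rg n F h1 h2)] {u : SpecialLinearGroup (Fin n) F} (hu : u ∈ UT n F)
    (hjk : u.1 j k = 0) (m : F) :
    (∃ w ∈ UT n F, w.1 j k = 0 ∧ w.1 i j = u.1 i j ∧ w.1 i k = u.1 i k - m * u.1 i j ∧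
      Adj_S ρ h1 h2 u = Adj_S ρ h1 h2 w) ∧
    ∃ w ∈ UT n F, w.1 j k = 0 ∧ w.1 i k = u.1 i k ∧ w.1 i j = u.1 i j - m * u.1 i k ∧
      Adj_S ρ h1 h2 u = Adj_S ρ h1 h2 w := by
  have n1 : i ≠ j := fun h => by
    have := congrArg Fin.val h
    omega
  have n2 : j ≠ k := fun h => by
    have := congrArg Fin.val h
    omega
  have n3 : i ≠ k := fun h => by
    have := congrArg Fin.val h
    omega
  have hkj : u.1 k j = 0 := (mem_UT.1 hu).1 k j (Fin.lt_def.2 (by omega))
  constructor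
  · refine ⟨_, Adj_mem n2 (Or.inl h2) m hu hkj hjk, ?_, ?_, ?_, ?_⟩
    · rw [Adj_entry n2 m u hkj, if_pos rfl, if_pos rfl, hjk, (mem_UT.1 hu).2, (mem_UT.1 hu).2]
      ring
    · rw [Adj_entry n2 m u hkj, if_neg n1, if_neg n2]
      ring
    · rw [Adj_entry n2 m u hkj, if_neg n1, if_pos rfl]
      ring
    · refine assoc_conj ρ _ (h := SpecialLinearGroup.transvection n2 m) (fun r hr => ?_) ?_
      · rw [mem_Rg] at hr ⊢
        obtain ⟨r1, r2, r3, r4⟩ := hr
        have r5 : r.1 k j = 0 := (mem_UT.1 r1).1 k j (Fin.lt_def.2 (by omega))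
        refine ⟨Adj_mem n2 (Or.inl h2) m r1 r5 r3, ?_, ?_, ?_⟩
        · rw [Adj_entry n2 m r r5, if_neg n1, if_neg n2, r2]
          ring
        · rw [Adj_entry n2 m r r5, if_pos rfl, if_pos rfl, r3, (mem_UT.1 r1).2, (mem_UT.1 r1).2]
          ring
        · rw [Adj_entry n2 m r r5, if_neg n1, if_pos rfl, r2, r4]
          ring
      · rw [mul_inv_cancel]
        exact one_mem _
  · refine ⟨_, Adj_mem n2.symm (Or.inr h2) m hu hjk hkj, ?_, ?_, ?_, ?_⟩
    · rw [Adj_entry n2.symm m u hjk, if_neg n2, if_neg n2.symm, hjk]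
      ring
    · rw [Adj_entry n2.symm m u hjk, if_neg n3, if_neg n2.symm]
      ring
    · rw [Adj_entry n2.symm m u hjk, if_neg n3, if_pos rfl]
      ring
    · refine assoc_conj ρ _ (h := SpecialLinearGroup.transvection n2.symm m) (fun r hr => ?_) ?_
      · rw [mem_Rg] at hr ⊢
        obtain ⟨r1, r2, r3, r4⟩ := hr
        have r5 : r.1 k j = 0 := (mem_UT.1 r1).1 k j (Fin.lt_def.2 (by omega))
        refine ⟨Adj_mem n2.symm (Or.inr h2) m r1 r3 r5, ?_, ?_, ?_⟩
        · rw [Adj_entry n2.symm m r r3, if_neg n3, if_pos rfl, r2, r4]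
          ring
        · rw [Adj_entry n2.symm m r r3, if_neg n2, if_neg n2.symm, r3]
          ring
        · rw [Adj_entry n2.symm m r r3, if_neg n3, if_neg n2.symm, r4]
          ring
      · rw [mul_inv_cancel]
        exact one_mem _

/-- the normal form -/
private theorem Adj_norm {i j k : Fin n} (h1 : (j : ℕ) = i + 1) (h2 : (k : ℕ) = j + 1)
    (hik : i < k) [Fintype (Rg n F h1 h2)] {u : SpecialLinearGroup (Fin n) F} (hu : u ∈ UT n F)
    (e1 : u.1 i j = 0) (e2 : u.1 j k = 0) (e3 : u.1 i k = 1) :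
    Adj_S ρ h1 h2 u = Adj_S ρ h1 h2 (SpecialLinearGroup.transvection hik.ne 1) := by
  have n1 : i ≠ j := fun h => by
    have := congrArg Fin.val h
    omega
  have n2 : j ≠ k := fun h => by
    have := congrArg Fin.val h
    omega
  refine assoc_mul ρ _ ?_
  rw [mem_Rg]
  have e4 : (u * (SpecialLinearGroup.transvection hik.ne (1 : F))⁻¹).1 =
      u.1 * Matrix.transvection i k (-1) := by
    rw [SpecialLinearGroup.transvection_inv]
    rfl
  refine ⟨mul_mem hu (inv_mem (el_mem hik 1)), ?_, ?_, ?_⟩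
  · rw [e4, Matrix.mul_transvection_apply_of_ne _ _ _ _ n2, e1]
  · rw [e4, Matrix.mul_transvection_apply_same, e2,
      (mem_UT.1 hu).1 j i (Fin.lt_def.2 (by omega))]
    ring
  · rw [e4, Matrix.mul_transvection_apply_same, e3, (mem_UT.1 hu).2]
    ring

private theorem Adj_c1 {i j k : Fin n} (h1 : (j : ℕ) = i + 1) (h2 : (k : ℕ) = j + 1)
    (hik : i < k) [Fintype (Rg n F h1 h2)] {u : SpecialLinearGroup (Fin n) F} (hu : u ∈ UT n F)
    (e1 : u.1 i j = 0) (e2 : ¬ (u.1 j k = 0 ∧ u.1 i k = 0)) :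
    Adj_S ρ h1 h2 u = Adj_S ρ h1 h2 (SpecialLinearGroup.transvection hik.ne 1) := by
  -- if the entry `(j, k)` is not zero
  have key : ∀ w ∈ UT n F, w.1 i j = 0 → w.1 j k ≠ 0 →
      Adj_S ρ h1 h2 w = Adj_S ρ h1 h2 (SpecialLinearGroup.transvection hik.ne 1) := by
    intro w hw f1 f2
    obtain ⟨w', hw', g1, g2, g3, g4⟩ :=
      (Adj_first ρ h1 h2 hw f1 ((1 - w.1 i k) / w.1 j k)).1
    have g5 : w'.1 i k = 1 := by
      rw [g3, div_mul_cancel₀ _ f2]
      ring
    obtain ⟨x, hx, k1, k2, k3, k4⟩ := (Adj_first ρ h1 h2 hw' g1 (-(w'.1 j k))).2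
    rw [g4, k4]
    refine Adj_norm ρ h1 h2 hik hx k1 ?_ (k2.trans g5)
    rw [k3, g5]
    ring
  by_cases h3 : u.1 j k = 0
  · have h4 : u.1 i k ≠ 0 := fun h => e2 ⟨h3, h⟩
    obtain ⟨w, hw, g1, g2, g3, g4⟩ := (Adj_first ρ h1 h2 hu e1 1).2
    rw [g4]
    refine key w hw g1 ?_
    rw [g3, h3, one_mul, zero_add]
    exact h4
  · exact key u hu e1 h3

private theorem Adj_c2 {i j k : Fin n} (h1 : (j : ℕ) = i + 1) (h2 : (k : ℕ) = j + 1)
    (hik : i < k) [Fintype (Rg n F h1 h2)] {u : SpecialLinearGroup (Fin n) F} (hu : u ∈ UT n F)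
    (e1 : u.1 j k = 0) (e2 : ¬ (u.1 i j = 0 ∧ u.1 i k = 0)) :
    Adj_S ρ h1 h2 u = Adj_S ρ h1 h2 (SpecialLinearGroup.transvection hik.ne 1) := by
  -- if the entry `(i, j)` is not zero
  have key : ∀ w ∈ UT n F, w.1 j k = 0 → w.1 i j ≠ 0 →
      Adj_S ρ h1 h2 w = Adj_S ρ h1 h2 (SpecialLinearGroup.transvection hik.ne 1) := by
    intro w hw f1 f2
    obtain ⟨w', hw', g1, g2, g3, g4⟩ :=
      (Adj_second ρ h1 h2 hw f1 ((w.1 i k - 1) / w.1 i j)).1
    have g5 : w'.1 i k = 1 := by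
      rw [g3, div_mul_cancel₀ _ f2]
      ring
    obtain ⟨x, hx, k1, k2, k3, k4⟩ := (Adj_second ρ h1 h2 hw' g1 (w'.1 i j)).2
    rw [g4, k4]
    refine Adj_norm ρ h1 h2 hik hx ?_ k1 (k2.trans g5)
    rw [k3, g5]
    ring
  by_cases h3 : u.1 i j = 0
  · have h4 : u.1 i k ≠ 0 := fun h => e2 ⟨h3, h⟩
    obtain ⟨w, hw, g1, g2, g3, g4⟩ := (Adj_second ρ h1 h2 hu e1 1).2
    rw [g4]
    refine key w hw g1 ?_
    rw [g3, h3, one_mul, zero_sub]
    exact neg_ne_zero.2 h4
  · exact key u hu e1 h3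

theorem finrank_Mg {i j k : Fin n} (h1 : (j : ℕ) = i + 1) (h2 : (k : ℕ) = j + 1) :
    finrank ℂ (fixSp ρ (Mg n F h1)) = finrank ℂ (fixSp ρ (Mg n F h2)) := by
  classical
  have : Fintype (Rg n F h1 h2) := Fintype.ofFinite _
  have hik : i < k := Fin.lt_def.2 (by omega)
  refine finrank_fixSp_eq ρ (R := Rg n F h1 h2) (fun u hu => hu.1) (fun u hu => hu.2.1) ?_
    (Adj_S ρ h1 h2 (SpecialLinearGroup.transvection hik.ne 1)) (fun x hx hxR => ?_)
    (fun x hx hxR => ?_)
  · have e1 := card_Mg (F := F) h1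
    have e2 := card_Mg (F := F) h2
    exact Nat.eq_of_mul_eq_mul_right Nat.card_pos (e1.trans e2.symm)
  · rw [mem_Mg] at hx
    refine Adj_c1 ρ h1 h2 hik hx.1 hx.2 fun h => hxR ?_
    rw [mem_Rg]
    exact ⟨hx.1, hx.2, h.1, h.2⟩
  · rw [mem_Mg] at hx
    refine Adj_c2 ρ h1 h2 hik hx.1 hx.2 fun h => hxR ?_
    rw [mem_Rg]
    exact ⟨hx.1, h.1, hx.2, h.2⟩

private theorem Adj_le {i j : Fin n} (hs : (j : ℕ) = i + 1) : Mg n F hs ≤ UT n F :=
  fun _ hu => ((mem_Mg hs).1 hu).1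

/-- a character of type `i` is trivial on `M_ij` -/
private theorem Adj_lt {i j : Fin n} (h : i < j) (hs : (j : ℕ) = i + 1)
    {lam : UT n F →* ℂˣ} (hlam : lam ∈ Lin ρ (UT n F)) (hnt : ∃ a, lam (el h a) ≠ 1)
    (hl : ∀ (r s : Fin n) (h : r < s), (s : ℕ) = r + 1 → r ≠ i → ∀ a, lam (el h a) = 1) :
    finrank ℂ (fixSp ρ (UT n F)) < finrank ℂ (fixSp ρ (Mg n F hs)) := by
  refine Submodule.finrank_lt_finrank_of_lt (lt_of_le_of_ne (fixSp_anti ρ (Adj_le hs)) ?_)
  intro heq
  obtain ⟨v, hv0, hv⟩ := (mem_Lin_iff ρ _ lam).1 hlam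
  have h1 : v ∈ fixSp ρ (Mg n F hs) := by
    intro x hx
    obtain ⟨hx1, hx2⟩ := (mem_Mg hs).1 hx
    have h2 := hv ⟨x, hx1⟩
    have h3 : lam ⟨x, hx1⟩ = 1 := by
      rw [lam_eq lam h hs hl]
      change lam (el h (x.1 i j)) = 1
      rw [hx2, el_zero, map_one]
    rw [h3, Units.val_one, one_smul] at h2
    exact h2
  rw [← heq] at h1
  obtain ⟨a, ha⟩ := hnt
  apply ha
  have h2 := h1 _ (el h a).2
  rw [hv (el h a)] at h2
  refine Units.ext ?_
  have h3 : ((lam (el h a) : ℂˣ) : ℂ) • v = (1 : ℂ) • v := by rw [h2, one_smul]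
  rw [Units.val_one]
  exact smul_left_injective ℂ hv0 h3

/-- a vector fixed by `M_ij` and not by `UT` gives a character of type `i` -/
private theorem Adj_ex {i j : Fin n} (h : i < j) (hs : (j : ℕ) = i + 1)
    (hlt : finrank ℂ (fixSp ρ (UT n F)) < finrank ℂ (fixSp ρ (Mg n F hs))) :
    ∃ mu ∈ Lin ρ (UT n F), (∃ a, mu (el h a) ≠ 1) ∧
      ∀ (r s : Fin n) (h : r < s), (s : ℕ) = r + 1 → r ≠ i → ∀ a, mu (el h a) = 1 := by
  classical
  have : Fintype (UT n F) := Fintype.ofFinite _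
  have : Fintype (UT n F →* ℂˣ) := Fintype.ofFinite _
  have h0 : ¬ fixSp ρ (Mg n F hs) ≤ fixSp ρ (UT n F) := fun hle =>
    absurd (Submodule.finrank_mono hle) (not_le.2 hlt)
  obtain ⟨w, hw, hw'⟩ := Set.not_subset.1 h0
  have hsum : ∑ μ : UT n F →* ℂˣ, proj ρ (UT n F) μ w = w := by
    refine sum_proj_eq ρ _ w fun x hx => hw _ ?_
    rw [Mg]
    exact Subgroup.mem_map.2 ⟨x, Abelianization.commutator_subset_ker _ hx, rfl⟩
  have hex : ∃ μ : UT n F →* ℂˣ, μ ≠ 1 ∧ proj ρ (UT n F) μ w ≠ 0 := by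
    by_contra hcon
    push Not at hcon
    apply hw'
    have h1 : proj ρ (UT n F) 1 w = w := by
      rw [Finset.sum_eq_single (1 : UT n F →* ℂˣ) (fun μ _ hμ => hcon μ hμ)
        (fun h => absurd (Finset.mem_univ _) h)] at hsum
      exact hsum
    intro x hx
    have h2 := rho_proj ρ (UT n F) 1 w ⟨x, hx⟩
    rw [h1] at h2
    simpa using h2
  obtain ⟨μ, hμ1, hμ⟩ := hex
  have htriv : ∀ z : UT n F, (z : SpecialLinearGroup (Fin n) F).1 i j = 0 → μ z = 1 := by
    intro z hz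
    have h1 := proj_rho ρ (UT n F) μ w z
    rw [hw z ((mem_Mg hs).2 ⟨z.2, hz⟩)] at h1
    refine Units.ext ?_
    rw [Units.val_one]
    refine smul_left_injective ℂ hμ ?_
    change ((μ z : ℂˣ) : ℂ) • proj ρ (UT n F) μ w = (1 : ℂ) • proj ρ (UT n F) μ w
    rw [← h1, one_smul]
  have hother : ∀ (r s : Fin n) (h : r < s), (s : ℕ) = r + 1 → r ≠ i → ∀ a, μ (el h a) = 1 := by
    intro r s hrs _ hri a
    refine htriv _ ?_
    rw [el_val, Matrix.transvection, Matrix.add_apply, Matrix.one_apply_ne h.ne,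
      Matrix.single_apply_of_ne _ _ _ _ _ (fun h1 => hri h1.1), zero_add]
  refine ⟨μ, (mem_Lin_iff ρ _ μ).2 ⟨_, hμ, rho_proj ρ _ μ w⟩, ?_, hother⟩
  by_contra hcon
  push Not at hcon
  apply hμ1
  refine lam_one μ fun r s hrs hs' a => ?_
  by_cases hri : r = i
  · subst hri
    have hsj : s = j := Fin.ext (by omega)
    subst hsj
    exact hcon a
  · exact hother r s hrs hs' hri a

/-- if a nontrivial character of type `i` occurs in `Lin` then one of the type of a neighbour -/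
theorem adj_char {i j i' j' : Fin n} (h : i < j) (hs : (j : ℕ) = i + 1) (h' : i' < j')
    (hs' : (j' : ℕ) = i' + 1) (hn : (i' : ℕ) = i + 1 ∨ (i : ℕ) = i' + 1)
    {lam : UT n F →* ℂˣ} (hlam : lam ∈ Lin ρ (UT n F)) (hnt : ∃ a, lam (el h a) ≠ 1)
    (hl : ∀ (r s : Fin n) (hrs : r < s), (s : ℕ) = r + 1 → r ≠ i → ∀ a, lam (el hrs a) = 1) :
    ∃ mu ∈ Lin ρ (UT n F), (∃ a, mu (el h' a) ≠ 1) ∧
      ∀ (r s : Fin n) (hrs : r < s), (s : ℕ) = r + 1 → r ≠ i' → ∀ a, mu (el hrs a) = 1 := by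
  have h4 := Adj_lt ρ h hs hlam hnt hl
  refine Adj_ex ρ h' hs' ?_
  rcases hn with hn | hn
  · have e1 : i' = j := Fin.ext (by omega)
    subst e1
    rw [← finrank_Mg ρ hs hs']
    exact h4
  · have e1 : i = j' := Fin.ext (by omega)
    subst e1
    rw [finrank_Mg ρ hs' hs]
    exact h4

end sums

end Pool.Agent.H.MP_7d3ffc_al.DC
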