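import Pool.Agent.H.MP_7d3ffc_al.DC.Main

/-!
# Module DC/Btw: groups between the special and the general linear group
-/

namespace Pool.Agent.H.MP_7d3ffc_al.DC

open Matrix Matrix.SpecialLinearGroup Pool.Agent.H.MP_7d3ffc_al Module

variable {n : ℕ} {F : Type*} [Field F] [Finite F]

theorem Btw_range (g : GL (Fin n) F) (h : g.val.det = 1) :
    ∃ s : SpecialLinearGroup (Fin n) F, toGL s = g :=
  ⟨⟨g.val, h⟩, Units.ext rfl⟩

theorem between {p : ℕ} [Fact p.Prime] [CharP F p] (H : Subgroup (GL (Fin n) F))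
    (hH : ∀ s : SpecialLinearGroup (Fin n) F, toGL s ∈ H) (hq2 : Nat.card F = 2 → n ≤ 2)
    {V : Type*} [AddCommGroup V] [Module ℂ V] [FiniteDimensional ℂ V]
    (P : Sylow p H) (ρ : Representation ℂ H V) (hρ : ρ.IsIrreducible) (hd : p ∣ finrank ℂ V)
    (hne : (Lin ρ (P : Subgroup H)).Nonempty) : p ≤ (Lin ρ (P : Subgroup H)).ncard := by
  have hp : p.Prime := Fact.out
  let π : SpecialLinearGroup (Fin n) F →* H := toGL.codRestrict H hH
  let δ : H →* Fˣ := Matrix.GeneralLinearGroup.det.comp H.subtype
  have hker : π.range = δ.ker := by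
    ext h
    rw [MonoidHom.mem_ker]
    constructor
    · rintro ⟨s, rfl⟩
      refine Units.ext ?_
      exact s.2
    · intro hh
      have h1 : (h : GL (Fin n) F).val.det = 1 := congrArg Units.val hh
      obtain ⟨s, hs⟩ := Btw_range _ h1
      exact ⟨s, Subtype.ext hs⟩
  have hfin : Fintype F := Fintype.ofFinite F
  have hidx : π.range.index ∣ Nat.card F - 1 := by
    rw [hker, Subgroup.index_ker, ← Nat.card_units]
    exact Subgroup.card_subgroup_dvd_card _
  have hpF : p ∣ Nat.card F := by
    obtain ⟨m, _, hm⟩ := FiniteField.card F p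
    rw [Nat.card_eq_fintype_card, hm]
    exact dvd_pow_self p m.pos.ne'
  have hF1 : 1 ≤ Nat.card F := Nat.card_pos
  refine main π (by rw [hker]; exact MonoidHom.normal_ker δ) (fun h => ?_) hq2 ?_ P ρ hρ hd hne
  · have h1 : p ∣ Nat.card F - 1 := h.trans hidx
    have h2 : p ∣ Nat.card F - (Nat.card F - 1) := Nat.dvd_sub hpF h1
    rw [Nat.sub_sub_self hF1] at h2
    exact hp.one_lt.ne' (Nat.dvd_one.1 h2)
  · intro hc3 _
    rw [hc3] at hidx
    rcases (Nat.dvd_prime Nat.prime_two).1 hidx with h1 | h1
    · left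
      rw [Subgroup.index_eq_one] at h1
      exact MonoidHom.range_eq_top.1 h1
    · right
      have h2 : Nat.card δ.range = 2 := by rw [← Subgroup.index_ker, ← hker, h1]
      have h3 : δ.range = ⊤ := by
        refine Subgroup.eq_top_of_card_eq _ ?_
        rw [h2, Nat.card_units, hc3]
      have h4 : ∀ g : GL (Fin n) F, g ∈ H := by
        intro g
        have h5 : Matrix.GeneralLinearGroup.det g ∈ δ.range := by rw [h3]; trivial
        obtain ⟨h, hh⟩ := h5
        have h6 : ((h : GL (Fin n) F)⁻¹ * g).val.det = 1 := by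
          have h7 : Matrix.GeneralLinearGroup.det ((h : GL (Fin n) F)⁻¹ * g) = 1 := by
            rw [map_mul, map_inv]
            have h8 : Matrix.GeneralLinearGroup.det (h : GL (Fin n) F) =
                Matrix.GeneralLinearGroup.det g := hh
            rw [h8, inv_mul_cancel]
          exact congrArg Units.val h7
        obtain ⟨s, hs⟩ := Btw_range _ h6
        have h9 : g = (h : GL (Fin n) F) * toGL s := by rw [hs, mul_inv_cancel_left]
        rw [h9]
        exact H.mul_mem h.2 (hH s)
      exact ⟨(MonoidHom.id _).codRestrict H h4, fun s => rfl⟩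

end Pool.Agent.H.MP_7d3ffc_al.DC
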