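import Mathlib
import Pool.Agent.H.MP_7d3ffc_al.Lin

/-!
# Module DC/Cnt: the dimension modulo `p` and the linear constituents

* `eigSp_finrank`: `card P * finrank (eigSp ρ P μ) = ∑ x, χ(x) μ(x)⁻¹`; as in `mem_Lin_iff`
  (`Representation.card_inv_mul_sum_char_eq_finrank` for `twist ρ P μ`; the invariants of the twist are
  `eigSp ρ P μ`, `twist_apply_eq_iff`).
* `eigSp_sum`: if the commutator subgroup of `P` is trivial, the dimensions of the `eigSp ρ P μ` add up to
  `finrank ℂ V`: sum `eigSp_finrank` over `μ` and use `sum_linear_characters`. More generally the sum is the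
  dimension of the space of the vectors fixed by `commutator P` (the character sum over
  `commutator P` is computed by `card_inv_mul_sum_char_eq_finrank` for the restriction).
* `cnt`: it is enough to show, for a finite `p`-group `P` and a representation `σ` of `P` on `V`, that
  `finrank ℂ V` is congruent modulo `p` to the dimension of the space of the vectors fixed by the
  commutator subgroup `P'`. Induction on `card P`. If `P' = 1` there is nothing to prove. Otherwise there is a
  central `z` in `P'` of order `p` (a nontrivial normal subgroup of a `p`-group meets the centre, count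
  fixed points: `IsPGroup.card_modEq_card_fixedPoints`, or a lemma for nilpotent groups). By
  `eigSp_sum` for `Z = zpowers z`, `finrank ℂ V` is the sum of the dimensions of the eigenspaces
  `X_μ` of `Z`. If `μ ≠ 1`, then `X_μ` is stable under `P`, `z` acts on it as the scalar `μ(z)`,
  a primitive `p`-th root of unity; `x ↦ det (σ x | X_μ)` is a homomorphism from `P` to `ℂˣ`, so it is trivial
  on `P'`, so `μ(z) ^ dim X_μ = 1` and `p` divides `dim X_μ`. And `X_1` is a representation of
  `P ⧸ Z` (`Representation.quotientToInvariants`), the vectors in it fixed by `(P ⧸ Z)'` (the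
  image of `P'`) are the vectors of `V` fixed by `P'`; use the induction hypothesis.
-/

namespace Pool.Agent.H.MP_7d3ffc_al.DC

open Pool.Agent.H.MP_7d3ffc_al Module

variable {G : Type*} [Group G] {V : Type*} [AddCommGroup V] [Module ℂ V]

/-- the eigenspace of the linear character `μ` of `P` -/
def eigSp (ρ : Representation ℂ G V) (P : Subgroup G) (μ : P →* ℂˣ) : Submodule ℂ V where
  carrier := {v | ∀ x : P, ρ (x : G) v = ((μ x : ℂˣ) : ℂ) • v}
  add_mem' := fun {a b} ha hb x => by rw [map_add, ha x, hb x, smul_add]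
  zero_mem' := fun x => by rw [map_zero, smul_zero]
  smul_mem' := fun c v hv x => by rw [map_smul, hv x, smul_comm]

theorem mem_eigSp {ρ : Representation ℂ G V} {P : Subgroup G} {μ : P →* ℂˣ} {v : V} :
    v ∈ eigSp ρ P μ ↔ ∀ x : P, ρ (x : G) v = ((μ x : ℂˣ) : ℂ) • v := Iff.rfl

section Group

/-- a nontrivial normal subgroup of a finite `p`-group meets the centre -/
theorem Cnt_center {p : ℕ} [Fact p.Prime] {Q : Type*} [Group Q] [Finite Q] (hQ : IsPGroup p Q)
    (K : Subgroup Q) [K.Normal] (hK : K ≠ ⊥) :
    ∃ z ∈ K, z ≠ 1 ∧ z ∈ Subgroup.center Q := by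
  have hd : p ∣ Nat.card K := by
    obtain ⟨n, hn⟩ := IsPGroup.iff_card.mp (hQ.to_subgroup K)
    have hn0 : n ≠ 0 := by
      rintro rfl
      exact hK (Subgroup.card_eq_one.mp (by simpa using hn))
    rw [hn]
    exact dvd_pow_self p hn0
  have h1 := (hQ.of_equiv ConjAct.toConjAct).exists_fixed_point_of_prime_dvd_card_of_fixed_point K
    hd (a := (1 : K)) (fun g => smul_one g)
  obtain ⟨b, hb, hb1⟩ := h1
  refine ⟨b, b.2, fun h => hb1 (Subtype.ext h.symm), ?_⟩
  rw [Subgroup.mem_center_iff]
  intro g
  have h2 : g * (b : Q) * g⁻¹ = b := congrArg Subtype.val (hb (ConjAct.toConjAct g))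
  rw [← h2, inv_mul_cancel_right, h2]

/-- a central cyclic subgroup is normal -/
theorem Cnt_normal {Q : Type*} [Group Q] {z : Q} (hz : z ∈ Subgroup.center Q) :
    (Subgroup.zpowers z).Normal := by
  refine ⟨fun a ha g => ?_⟩
  have h1 : a ∈ Subgroup.center Q :=
    (Subgroup.zpowers_le.mpr hz) ha
  rw [Subgroup.mem_center_iff] at h1
  rw [h1 g, mul_inv_cancel_right]
  exact ha

/-- the set of the linear characters of a finite group is finite -/
theorem Cnt_finite (Q : Type*) [Group Q] [Finite Q] : Finite (Q →* ℂˣ) := by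
  have h1 : Nat.card (Abelianization Q →* ℂˣ) = Nat.card (Abelianization Q) :=
    CommGroup.card_monoidHom_of_hasEnoughRootsOfUnity (Abelianization Q) ℂ
  have h2 : Nat.card (Abelianization Q →* ℂˣ) ≠ 0 := by
    rw [h1]
    exact Nat.card_pos.ne'
  have h3 : Finite (Abelianization Q →* ℂˣ) := Nat.finite_of_card_ne_zero h2
  exact Finite.of_equiv _ (Abelianization.lift (G := Q) (A := ℂˣ)).symm

end Group

section Rep

variable {Q : Type*} [Group Q]

/-- an element of the commutator subgroup which acts as a scalar on an invariant subspace -/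
theorem Cnt_scalar (σ : Representation ℂ Q V) (E : Submodule ℂ V)
    (hE : ∀ x : Q, E ≤ E.comap (σ x)) {z : Q} (hz : z ∈ commutator Q) (c : ℂ)
    (hc : ∀ v ∈ E, σ z v = c • v) : c ^ finrank ℂ E = 1 := by
  have h1 : ∀ x ∈ commutator Q,
      (LinearMap.det.comp (Representation.subrepresentation σ E hE)) x = 1 := by
    intro x hx
    have h2 : x ∈ (MonoidHom.toHomUnits
        (LinearMap.det.comp (Representation.subrepresentation σ E hE))).ker :=
      Abelianization.commutator_subset_ker _ hx
    have h3 := congrArg Units.val (MonoidHom.mem_ker.mp h2)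
    rwa [MonoidHom.coe_toHomUnits, Units.val_one] at h3
  have h2 : Representation.subrepresentation σ E hE z = c • LinearMap.id := by
    ext v
    exact hc v v.2
  have h3 := h1 z hz
  rw [MonoidHom.comp_apply, h2, LinearMap.det_smul, LinearMap.det_id, mul_one] at h3
  exact h3

/-- the eigenspaces of the nontrivial characters of a central subgroup -/
theorem Cnt_dvd {p : ℕ} [Fact p.Prime] [Finite Q] (hQ : IsPGroup p Q) (σ : Representation ℂ Q V)
    {z : Q} (hz : z ∈ Subgroup.center Q) (hz2 : z ∈ commutator Q)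
    (μ : Subgroup.zpowers z →* ℂˣ) (hμ : μ ≠ 1) :
    p ∣ finrank ℂ (eigSp σ (Subgroup.zpowers z) μ) := by
  have hE : ∀ x : Q, eigSp σ (Subgroup.zpowers z) μ ≤
      (eigSp σ (Subgroup.zpowers z) μ).comap (σ x) := by
    intro x v hv
    rw [Submodule.mem_comap, mem_eigSp]
    intro y
    have hy : (y : Q) ∈ Subgroup.center Q := (Subgroup.zpowers_le.mpr hz) y.2
    have h1 : (y : Q) * x = x * y := (Subgroup.mem_center_iff.mp hy x).symm
    have h2 : σ (y : Q) (σ x v) = σ x (σ (y : Q) v) := by
      rw [← Module.End.mul_apply, ← Module.End.mul_apply, ← map_mul, ← map_mul, h1]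
    rw [h2, (mem_eigSp.mp hv) y, map_smul]
  set c : ℂˣ := μ ⟨z, Subgroup.mem_zpowers z⟩ with hc
  have h1 : c ^ finrank ℂ (eigSp σ (Subgroup.zpowers z) μ) = 1 := by
    refine Units.ext ?_
    rw [Units.val_pow_eq_pow_val, Units.val_one]
    exact Cnt_scalar σ _ hE hz2 (c : ℂ) (fun v hv => (mem_eigSp.mp hv) ⟨z, Subgroup.mem_zpowers z⟩)
  have h2 : orderOf c ∣ finrank ℂ (eigSp σ (Subgroup.zpowers z) μ) := orderOf_dvd_of_pow_eq_one h1
  obtain ⟨k, hk⟩ := IsPGroup.iff_card.mp hQ
  have h3 : orderOf c ∣ p ^ k := by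
    refine orderOf_dvd_of_pow_eq_one ?_
    rw [hc, ← map_pow]
    have : (⟨z, Subgroup.mem_zpowers z⟩ : Subgroup.zpowers z) ^ p ^ k = 1 := by
      refine Subtype.ext ?_
      rw [SubgroupClass.coe_pow, ← hk]
      exact pow_card_eq_one'
    rw [this, map_one]
  obtain ⟨j, -, hj⟩ := (Nat.dvd_prime_pow (Fact.out : p.Prime)).mp h3
  have hj0 : j ≠ 0 := by
    rintro rfl
    rw [pow_zero, orderOf_eq_one_iff] at hj
    apply hμ
    ext y
    obtain ⟨i, hi⟩ := Subgroup.mem_zpowers_iff.mp y.2
    have hy : y = (⟨z, Subgroup.mem_zpowers z⟩ : Subgroup.zpowers z) ^ i := by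
      refine Subtype.ext ?_
      rw [SubgroupClass.coe_zpow]
      exact hi.symm
    rw [hy, map_zpow, ← hc, hj, one_zpow]
    rfl
  exact (dvd_pow_self p hj0).trans (hj ▸ h2)

end Rep

variable [Finite G] [FiniteDimensional ℂ V]

theorem eigSp_finrank (ρ : Representation ℂ G V) (P : Subgroup G) [Fintype P] (μ : P →* ℂˣ) :
    (Nat.card P : ℂ) * (finrank ℂ (eigSp ρ P μ) : ℂ) =
      ∑ x : P, ρ.character (x : G) * (((μ x)⁻¹ : ℂˣ) : ℂ) := by
  have hcard : (Nat.card P : ℂ) ≠ 0 := Nat.cast_ne_zero.mpr Nat.card_pos.ne'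
  have : Invertible (Nat.card P : ℂ) := invertibleOfNonzero hcard
  have h1 := Representation.card_inv_mul_sum_char_eq_finrank (twist ρ P μ)
  have h2 : ∀ x : P, (twist ρ P μ).character x =
      ρ.character (x : G) * (((μ x)⁻¹ : ℂˣ) : ℂ) := by
    intro x
    have h3 : (twist ρ P μ) x = (((μ x)⁻¹ : ℂˣ) : ℂ) • ρ (x : G) := rfl
    simp only [Representation.character, h3, map_smul, smul_eq_mul, mul_comm]
  simp only [h2] at h1
  have h4 : (twist ρ P μ).invariants = eigSp ρ P μ := by
    ext v
    rw [mem_eigSp]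
    exact forall_congr' fun x => twist_apply_eq_iff ρ P μ x v
  rw [← h4, ← h1, mul_inv_cancel_left₀ hcard]

/-- the eigenspaces of the linear characters span the fixed space of the commutator subgroup -/
theorem Cnt_sum (ρ : Representation ℂ G V) (P : Subgroup G) [Fintype (P →* ℂˣ)] :
    ∑ μ : P →* ℂˣ, finrank ℂ (eigSp ρ P μ) =
      finrank ℂ (Representation.invariants
        ((ρ.comp P.subtype).comp (commutator P).subtype)) := by
  classical
  have : Fintype P := Fintype.ofFinite _
  have : Fintype (commutator P) := Fintype.ofFinite _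
  have hcard : (Nat.card P : ℂ) ≠ 0 := Nat.cast_ne_zero.mpr Nat.card_pos.ne'
  have hcard2 : (Nat.card (commutator P) : ℂ) ≠ 0 := Nat.cast_ne_zero.mpr Nat.card_pos.ne'
  have : Invertible (Nat.card (commutator P) : ℂ) := invertibleOfNonzero hcard2
  have h1 := Representation.card_inv_mul_sum_char_eq_finrank
    ((ρ.comp P.subtype).comp (commutator P).subtype)
  have h2 : ∑ g : commutator P,
      Representation.character ((ρ.comp P.subtype).comp (commutator P).subtype) g =
      ∑ x : P, if x ∈ commutator P then ρ.character (x : G) else 0 := by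
    rw [← Finset.sum_filter]
    refine (Finset.sum_subtype (p := fun x => x ∈ commutator P) _ (fun x => by simp)
      (fun x : P => ρ.character (x : G))).symm
  have h3 : (Nat.card P : ℂ) * ((∑ μ : P →* ℂˣ, finrank ℂ (eigSp ρ P μ) : ℕ) : ℂ) =
      (Nat.card (P ⧸ commutator P) : ℂ) *
        ∑ x : P, if x ∈ commutator P then ρ.character (x : G) else 0 := by
    rw [Nat.cast_sum, Finset.mul_sum]
    simp only [eigSp_finrank]
    rw [Finset.sum_comm, Finset.mul_sum]
    refine Finset.sum_congr rfl fun x _ => ?_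
    rw [← Finset.mul_sum, sum_linear_characters]
    split_ifs with hx
    · rw [mul_comm]
    · rw [mul_zero, mul_zero]
  rw [← h2] at h3
  have h5 : (Nat.card P : ℂ) = (Nat.card (P ⧸ commutator P) : ℂ) * (Nat.card (commutator P) : ℂ) := by
    rw [← Nat.cast_mul, ← Subgroup.card_eq_card_quotient_mul_card_subgroup]
  have h6 : (Nat.card (P ⧸ commutator P) : ℂ) ≠ 0 := Nat.cast_ne_zero.mpr Nat.card_pos.ne'
  have h7 : ∑ g : commutator P,
      Representation.character ((ρ.comp P.subtype).comp (commutator P).subtype) g =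
      (Nat.card (commutator P) : ℂ) * (finrank ℂ (Representation.invariants
        ((ρ.comp P.subtype).comp (commutator P).subtype)) : ℂ) := by
    rw [← h1, mul_inv_cancel_left₀ hcard2]
  rw [h7, ← mul_assoc, ← h5] at h3
  exact Nat.cast_injective (R := ℂ) (mul_left_cancel₀ hcard h3)

theorem Cnt_bot {Q : Type*} [Group Q] (σ : Representation ℂ Q V) (hQ : commutator Q = ⊥) :
    finrank ℂ (Representation.invariants (σ.comp (commutator Q).subtype)) = finrank ℂ V := by
  have h1 : Representation.invariants (σ.comp (commutator Q).subtype) = ⊤ := by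
    rw [eq_top_iff]
    rintro v - ⟨x, hx⟩
    have hx1 : x = 1 := by
      rw [hQ] at hx
      exact Subgroup.mem_bot.mp hx
    subst hx1
    show σ 1 v = v
    rw [map_one]
    rfl
  rw [h1, finrank_top]

theorem eigSp_sum (ρ : Representation ℂ G V) (P : Subgroup G) [Fintype (P →* ℂˣ)]
    (hP : commutator P = ⊥) : ∑ μ : P →* ℂˣ, finrank ℂ (eigSp ρ P μ) = finrank ℂ V := by
  rw [Cnt_sum, Cnt_bot (ρ.comp P.subtype) hP]

universe u v

/-- the vectors fixed by the commutator subgroup, through the quotient by a central subgroup -/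
theorem Cnt_quot {Q : Type u} [Group Q] {W : Type v} [AddCommGroup W] [Module ℂ W]
    (σ : Representation ℂ Q W) (Z : Subgroup Q) [Z.Normal] (hZ : Z ≤ commutator Q) :
    finrank ℂ (Representation.invariants
      ((Representation.quotientToInvariants σ Z).comp (commutator (Q ⧸ Z)).subtype)) =
    finrank ℂ (Representation.invariants (σ.comp (commutator Q).subtype)) := by
  have hc : ∀ x : Q, (x : Q ⧸ Z) ∈ commutator (Q ⧸ Z) ↔ x ∈ commutator Q := by
    intro x
    have h1 : commutator (Q ⧸ Z) = (commutator Q).map (QuotientGroup.mk' Z) := by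
      rw [commutator_def, commutator_def, Subgroup.map_commutator,
        Subgroup.map_top_of_surjective _ (QuotientGroup.mk'_surjective Z)]
    rw [h1]
    constructor
    · rintro ⟨y, hy, hxy⟩
      have h2 : y⁻¹ * x ∈ Z := QuotientGroup.eq.mp hxy
      have h3 := (commutator Q).mul_mem hy (hZ h2)
      rwa [mul_inv_cancel_left] at h3
    · intro hx
      exact ⟨x, hx, rfl⟩
  have hmap : (Representation.invariants
      ((Representation.quotientToInvariants σ Z).comp (commutator (Q ⧸ Z)).subtype)).map
      (Submodule.subtype _) = Representation.invariants (σ.comp (commutator Q).subtype) := by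
    ext v
    constructor
    · rintro ⟨w, hw, rfl⟩
      rintro ⟨x, hx⟩
      have h1 := hw ⟨(x : Q ⧸ Z), (hc x).mpr hx⟩
      exact congrArg Subtype.val h1
    · intro hv
      have hvZ : v ∈ Representation.invariants (σ.comp Z.subtype) :=
        fun y => hv ⟨y, hZ y.2⟩
      refine ⟨⟨v, hvZ⟩, ?_, rfl⟩
      rintro ⟨x, hx⟩
      obtain ⟨y, rfl⟩ := QuotientGroup.mk_surjective x
      exact Subtype.ext (hv ⟨y, (hc y).mp hx⟩)
  rw [← hmap, Submodule.finrank_map_subtype_eq]

theorem Cnt_main {p : ℕ} [Fact p.Prime] (n : ℕ) : ∀ (Q : Type u) [Group Q] [Finite Q]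
    (W : Type v) [AddCommGroup W] [Module ℂ W] [FiniteDimensional ℂ W]
    (σ : Representation ℂ Q W), Nat.card Q ≤ n → IsPGroup p Q →
    finrank ℂ W ≡ finrank ℂ (Representation.invariants (σ.comp (commutator Q).subtype))
      [MOD p] := by
  classical
  induction n with
  | zero =>
    intro Q _ _ W _ _ _ σ hn
    exact absurd hn (not_le.mpr Nat.card_pos)
  | succ n ih =>
    intro Q _ _ W _ _ _ σ hn hQ
    by_cases hcom : commutator Q = ⊥
    · rw [Cnt_bot σ hcom]
    · obtain ⟨z, hz2, hz1, hz⟩ := Cnt_center hQ (commutator Q) hcom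
      have hN := Cnt_normal hz
      have hZ : Subgroup.zpowers z ≤ commutator Q := Subgroup.zpowers_le.mpr hz2
      have : Finite (Subgroup.zpowers z →* ℂˣ) := Cnt_finite _
      have : Fintype (Subgroup.zpowers z →* ℂˣ) := Fintype.ofFinite _
      have hcZ : commutator (Subgroup.zpowers z) = ⊥ := by
        rw [commutator_eq_bot_iff]
        infer_instance
      have h1 := eigSp_sum σ (Subgroup.zpowers z) hcZ
      rw [← Finset.add_sum_erase Finset.univ _ (Finset.mem_univ 1)] at h1
      have h2 : p ∣ ∑ μ ∈ Finset.univ.erase (1 : Subgroup.zpowers z →* ℂˣ),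
          finrank ℂ (eigSp σ (Subgroup.zpowers z) μ) :=
        Finset.dvd_sum fun μ hμ => Cnt_dvd hQ σ hz hz2 μ (Finset.mem_erase.mp hμ).1
      have h3 : eigSp σ (Subgroup.zpowers z) 1 =
          Representation.invariants (σ.comp (Subgroup.zpowers z).subtype) := by
        ext v
        rw [mem_eigSp]
        refine forall_congr' fun x => ?_
        rw [MonoidHom.one_apply, Units.val_one, one_smul]
        rfl
      have h4 : finrank ℂ W ≡ finrank ℂ (Representation.invariants
          (σ.comp (Subgroup.zpowers z).subtype)) [MOD p] := by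
        rw [← h1, h3]
        exact (Nat.ModEq.add_left _ ((Nat.modEq_zero_iff_dvd).mpr h2)).trans (by rw [add_zero])
      refine h4.trans ?_
      have hcard : Nat.card (Q ⧸ Subgroup.zpowers z) ≤ n := by
        have h5 := Subgroup.card_eq_card_quotient_mul_card_subgroup (Subgroup.zpowers z)
        have h6 : 1 < Nat.card (Subgroup.zpowers z) := by
          rw [Subgroup.one_lt_card_iff_ne_bot]
          intro h7
          exact hz1 (Subgroup.zpowers_eq_bot.mp h7)
        have h8 : 0 < Nat.card (Q ⧸ Subgroup.zpowers z) := Nat.card_pos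
        have h9 : Nat.card (Q ⧸ Subgroup.zpowers z) < Nat.card Q := by
          rw [h5]
          exact lt_mul_of_one_lt_right h8 h6
        omega
      have h10 := ih (Q ⧸ Subgroup.zpowers z) _
        (Representation.quotientToInvariants σ (Subgroup.zpowers z)) hcard (hQ.to_quotient _)
      rwa [Cnt_quot σ (Subgroup.zpowers z) hZ] at h10

/-- the dimension is modulo `p` the number of the linear constituents with multiplicities -/
theorem cnt {p : ℕ} [Fact p.Prime] (ρ : Representation ℂ G V) (P : Subgroup G) (hP : IsPGroup p P)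
    [Fintype (P →* ℂˣ)] : finrank ℂ V ≡ ∑ μ : P →* ℂˣ, finrank ℂ (eigSp ρ P μ) [MOD p] := by
  rw [Cnt_sum]
  exact Cnt_main (Nat.card P) P V (ρ.comp P.subtype) le_rfl hP

end Pool.Agent.H.MP_7d3ffc_al.DC
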