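import Pool.Agent.H.MP_7d3ffc_al.ThmA
import Pool.Agent.H.MP_7d3ffc_al.DC.Assoc

/-!
# Module DC/Crit: a criterion

Let `P` be a Sylow `p`-subgroup of `G` such that every nontrivial linear character of `P` has at least
`p` conjugates under the normalizer of `P`, and such that `G` is generated by the normalizers of the
subgroups `Q` with `[P, P] ≤ Q ≤ P`. Then `|Lin(χ_P)| ≥ p` for all irreducible `χ` with `p | χ(1)` and
`Lin(χ_P)` not empty: if only `1` is in `Lin` then the fixed points of `Q` are the fixed points of `P` for all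
these `Q`, so they form a subrepresentation, and `P` acts trivially.
-/

namespace Pool.Agent.H.MP_7d3ffc_al.DC

open Pool.Agent.H.MP_7d3ffc_al Module
open scoped Pointwise

theorem crit {G : Type*} [Group G] [Finite G] {V : Type*} [AddCommGroup V] [Module ℂ V]
    [FiniteDimensional ℂ V] {p : ℕ} [Fact p.Prime] (P : Sylow p G)
    (hgen : ⨆ Q ∈ {Q : Subgroup G | ⁅(P : Subgroup G), (P : Subgroup G)⁆ ≤ Q ∧
      Q ≤ (P : Subgroup G)}, Subgroup.normalizer (Q : Set G) = ⊤)
    (horb : ∀ μ : (P : Subgroup G) →* ℂˣ, μ ≠ 1 →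
      p ≤ {ν : (P : Subgroup G) →* ℂˣ | ∃ g ∈ Subgroup.normalizer ((P : Subgroup G) : Set G),
        ∀ x y : (P : Subgroup G), (y : G) = g * x * g⁻¹ → ν x = μ y}.ncard)
    (ρ : Representation ℂ G V) (hρ : ρ.IsIrreducible) (hd : p ∣ finrank ℂ V)
    (hne : (Lin ρ (P : Subgroup G)).Nonempty) : p ≤ (Lin ρ (P : Subgroup G)).ncard := by
  classical
  have hp : p.Prime := Fact.out
  have : Fintype (P : Subgroup G) := Fintype.ofFinite _
  have : Fintype ((P : Subgroup G) →* ℂˣ) := Fintype.ofFinite _
  by_cases hnt : ∃ μ ∈ Lin ρ (P : Subgroup G), μ ≠ 1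
  · obtain ⟨μ, hμ, hμ1⟩ := hnt
    refine (horb μ hμ1).trans (Set.ncard_le_ncard ?_ (Set.toFinite _))
    rintro ν ⟨g, hg, hν⟩
    obtain ⟨v, hv0, hv⟩ := (mem_Lin_iff ρ _ μ).1 hμ
    refine (mem_Lin_iff ρ _ ν).2 ⟨ρ g⁻¹ v, fun h => hv0 ?_, fun x => ?_⟩
    · have h1 := congrArg (ρ g) h
      rw [map_zero, ← Module.End.mul_apply, ← map_mul, mul_inv_cancel, map_one] at h1
      exact h1
    · have hy : g * x * g⁻¹ ∈ (P : Subgroup G) := (hg x).1 x.2
      have h1 := hv ⟨g * x * g⁻¹, hy⟩
      rw [hν x ⟨g * x * g⁻¹, hy⟩ rfl, ← map_smul, ← h1, ← Module.End.mul_apply,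
        ← Module.End.mul_apply, ← map_mul, ← map_mul]
      congr 2
      group
  · push Not at hnt
    -- the fixed points
    have h1mem : (1 : (P : Subgroup G) →* ℂˣ) ∈ Lin ρ (P : Subgroup G) := by
      obtain ⟨μ, hμ⟩ := hne
      rw [← hnt μ hμ]
      exact hμ
    have hW : ∀ Q : Subgroup G, ⁅(P : Subgroup G), (P : Subgroup G)⁆ ≤ Q →
        Q ≤ (P : Subgroup G) → fixSp ρ Q = fixSp ρ (P : Subgroup G) := by
      intro Q hQ1 hQ2
      refine le_antisymm (fun w hw => ?_) (fixSp_anti ρ hQ2)
      have hsum : ∑ μ : (P : Subgroup G) →* ℂˣ, proj ρ (P : Subgroup G) μ w = w := by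
        refine sum_proj_eq ρ _ w fun x hx => hw _ (hQ1 ?_)
        have h2 : (commutator (P : Subgroup G)).map (P : Subgroup G).subtype =
            ⁅(P : Subgroup G), (P : Subgroup G)⁆ := by
          rw [commutator_def, Subgroup.map_commutator, ← MonoidHom.range_eq_map,
            Subgroup.range_subtype]
        rw [← h2]
        exact Subgroup.mem_map_of_mem _ hx
      rw [Finset.sum_eq_single (1 : (P : Subgroup G) →* ℂˣ)
        (fun μ _ hμ => proj_eq_zero_of_notMem ρ _ μ (fun h => hμ (hnt μ h)) w)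
        (fun h => absurd (Finset.mem_univ _) h)] at hsum
      intro x hx
      have h2 := rho_proj ρ (P : Subgroup G) 1 w ⟨x, hx⟩
      rw [hsum] at h2
      simpa using h2
    -- the stabilizer of the fixed points
    have hstab : ∀ g : G, ∀ w ∈ fixSp ρ (P : Subgroup G), ρ g w ∈ fixSp ρ (P : Subgroup G) := by
      let K : Subgroup G :=
        { carrier := {g | ∀ w ∈ fixSp ρ (P : Subgroup G), ρ g w ∈ fixSp ρ (P : Subgroup G) ∧
            ρ g⁻¹ w ∈ fixSp ρ (P : Subgroup G)}
          one_mem' := fun w hw => by simpa using hw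
          mul_mem' := fun {a b} ha hb w hw => by
            rw [map_mul, mul_inv_rev, map_mul, Module.End.mul_apply, Module.End.mul_apply]
            exact ⟨(ha _ (hb w hw).1).1, (hb _ (ha w hw).2).2⟩
          inv_mem' := fun {a} ha w hw => by
            rw [inv_inv]
            exact ⟨(ha w hw).2, (ha w hw).1⟩ }
      have hK : K = ⊤ := by
        rw [eq_top_iff, ← hgen]
        refine iSup_le fun Q => iSup_le fun hQ => ?_
        have h2 : ∀ g ∈ Subgroup.normalizer (Q : Set G), ∀ w ∈ fixSp ρ (P : Subgroup G),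
            ρ g w ∈ fixSp ρ (P : Subgroup G) := by
          intro g hg w hw
          rw [← hW Q hQ.1 hQ.2] at hw ⊢
          intro x hx
          have h3 : g⁻¹ * x * g⁻¹⁻¹ ∈ (Q : Set G) :=
            ((Subgroup.normalizer (Q : Set G)).inv_mem hg x).1 hx
          have h4 := hw _ h3
          rw [inv_inv] at h4
          calc ρ x (ρ g w) = ρ g (ρ (g⁻¹ * x * g) w) := by
                rw [← Module.End.mul_apply, ← Module.End.mul_apply, ← map_mul, ← map_mul]
                congr 2
                group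
            _ = ρ g w := by rw [h4]
        intro g hg w hw
        exact ⟨h2 g hg w hw, h2 g⁻¹ ((Subgroup.normalizer (Q : Set G)).inv_mem hg) w hw⟩
      intro g w hw
      have hg : g ∈ K := by
        rw [hK]
        exact Subgroup.mem_top g
      exact (hg w hw).1
    have htop : ∀ w : V, w ∈ fixSp ρ (P : Subgroup G) := by
      let S : Subrepresentation ρ :=
        { toSubmodule := fixSp ρ (P : Subgroup G)
          apply_mem_toSubmodule := fun g w hw => hstab g w hw }
      obtain ⟨v, hv0, hv⟩ := (mem_Lin_iff ρ _ _).1 h1mem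
      have hvS : v ∈ S.toSubmodule := fun x hx => by simpa using hv ⟨x, hx⟩
      rcases IsSimpleOrder.eq_bot_or_eq_top S with hS | hS
      · rw [hS] at hvS
        exact absurd ((Submodule.mem_bot ℂ).mp hvS) hv0
      · intro w
        have hw : w ∈ S.toSubmodule := by
          rw [hS]
          exact Submodule.mem_top
        exact hw
    -- the kernel
    have hker : (P : Subgroup G) ≤ MonoidHom.ker ρ := by
      intro x hx
      rw [MonoidHom.mem_ker]
      ext w
      exact htop w x hx
    obtain ⟨v, hv0, hv⟩ := (mem_Lin_iff ρ _ _).1 h1mem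
    have hH : (Lin ρ (MonoidHom.ker ρ)).Nonempty := by
      refine ⟨1, (mem_Lin_iff ρ _ _).2 ⟨v, hv0, fun x => ?_⟩⟩
      have h2 : ρ (x : G) = 1 := MonoidHom.mem_ker.1 x.2
      rw [h2]
      simp
    have h3 := theoremA (P : Subgroup G) P.isPGroup' ρ hρ (MonoidHom.ker ρ) hH 0 (fun g => by
      have h4 : MulAut.conj g • (MonoidHom.ker ρ) = MonoidHom.ker ρ := 
        Subgroup.Normal.conj_smul_eq_self g _
      rw [h4, Subgroup.relIndex_eq_one.2 ((Subgroup.commutator_le_self _).trans hker), pow_zero]) hne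
    have h5 : padicValNat p (P : Subgroup G).index = 0 :=
      padicValNat.eq_zero_of_not_dvd P.not_dvd_index
    have h6 : 0 < finrank ℂ V := Module.finrank_pos_iff_exists_ne_zero.2 ⟨v, hv0⟩
    have h7 : 1 ≤ padicValNat p (finrank ℂ V) :=
      one_le_padicValNat_of_dvd h6.ne' hd
    rw [h5] at h3
    have h8 : (p - 1) * 1 ≤ (p - 1) * padicValNat p (finrank ℂ V) := Nat.mul_le_mul_left _ h7
    have h9 := hp.two_le
    simp only [add_zero, mul_zero] at h3
    omega

end Pool.Agent.H.MP_7d3ffc_al.DC
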