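import Pool.Agent.H.MP_7d3ffc_al.DC.Crit

/-!
# Module DC/Crit2: a stronger criterion

`conj μ` below is the set of the `N_G(P)`-conjugates of the linear character `μ` of `P`.

Proof. As in `crit` there is a nontrivial `lam` in `Lin` (otherwise `P` acts trivially, against
`p ∣ χ(1)`), and `conj lam ⊆ Lin`. If it has at least `p` elements, we are done. Otherwise `lam` is trivial on
some `M` in `Ms`; take `M'`, `R` from `h3`. `finrank_fixSp_eq` (module Assoc): `fixSp ρ M` and `fixSp ρ M'` have the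
same dimension. `fixSp ρ P ≤ fixSp ρ M`, and the eigenvector for `lam` is in `fixSp ρ M` but not in
`fixSp ρ P`, so `finrank (fixSp ρ P) < finrank (fixSp ρ M) = finrank (fixSp ρ M')`. So there is a `v` in
`fixSp ρ M'` which is not in `fixSp ρ P`; it is fixed by `[P, P]`, so it is the sum of its projections
(`sum_proj_eq`), and one of the projections for `ν ≠ 1` is not `0`; `ν` is in `Lin` and trivial on `M'`
(the projection is fixed by `M'`: `M'` is normalized by `P`, or: `ρ m (proj ν v) = ν m proj ν v` and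
`proj ν v = proj ν (ρ m v) = ν m proj ν v` by `proj_rho`, so `ν m = 1`). The elements of `conj lam` are trivial
on `M`, those of `conj ν` on `M'` (`N_G(P)` normalizes `M`, `M'`), and no element of `conj lam` is in
`conj ν`, because it would be trivial on `M ⊔ M' = P`, but it is conjugate to `lam ≠ 1`. So `Lin` has at
least `p / 2 + p / 2` elements.
-/

namespace Pool.Agent.H.MP_7d3ffc_al.DC

open Pool.Agent.H.MP_7d3ffc_al Module
open scoped Pointwise

private theorem Crit2_nt {G : Type*} [Group G] [Finite G] {V : Type*} [AddCommGroup V] [Module ℂ V]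
    [FiniteDimensional ℂ V] {p : ℕ} [Fact p.Prime] (P : Sylow p G)
    (hgen : (⨆ Q ∈ {Q : Subgroup G | ⁅(P : Subgroup G), (P : Subgroup G)⁆ ≤ Q ∧
      Q ≤ (P : Subgroup G)}, Subgroup.normalizer (Q : Set G)) = ⊤)
    (ρ : Representation ℂ G V) (hρ : ρ.IsIrreducible) (hd : p ∣ finrank ℂ V)
    (hne : (Lin ρ (P : Subgroup G)).Nonempty) : ∃ μ ∈ Lin ρ (P : Subgroup G), μ ≠ 1 := by
  classical
  have hp : p.Prime := Fact.out
  have : Fintype (P : Subgroup G) := Fintype.ofFinite _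
  have : Fintype ((P : Subgroup G) →* ℂˣ) := Fintype.ofFinite _
  by_contra hnt
  push Not at hnt
  -- the fixed points
  have h1mem : (1 : (P : Subgroup G) →* ℂˣ) ∈ Lin ρ (P : Subgroup G) := by
    obtain ⟨μ, hμ⟩ := hne
    rw [← hnt μ hμ]
    exact hμ
  have hW : ∀ Q : Subgroup G, ⁅(P : Subgroup G), (P : Subgroup G)⁆ ≤ Q →
      Q ≤ (P : Subgroup G) → fixSp ρ Q = fixSp ρ (P : Subgroup G) := by
    intro Q hQ1 hQ2
    refine le_antisymm (fun w hw => ?_) (fixSp_anti ρ hQ2)
    have hsum : ∑ μ : (P : Subgroup G) →* ℂˣ, proj ρ (P : Subgroup G) μ w = w := by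
      refine sum_proj_eq ρ _ w fun x hx => hw _ (hQ1 ?_)
      have h2 : (commutator (P : Subgroup G)).map (P : Subgroup G).subtype =
          ⁅(P : Subgroup G), (P : Subgroup G)⁆ := by
        rw [commutator_def, Subgroup.map_commutator, ← MonoidHom.range_eq_map,
          Subgroup.range_subtype]
      rw [← h2]
      exact Subgroup.mem_map_of_mem _ hx
    rw [Finset.sum_eq_single (1 : (P : Subgroup G) →* ℂˣ)
      (fun μ _ hμ => proj_eq_zero_of_notMem ρ _ μ (fun h => hμ (hnt μ h)) w)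
      (fun h => absurd (Finset.mem_univ _) h)] at hsum
    intro x hx
    have h2 := rho_proj ρ (P : Subgroup G) 1 w ⟨x, hx⟩
    rw [hsum] at h2
    simpa using h2
  -- the stabilizer of the fixed points
  have hstab : ∀ g : G, ∀ w ∈ fixSp ρ (P : Subgroup G), ρ g w ∈ fixSp ρ (P : Subgroup G) := by
    let K : Subgroup G :=
      { carrier := {g | ∀ w ∈ fixSp ρ (P : Subgroup G), ρ g w ∈ fixSp ρ (P : Subgroup G) ∧
          ρ g⁻¹ w ∈ fixSp ρ (P : Subgroup G)}
        one_mem' := fun w hw => by simpa using hw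
        mul_mem' := fun {a b} ha hb w hw => by
          rw [map_mul, mul_inv_rev, map_mul, Module.End.mul_apply, Module.End.mul_apply]
          exact ⟨(ha _ (hb w hw).1).1, (hb _ (ha w hw).2).2⟩
        inv_mem' := fun {a} ha w hw => by
          rw [inv_inv]
          exact ⟨(ha w hw).2, (ha w hw).1⟩ }
    have hK : K = ⊤ := by
      rw [eq_top_iff, ← hgen]
      refine iSup_le fun Q => iSup_le fun hQ => ?_
      have h2 : ∀ g ∈ Subgroup.normalizer (Q : Set G), ∀ w ∈ fixSp ρ (P : Subgroup G),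
          ρ g w ∈ fixSp ρ (P : Subgroup G) := by
        intro g hg w hw
        rw [← hW Q hQ.1 hQ.2] at hw ⊢
        intro x hx
        have h3 : g⁻¹ * x * g⁻¹⁻¹ ∈ (Q : Set G) :=
          ((Subgroup.normalizer (Q : Set G)).inv_mem hg x).1 hx
        have h4 := hw _ h3
        rw [inv_inv] at h4
        calc ρ x (ρ g w) = ρ g (ρ (g⁻¹ * x * g) w) := by
              rw [← Module.End.mul_apply, ← Module.End.mul_apply, ← map_mul, ← map_mul]
              congr 2
              group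
          _ = ρ g w := by rw [h4]
      intro g hg w hw
      exact ⟨h2 g hg w hw, h2 g⁻¹ ((Subgroup.normalizer (Q : Set G)).inv_mem hg) w hw⟩
    intro g w hw
    have hg : g ∈ K := by
      rw [hK]
      exact Subgroup.mem_top g
    exact (hg w hw).1
  have htop : ∀ w : V, w ∈ fixSp ρ (P : Subgroup G) := by
    let S : Subrepresentation ρ :=
      { toSubmodule := fixSp ρ (P : Subgroup G)
        apply_mem_toSubmodule := fun g w hw => hstab g w hw }
    obtain ⟨v, hv0, hv⟩ := (mem_Lin_iff ρ _ _).1 h1mem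
    have hvS : v ∈ S.toSubmodule := fun x hx => by simpa using hv ⟨x, hx⟩
    rcases IsSimpleOrder.eq_bot_or_eq_top S with hS | hS
    · rw [hS] at hvS
      exact absurd ((Submodule.mem_bot ℂ).mp hvS) hv0
    · intro w
      have hw : w ∈ S.toSubmodule := by
        rw [hS]
        exact Submodule.mem_top
      exact hw
  -- the kernel
  have hker : (P : Subgroup G) ≤ MonoidHom.ker ρ := by
    intro x hx
    rw [MonoidHom.mem_ker]
    ext w
    exact htop w x hx
  obtain ⟨v, hv0, hv⟩ := (mem_Lin_iff ρ _ _).1 h1mem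
  have hH : (Lin ρ (MonoidHom.ker ρ)).Nonempty := by
    refine ⟨1, (mem_Lin_iff ρ _ _).2 ⟨v, hv0, fun x => ?_⟩⟩
    have h2 : ρ (x : G) = 1 := MonoidHom.mem_ker.1 x.2
    rw [h2]
    simp
  have h3 := theoremA (P : Subgroup G) P.isPGroup' ρ hρ (MonoidHom.ker ρ) hH 0 (fun g => by
    have h4 : MulAut.conj g • (MonoidHom.ker ρ) = MonoidHom.ker ρ := 
      Subgroup.Normal.conj_smul_eq_self g _
    rw [h4, Subgroup.relIndex_eq_one.2 ((Subgroup.commutator_le_self _).trans hker), pow_zero]) hne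
  have h5 : padicValNat p (P : Subgroup G).index = 0 :=
    padicValNat.eq_zero_of_not_dvd P.not_dvd_index
  have h6 : 0 < finrank ℂ V := Module.finrank_pos_iff_exists_ne_zero.2 ⟨v, hv0⟩
  have h7 : 1 ≤ padicValNat p (finrank ℂ V) :=
    one_le_padicValNat_of_dvd h6.ne' hd
  rw [h5] at h3
  have h8 : (p - 1) * 1 ≤ (p - 1) * padicValNat p (finrank ℂ V) := Nat.mul_le_mul_left _ h7
  have h9 := hp.two_le
  simp only [add_zero, mul_zero] at h3
  have h10 : (Lin ρ (P : Subgroup G)).ncard ≤ 1 := by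
    rw [← Set.ncard_singleton (1 : (P : Subgroup G) →* ℂˣ)]
    exact Set.ncard_le_ncard (fun μ hμ => hnt μ hμ) (Set.toFinite _)
  omega

private theorem Crit2_conj {G : Type*} [Group G] [Finite G] {V : Type*} [AddCommGroup V] [Module ℂ V]
    [FiniteDimensional ℂ V] (P : Subgroup G) (ρ : Representation ℂ G V)
    {μ : P →* ℂˣ} (hμ : μ ∈ Lin ρ P) :
    {ν : P →* ℂˣ | ∃ g ∈ Subgroup.normalizer (P : Set G),
        ∀ x y : P, (y : G) = g * x * g⁻¹ → ν x = μ y} ⊆ Lin ρ P := by
  rintro ν ⟨g, hg, hν⟩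
  obtain ⟨v, hv0, hv⟩ := (mem_Lin_iff ρ _ μ).1 hμ
  refine (mem_Lin_iff ρ _ ν).2 ⟨ρ g⁻¹ v, fun h => hv0 ?_, fun x => ?_⟩
  · have h1 := congrArg (ρ g) h
    rw [map_zero, ← Module.End.mul_apply, ← map_mul, mul_inv_cancel, map_one] at h1
    exact h1
  · have hy : g * x * g⁻¹ ∈ P := (hg x).1 x.2
    have h1 := hv ⟨g * x * g⁻¹, hy⟩
    rw [hν x ⟨g * x * g⁻¹, hy⟩ rfl, ← map_smul, ← h1, ← Module.End.mul_apply,
      ← Module.End.mul_apply, ← map_mul, ← map_mul]
    congr 2
    group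

theorem crit2 {G : Type*} [Group G] [Finite G] {V : Type*} [AddCommGroup V] [Module ℂ V]
    [FiniteDimensional ℂ V] {p : ℕ} [Fact p.Prime] (P : Sylow p G)
    (hgen : (⨆ Q ∈ {Q : Subgroup G | ⁅(P : Subgroup G), (P : Subgroup G)⁆ ≤ Q ∧
      Q ≤ (P : Subgroup G)}, Subgroup.normalizer (Q : Set G)) = ⊤)
    (Ms : Set (Subgroup G))
    (h1 : ∀ M ∈ Ms, ⁅(P : Subgroup G), (P : Subgroup G)⁆ ≤ M ∧ M ≤ (P : Subgroup G) ∧
      Subgroup.normalizer ((P : Subgroup G) : Set G) ≤ Subgroup.normalizer (M : Set G))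
    (h2 : ∀ μ : (P : Subgroup G) →* ℂˣ, μ ≠ 1 →
      p ≤ 2 * {ν : (P : Subgroup G) →* ℂˣ | ∃ g ∈ Subgroup.normalizer ((P : Subgroup G) : Set G),
        ∀ x y : (P : Subgroup G), (y : G) = g * x * g⁻¹ → ν x = μ y}.ncard ∧
      (p ≤ {ν : (P : Subgroup G) →* ℂˣ | ∃ g ∈ Subgroup.normalizer ((P : Subgroup G) : Set G),
        ∀ x y : (P : Subgroup G), (y : G) = g * x * g⁻¹ → ν x = μ y}.ncard ∨
        ∃ M ∈ Ms, ∀ x : (P : Subgroup G), (x : G) ∈ M → μ x = 1))
    (h3 : ∀ M ∈ Ms, ∃ M' ∈ Ms, ∃ R : Subgroup G, M ⊔ M' = (P : Subgroup G) ∧ R ≤ M ⊓ M' ∧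
      Nat.card M = Nat.card M' ∧ ∀ x ∈ M, ∀ y ∈ M', x ∉ R → y ∉ R →
        ∃ g : G, (∀ r ∈ R, g * r * g⁻¹ ∈ R) ∧ g * x * g⁻¹ * y⁻¹ ∈ R)
    (ρ : Representation ℂ G V) (hρ : ρ.IsIrreducible) (hd : p ∣ finrank ℂ V)
    (hne : (Lin ρ (P : Subgroup G)).Nonempty) : p ≤ (Lin ρ (P : Subgroup G)).ncard := by
  classical
  have : Fintype (P : Subgroup G) := Fintype.ofFinite _
  have : Fintype ((P : Subgroup G) →* ℂˣ) := Fintype.ofFinite _
  obtain ⟨lam, hlam, hlam1⟩ := Crit2_nt P hgen ρ hρ hd hne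
  obtain ⟨ha, hor⟩ := h2 lam hlam1
  have hsub := Crit2_conj (P : Subgroup G) ρ hlam
  rcases hor with hor | ⟨M, hM, hlM⟩
  · exact hor.trans (Set.ncard_le_ncard hsub (Set.toFinite _))
  · obtain ⟨M', hM', R, hMM, hR, hcard, hcon⟩ := h3 M hM
    have : Fintype R := Fintype.ofFinite _
    have hRM : R ≤ M := hR.trans inf_le_left
    have hRM' : R ≤ M' := hR.trans inf_le_right
    obtain ⟨hM1, hM2, hM3⟩ := h1 M hM
    obtain ⟨hM1', hM2', hM3'⟩ := h1 M' hM'
    -- the dimensions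
    have hfin : finrank ℂ (fixSp ρ M) = finrank ℂ (fixSp ρ M') := by
      by_cases hMR : M ≤ R
      · have e1 : M = R := le_antisymm hMR hRM
        have e2 : R = M' := by
          refine Subgroup.eq_of_le_of_card_ge hRM' ?_
          rw [← hcard, e1]
        rw [← e2, e1]
      · obtain ⟨x0, hx0, hx0R⟩ := SetLike.not_le_iff_exists.1 hMR
        have hMR' : ¬ M' ≤ R := by
          intro h
          refine hMR ?_
          have e1 : M' = R := le_antisymm h hRM'
          have e2 : R = M := by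
            refine Subgroup.eq_of_le_of_card_ge hRM ?_
            rw [hcard, e1]
          exact e2.symm.le
        obtain ⟨y0, hy0, hy0R⟩ := SetLike.not_le_iff_exists.1 hMR'
        have key : ∀ x ∈ M, ∀ y ∈ M', x ∉ R → y ∉ R →
            ∑ r : R, ρ.character ((r : G) * x) = ∑ r : R, ρ.character ((r : G) * y) := by
          intro x hx y hy hxR hyR
          obtain ⟨g, hg1, hg2⟩ := hcon x hx y hy hxR hyR
          exact assoc_conj ρ R hg1 hg2
        refine finrank_fixSp_eq ρ hRM hRM' hcard (∑ r : R, ρ.character ((r : G) * y0)) ?_ ?_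
        · exact fun x hx hxR => key x hx y0 hy0 hxR hy0R
        · intro y hy hyR
          rw [← key x0 hx0 y hy hx0R hyR, key x0 hx0 y0 hy0 hx0R hy0R]
    obtain ⟨v, hv0, hv⟩ := (mem_Lin_iff ρ _ lam).1 hlam
    have hvM : v ∈ fixSp ρ M := by
      intro x hx
      have e1 := hv ⟨x, hM2 hx⟩
      rw [hlM ⟨x, hM2 hx⟩ hx, Units.val_one, one_smul] at e1
      exact e1
    have hvP : v ∉ fixSp ρ (P : Subgroup G) := by
      intro h
      refine hlam1 (MonoidHom.ext fun x => ?_)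
      have e1 := hv x
      rw [h x x.2] at e1
      have e2 : ((lam x : ℂˣ) : ℂ) = 1 := by
        have e3 : (((lam x : ℂˣ) : ℂ) - 1) • v = 0 := by rw [sub_smul, one_smul, ← e1, sub_self]
        rcases smul_eq_zero.1 e3 with e4 | e4
        · exact sub_eq_zero.1 e4
        · exact absurd e4 hv0
      exact Units.ext e2
    have hlt : finrank ℂ (fixSp ρ (P : Subgroup G)) < finrank ℂ (fixSp ρ M) := by
      refine Submodule.finrank_lt_finrank_of_lt (lt_of_le_of_ne (fixSp_anti ρ hM2) fun h => ?_)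
      rw [h] at hvP
      exact hvP hvM
    obtain ⟨w, hw, hwP⟩ : ∃ w ∈ fixSp ρ M', w ∉ fixSp ρ (P : Subgroup G) := by
      by_contra h
      push Not at h
      have e1 : fixSp ρ M' ≤ fixSp ρ (P : Subgroup G) := h
      have e2 := Submodule.finrank_mono e1
      omega
    have hsum : ∑ μ : (P : Subgroup G) →* ℂˣ, proj ρ (P : Subgroup G) μ w = w := by
      refine sum_proj_eq ρ _ w fun x hx => hw _ (hM1' ?_)
      have e1 : (commutator (P : Subgroup G)).map (P : Subgroup G).subtype =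
          ⁅(P : Subgroup G), (P : Subgroup G)⁆ := by
        rw [commutator_def, Subgroup.map_commutator, ← MonoidHom.range_eq_map,
          Subgroup.range_subtype]
      rw [← e1]
      exact Subgroup.mem_map_of_mem _ hx
    obtain ⟨nu, hnu1, hnu⟩ : ∃ nu : (P : Subgroup G) →* ℂˣ, nu ≠ 1 ∧
        proj ρ (P : Subgroup G) nu w ≠ 0 := by
      by_contra h
      push Not at h
      rw [Finset.sum_eq_single (1 : (P : Subgroup G) →* ℂˣ) (fun μ _ hμ => h μ hμ)
        (fun h => absurd (Finset.mem_univ _) h)] at hsum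
      refine hwP fun x hx => ?_
      have e1 := rho_proj ρ (P : Subgroup G) 1 w ⟨x, hx⟩
      rw [hsum] at e1
      simpa using e1
    have hnuL : nu ∈ Lin ρ (P : Subgroup G) :=
      (mem_Lin_iff ρ _ nu).2 ⟨_, hnu, rho_proj ρ (P : Subgroup G) nu w⟩
    have hnM : ∀ x : (P : Subgroup G), (x : G) ∈ M' → nu x = 1 := by
      intro x hx
      have e1 := proj_rho ρ (P : Subgroup G) nu w x
      rw [hw x hx] at e1
      have e3 : (((nu x : ℂˣ) : ℂ) - 1) • proj ρ (P : Subgroup G) nu w = 0 := by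
        rw [sub_smul, one_smul, ← e1, sub_self]
      rcases smul_eq_zero.1 e3 with e4 | e4
      · exact Units.ext (sub_eq_zero.1 e4)
      · exact absurd e4 hnu
    have hsub' := Crit2_conj (P : Subgroup G) ρ hnuL
    obtain ⟨hb, -⟩ := h2 nu hnu1
    -- the conjugates
    have htriv : ∀ (N : Subgroup G) (μ κ : (P : Subgroup G) →* ℂˣ),
        Subgroup.normalizer ((P : Subgroup G) : Set G) ≤ Subgroup.normalizer (N : Set G) →
        (∀ x : (P : Subgroup G), (x : G) ∈ N → μ x = 1) →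
        κ ∈ {ν : (P : Subgroup G) →* ℂˣ | ∃ g ∈ Subgroup.normalizer ((P : Subgroup G) : Set G),
          ∀ x y : (P : Subgroup G), (y : G) = g * x * g⁻¹ → ν x = μ y} →
        ∀ x : (P : Subgroup G), (x : G) ∈ N → κ x = 1 := by
      rintro N μ κ hN hμN ⟨g, hg, hκ⟩ x hx
      have hy : g * x * g⁻¹ ∈ (P : Subgroup G) := (hg x).1 x.2
      rw [hκ x ⟨g * x * g⁻¹, hy⟩ rfl]
      exact hμN _ ((hN hg x).1 hx)
    have hdis : Disjoint
        {ν : (P : Subgroup G) →* ℂˣ | ∃ g ∈ Subgroup.normalizer ((P : Subgroup G) : Set G),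
          ∀ x y : (P : Subgroup G), (y : G) = g * x * g⁻¹ → ν x = lam y}
        {ν : (P : Subgroup G) →* ℂˣ | ∃ g ∈ Subgroup.normalizer ((P : Subgroup G) : Set G),
          ∀ x y : (P : Subgroup G), (y : G) = g * x * g⁻¹ → ν x = nu y} := by
      rw [Set.disjoint_left]
      intro κ hκ1 hκ2
      have e1 := htriv M lam κ hM3 hlM hκ1
      have e2 := htriv M' nu κ hM3' hnM hκ2
      have e3 : (P : Subgroup G) ≤ κ.ker.map (P : Subgroup G).subtype := by
        refine hMM.symm.le.trans ?_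
        refine sup_le (fun x hx => ?_) fun x hx => ?_
        · exact ⟨⟨x, hM2 hx⟩, e1 ⟨x, hM2 hx⟩ hx, rfl⟩
        · exact ⟨⟨x, hM2' hx⟩, e2 ⟨x, hM2' hx⟩ hx, rfl⟩
      obtain ⟨g, hg, hκ⟩ := hκ1
      refine hlam1 (MonoidHom.ext fun y => ?_)
      have hx : g⁻¹ * y * g⁻¹⁻¹ ∈ (P : Subgroup G) :=
        ((Subgroup.normalizer ((P : Subgroup G) : Set G)).inv_mem hg y).1 y.2
      have e4 := hκ ⟨_, hx⟩ y (by show (y : G) = g * (g⁻¹ * y * g⁻¹⁻¹) * g⁻¹; group)
      rw [← e4]
      obtain ⟨z, hz, hz'⟩ := e3 hx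
      have e5 : z = ⟨_, hx⟩ := Subtype.ext hz'
      rw [← e5]
      exact hz
    have hun := Set.ncard_le_ncard (Set.union_subset hsub hsub') (Set.toFinite _)
    rw [Set.ncard_union_eq hdis (Set.toFinite _) (Set.toFinite _)] at hun
    omega

end Pool.Agent.H.MP_7d3ffc_al.DC
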