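import Mathlib
import Pool.Agent.H.MP_7d3ffc_al.Lin

/-!
# Module DC/Defs: the upper unitriangular matrices

`UT n F` is the group of the upper unitriangular matrices, `el h a` (`h : i < j`) the matrix with
the entry `a` in position `(i, j)`. Everything is inside `SpecialLinearGroup (Fin n) F`; Mathlib has
`SpecialLinearGroup.transvection`, `diag2n` and `diagonal_transvection_induction'`.
-/

namespace Pool.Agent.H.MP_7d3ffc_al.DC

open Matrix Matrix.SpecialLinearGroup

variable {n : ℕ} {F : Type*} [Field F]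

theorem Defs_mul_diag {g h : Matrix (Fin n) (Fin n) F} (hg : ∀ i j : Fin n, j < i → g i j = 0)
    (hh : ∀ i j : Fin n, j < i → h i j = 0) (i : Fin n) : (g * h) i i = g i i * h i i := by
  rw [Matrix.mul_apply, Finset.sum_eq_single i]
  · intro k _ hk
    rcases lt_or_gt_of_ne hk with h1 | h1
    · rw [hg i k h1, zero_mul]
    · rw [hh k i h1, mul_zero]
  · intro h1
    exact absurd (Finset.mem_univ i) h1

theorem Defs_tri_iff {g : Matrix (Fin n) (Fin n) F} :
    (∀ i j : Fin n, j < i → g i j = 0) ↔ g.BlockTriangular id :=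
  ⟨fun h _ _ hij => h _ _ hij, fun h _ _ hij => h hij⟩

variable (n F) in
/-- The upper unitriangular matrices. -/
def UT : Subgroup (SpecialLinearGroup (Fin n) F) where
  carrier := {g | (∀ i j : Fin n, j < i → g.1 i j = 0) ∧ ∀ i, g.1 i i = 1}
  one_mem' := by
    refine ⟨fun i j h => ?_, fun i => ?_⟩
    · change (1 : Matrix (Fin n) (Fin n) F) i j = 0
      rw [Matrix.one_apply_ne h.ne']
    · change (1 : Matrix (Fin n) (Fin n) F) i i = 1
      rw [Matrix.one_apply_eq]
  mul_mem' := by
    intro g h hg hh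
    refine ⟨?_, fun i => ?_⟩
    · have h1 := Defs_tri_iff.1 hg.1
      have h2 := Defs_tri_iff.1 hh.1
      exact Defs_tri_iff.2 (h1.mul h2)
    · change (g.1 * h.1) i i = 1
      rw [Defs_mul_diag hg.1 hh.1, hg.2, hh.2, one_mul]
  inv_mem' := by
    intro g hg
    have hinv : (g⁻¹).1 = (g.1)⁻¹ := by
      have h1 : g.1 * (g⁻¹).1 = 1 := congrArg Subtype.val (mul_inv_cancel g)
      exact (Matrix.inv_eq_right_inv h1).symm
    have h2 : ∀ i j : Fin n, j < i → (g⁻¹).1 i j = 0 := by
      have : Invertible g.1 := Matrix.invertibleOfIsUnitDet _ (by rw [g.2]; exact isUnit_one)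
      rw [Defs_tri_iff, hinv]
      exact Matrix.blockTriangular_inv_of_blockTriangular (Defs_tri_iff.1 hg.1)
    refine ⟨h2, fun i => ?_⟩
    have h3 : (g.1 * (g⁻¹).1) i i = 1 := by
      have h1 : g.1 * (g⁻¹).1 = 1 := congrArg Subtype.val (mul_inv_cancel g)
      rw [h1, Matrix.one_apply_eq]
    rw [Defs_mul_diag hg.1 h2, hg.2, one_mul] at h3
    exact h3

theorem mem_UT {g : SpecialLinearGroup (Fin n) F} :
    g ∈ UT n F ↔ (∀ i j : Fin n, j < i → g.1 i j = 0) ∧ ∀ i, g.1 i i = 1 := Iff.rfl

theorem el_mem {i j : Fin n} (h : i < j) (a : F) :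
    SpecialLinearGroup.transvection h.ne a ∈ UT n F := by
  rw [mem_UT]
  change (∀ r s : Fin n, s < r → (Matrix.transvection i j a) r s = 0) ∧
    ∀ r, (Matrix.transvection i j a) r r = 1
  constructor
  · intro r s hrs
    rw [Matrix.transvection, Matrix.add_apply, Matrix.one_apply_ne hrs.ne', zero_add]
    by_cases h1 : i = r ∧ j = s
    · rw [← h1.1, ← h1.2] at hrs
      exact absurd h (not_lt.2 hrs.le)
    · rw [Matrix.single_apply_of_ne _ _ _ _ _ h1]
  · intro r
    rw [Matrix.transvection, Matrix.add_apply, Matrix.one_apply_eq,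
      Matrix.single_apply_of_ne _ _ _ _ _ (fun h1 => h.ne (h1.1.trans h1.2.symm)), add_zero]

/-- The elementary matrix with entry `a` in position `(i, j)`. -/
def el {i j : Fin n} (h : i < j) (a : F) : UT n F :=
  ⟨SpecialLinearGroup.transvection h.ne a, el_mem h a⟩

theorem el_val {i j : Fin n} (h : i < j) (a : F) :
    ((el h a : UT n F) : SpecialLinearGroup (Fin n) F).1 = Matrix.transvection i j a := rfl

theorem el_add {i j : Fin n} (h : i < j) (a b : F) : (el h (a + b) : UT n F) = el h a * el h b :=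
  Subtype.ext (SpecialLinearGroup.transvection_add h.ne a b)

theorem el_zero {i j : Fin n} (h : i < j) : (el h 0 : UT n F) = 1 :=
  Subtype.ext (SpecialLinearGroup.transvection_coeff_zero h.ne)

theorem el_inv {i j : Fin n} (h : i < j) (a : F) : (el h a : UT n F)⁻¹ = el h (-a) :=
  Subtype.ext (SpecialLinearGroup.transvection_inv h.ne a)

end Pool.Agent.H.MP_7d3ffc_al.DC
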