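import Pool.Agent.H.MP_7d3ffc_al.DC.Defs

/-!
# Module DC/Sli: the special linear group is generated by transvections

* `diag2n_eq`: `x_ij(c) x_ji(-c⁻¹) x_ij(c) x_ij(-1) x_ji(1) x_ij(-1)` is the diagonal matrix with
  entries `c`, `c⁻¹` in the positions `i`, `j` (Mathlib has it for two rows: `diag2_decompose`).
  Compute the products from the right, row by row (`Matrix.transvection_mul_apply_same`, `_of_ne`;
  rows `i`, `j`, other rows), or show that both sides map the unit vectors to the same vectors.
* `SL_ind`: `diagonal_transvection_induction'` and `diag2n_eq`.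
* `transv_neg`: `w x_ij(a) w⁻¹ = x_ji(-a)` for `w = x_ij(1) x_ji(-1) x_ij(1)`; stated as an
  equation of products.
* `triv_of_UT`: the set of the `g` with `ρ g w = w` for all `w` in `W`; it contains the upper
  transvections, by `transv_neg` also the lower ones: apply `ρ` of both sides to a vector `w` of `W`
  (`W` is stable): with `y = ρ(x_ji(-1)) w`, we get `y = ρ(x_ji(-a)) y`, and `y` is an arbitrary
  element of `W`.
-/

namespace Pool.Agent.H.MP_7d3ffc_al.DC

open Matrix Matrix.SpecialLinearGroup

variable {n : ℕ} {F : Type*} [Field F]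

private theorem Sli_tv (i j : Fin n) (c : F) (v : Fin n → F) (k : Fin n) :
    (Matrix.transvection i j c *ᵥ v) k = v k + if k = i then c * v j else 0 := by
  rw [Matrix.transvection, Matrix.add_mulVec, Matrix.one_mulVec, Pi.add_apply]
  congr 1
  rw [Matrix.mulVec, dotProduct]
  by_cases hk : k = i
  · subst hk
    rw [if_pos rfl, Finset.sum_eq_single j]
    · rw [Matrix.single_apply_same]
    · intro l _ hl
      rw [Matrix.single_apply_of_ne _ _ _ _ _ (fun h => hl h.2.symm), zero_mul]
    · intro h
      exact absurd (Finset.mem_univ j) h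
  · rw [if_neg hk]
    refine Finset.sum_eq_zero fun l _ => ?_
    rw [Matrix.single_apply_of_ne _ _ _ _ _ (fun h => hk h.1.symm), zero_mul]

private theorem Sli_ext {g h : SpecialLinearGroup (Fin n) F}
    (H : ∀ (v : Fin n → F) (k : Fin n), (g.1 *ᵥ v) k = (h.1 *ᵥ v) k) : g = h := by
  refine Subtype.ext (Matrix.toLin'.injective (LinearMap.ext fun v => ?_))
  rw [Matrix.toLin'_apply, Matrix.toLin'_apply]
  exact funext fun k => H v k

private theorem Sli_mul (g g' : SpecialLinearGroup (Fin n) F) (v : Fin n → F) :
    (g * g').1 *ᵥ v = g.1 *ᵥ (g'.1 *ᵥ v) := by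
  rw [Matrix.mulVec_mulVec]
  rfl

theorem diag2n_eq {i j : Fin n} (h : i ≠ j) (c : F) (hc : c ≠ 0) :
    diag2n h c hc = SpecialLinearGroup.transvection h c *
      SpecialLinearGroup.transvection h.symm (-c⁻¹) * SpecialLinearGroup.transvection h c *
      SpecialLinearGroup.transvection h (-1) * SpecialLinearGroup.transvection h.symm 1 *
      SpecialLinearGroup.transvection h (-1) := by
  refine Sli_ext fun v k => ?_
  have h1 : ((SpecialLinearGroup.transvection h c *
      SpecialLinearGroup.transvection h.symm (-c⁻¹) * SpecialLinearGroup.transvection h c *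
      SpecialLinearGroup.transvection h (-1) * SpecialLinearGroup.transvection h.symm 1 *
      SpecialLinearGroup.transvection h (-1) : SpecialLinearGroup (Fin n) F)).1 *ᵥ v =
      Matrix.transvection i j c *ᵥ (Matrix.transvection j i (-c⁻¹) *ᵥ
        (Matrix.transvection i j c *ᵥ (Matrix.transvection i j (-1) *ᵥ
          (Matrix.transvection j i 1 *ᵥ (Matrix.transvection i j (-1) *ᵥ v))))) := by
    rw [Sli_mul, Sli_mul, Sli_mul, Sli_mul, Sli_mul]
    rfl
  rw [h1, diag2n_coe, Matrix.mulVec_diagonal]
  have hji : j ≠ i := h.symm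
  by_cases hki : k = i
  · subst hki
    simp only [Sli_tv, if_neg h, if_neg hji, add_zero, if_true]
    field_simp
    ring
  · by_cases hkj : k = j
    · subst hkj
      simp only [Sli_tv, if_neg h, if_neg hji, add_zero, if_true]
      field_simp
      ring
    · simp only [Sli_tv, if_neg hki, if_neg hkj, add_zero, one_mul]

theorem SL_ind (hn : 2 ≤ n) (P : SpecialLinearGroup (Fin n) F → Prop)
    (ht : ∀ (i j : Fin n) (h : i ≠ j) (a : F), P (SpecialLinearGroup.transvection h a))
    (hm : ∀ g g', P g → P g' → P (g * g')) (g : SpecialLinearGroup (Fin n) F) : P g := by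
  have : Nontrivial (Fin n) := Fin.nontrivial_iff_two_le.2 hn
  refine diagonal_transvection_induction' P g ?_ ht hm
  intro i j hij c hc
  rw [diag2n_eq hij c hc]
  exact hm _ _ (hm _ _ (hm _ _ (hm _ _ (hm _ _ (ht _ _ _ _) (ht _ _ _ _)) (ht _ _ _ _))
    (ht _ _ _ _)) (ht _ _ _ _)) (ht _ _ _ _)

theorem transv_neg {i j : Fin n} (h : i ≠ j) (a : F) :
    SpecialLinearGroup.transvection h 1 * SpecialLinearGroup.transvection h.symm (-1) *
      SpecialLinearGroup.transvection h 1 * SpecialLinearGroup.transvection h a =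
    SpecialLinearGroup.transvection h.symm (-a) * SpecialLinearGroup.transvection h 1 *
      SpecialLinearGroup.transvection h.symm (-1) * SpecialLinearGroup.transvection h 1 := by
  refine Sli_ext fun v k => ?_
  have h1 : ((SpecialLinearGroup.transvection h 1 * SpecialLinearGroup.transvection h.symm (-1) *
      SpecialLinearGroup.transvection h 1 * SpecialLinearGroup.transvection h a :
      SpecialLinearGroup (Fin n) F)).1 *ᵥ v =
      Matrix.transvection i j 1 *ᵥ (Matrix.transvection j i (-1) *ᵥ
        (Matrix.transvection i j 1 *ᵥ (Matrix.transvection i j a *ᵥ v))) := by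
    rw [Sli_mul, Sli_mul, Sli_mul]
    rfl
  have h2 : ((SpecialLinearGroup.transvection h.symm (-a) * SpecialLinearGroup.transvection h 1 *
      SpecialLinearGroup.transvection h.symm (-1) * SpecialLinearGroup.transvection h 1 :
      SpecialLinearGroup (Fin n) F)).1 *ᵥ v =
      Matrix.transvection j i (-a) *ᵥ (Matrix.transvection i j 1 *ᵥ
        (Matrix.transvection j i (-1) *ᵥ (Matrix.transvection i j 1 *ᵥ v))) := by
    rw [Sli_mul, Sli_mul, Sli_mul]
    rfl
  rw [h1, h2]
  have hji : j ≠ i := h.symm
  by_cases hki : k = i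
  · subst hki
    simp only [Sli_tv, if_neg h, if_neg hji, add_zero, if_true]
    ring
  · by_cases hkj : k = j
    · subst hkj
      simp only [Sli_tv, if_neg h, if_neg hji, add_zero, if_true]
      ring
    · simp only [Sli_tv, if_neg hki, if_neg hkj, add_zero]

/-- a subrepresentation on which the unitriangular matrices act trivially is trivial -/
theorem triv_of_UT (hn : 2 ≤ n) {V : Type*} [AddCommGroup V] [Module ℂ V]
    (ρ : Representation ℂ (SpecialLinearGroup (Fin n) F) V) (W : Submodule ℂ V)
    (hW : ∀ g, ∀ w ∈ W, ρ g w ∈ W) (hU : ∀ u ∈ UT n F, ∀ w ∈ W, ρ u w = w) :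
    ∀ g, ∀ w ∈ W, ρ g w = w := by
  have hmul : ∀ (g g' : SpecialLinearGroup (Fin n) F) (w : V), ρ (g * g') w = ρ g (ρ g' w) := by
    intro g g' w
    rw [map_mul]
    rfl
  refine SL_ind hn (fun g => ∀ w ∈ W, ρ g w = w) ?_ ?_
  · intro i j h a y hy
    rcases lt_or_gt_of_ne h with hij | hij
    · exact hU _ (el_mem hij a) y hy
    · have hup : ∀ (b : F), ∀ w ∈ W, ρ (SpecialLinearGroup.transvection h.symm b) w = w :=
        fun b w hw => hU _ (el_mem hij b) w hw
      -- the vector `w` with `ρ (x (-1)) w = y`
      obtain ⟨w, hw, hwy⟩ : ∃ w ∈ W, ρ (SpecialLinearGroup.transvection h (-1)) w = y := by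
        refine ⟨ρ (SpecialLinearGroup.transvection h 1) y, hW _ y hy, ?_⟩
        rw [← hmul, ← SpecialLinearGroup.transvection_add, neg_add_cancel,
          SpecialLinearGroup.transvection_coeff_zero, map_one]
        rfl
      have h1 := congrArg (fun g => ρ g w) (transv_neg h.symm (-a))
      simp only [hmul, neg_neg] at h1
      rw [hup _ w hw, hup _ w hw, hwy, hup _ y hy] at h1
      exact h1.symm
  · intro g g' hg hg' w hw
    rw [hmul, hg' w hw, hg w hw]

end Pool.Agent.H.MP_7d3ffc_al.DC
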