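import Pool.Agent.H.MP_7d3ffc_al.DC.Gen
import Pool.Agent.H.MP_7d3ffc_al.DC.Sli

/-!
# Module DC/Fix: there is a nontrivial linear constituent

Suppose that all elements of `Lin` are `1`. Let `W` be the space of the vectors fixed by `UT`; it is
not `0`, because `1` is in `Lin` (`mem_Lin_iff`). Let `j = i + 1` and let `Q` be the set of the `u` in
`UT` with `u i j = 0` (a subgroup which contains the commutator subgroup of `UT`: the `(i, j)` entry
is additive on `UT`). A vector fixed by `Q` is in `W`: it is fixed by the commutator subgroup, so it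
is the sum of its projections (`sum_proj_eq`), and all the projections except the one for `1`
vanish (`proj_eq_zero_of_notMem`); use `rho_proj` for `1`. The lower transvection
`x = x_ji(a)` normalizes `Q`: `x⁻¹ u x` for `u` in `Q` (entries by
`Matrix.transvection_mul_apply_same` etc.: `x⁻¹ u x` arises from `u` by adding `a` times column `j` to
column `i` and subtracting `a` times row `i` from row `j`; all is unitriangular because
`u i j = 0`). So `ρ x w` is fixed by `Q` for `w` in `W`, so it is in `W`. `W` is also stable under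
`UT` and under all lower transvections: `x_ij(a)`, `i > j`, by induction on `i - j` with `el_comm`
(`a = a * 1`, middle index `j + 1`; the inverses are transvections, too). By `SL_ind` `W` is stable
under everything, by `triv_of_UT` all its elements are fixed by the whole group, so `W = 0` by
`hfix`, a contradiction.
-/

namespace Pool.Agent.H.MP_7d3ffc_al.DC

open Matrix Matrix.SpecialLinearGroup Pool.Agent.H.MP_7d3ffc_al

variable {n : ℕ} {F : Type*} [Field F] [Finite F]

omit [Finite F] in
private theorem Fix_entry {i j : Fin n} (hs : (j : ℕ) = i + 1) (u v : UT n F) :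
    ((u * v : UT n F) : SpecialLinearGroup (Fin n) F).1 i j =
      (u : SpecialLinearGroup (Fin n) F).1 i j + (v : SpecialLinearGroup (Fin n) F).1 i j := by
  have hij : i ≠ j := fun h => by
    rw [h] at hs
    omega
  have h1 : ((u * v : UT n F) : SpecialLinearGroup (Fin n) F).1 =
      (u : SpecialLinearGroup (Fin n) F).1 * (v : SpecialLinearGroup (Fin n) F).1 := rfl
  rw [h1, Matrix.mul_apply, ← Finset.sum_subset (Finset.subset_univ {i, j}),
    Finset.sum_pair hij, (mem_UT.1 u.2).2, (mem_UT.1 v.2).2, one_mul, mul_one, add_comm]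
  intro k _ hk
  rw [Finset.mem_insert, Finset.mem_singleton, not_or] at hk
  rcases lt_or_gt_of_ne hk.1 with h2 | h2
  · rw [(mem_UT.1 u.2).1 i k h2, zero_mul]
  · have h3 : j < k := by
      rw [Fin.lt_def] at h2 ⊢
      have h4 : (k : ℕ) ≠ j := fun h => hk.2 (Fin.ext h)
      omega
    rw [(mem_UT.1 v.2).1 k j h3, mul_zero]

omit [Finite F] in
private theorem Fix_comm {i j : Fin n} (hs : (j : ℕ) = i + 1) (x : UT n F)
    (hx : x ∈ commutator (UT n F)) : (x : SpecialLinearGroup (Fin n) F).1 i j = 0 := by
  have hij : i ≠ j := fun h => by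
    rw [h] at hs
    omega
  let φ : UT n F →* Multiplicative F :=
    { toFun := fun u => Multiplicative.ofAdd ((u : SpecialLinearGroup (Fin n) F).1 i j)
      map_one' := by
        have h1 : ((1 : UT n F) : SpecialLinearGroup (Fin n) F).1 i j = 0 :=
          Matrix.one_apply_ne hij
        rw [h1]
        rfl
      map_mul' := fun u v => by
        rw [Fix_entry hs]
        rfl }
  have h1 : x ∈ φ.ker := Abelianization.commutator_subset_ker φ hx
  exact congrArg Multiplicative.toAdd (MonoidHom.mem_ker.1 h1)

omit [Finite F] in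
/-- the lower transvection normalizes -/
private theorem Fix_conj {i j : Fin n} (hs : (j : ℕ) = i + 1) (hji : j ≠ i) (a : F)
    (u : SpecialLinearGroup (Fin n) F) (hu : u ∈ UT n F) (h0 : u.1 i j = 0) :
    SpecialLinearGroup.transvection hji (-a) * u * SpecialLinearGroup.transvection hji a ∈
      UT n F := by
  have hlt : i < j := by
    rw [Fin.lt_def]
    omega
  have hM : ∀ r s : Fin n, (Matrix.transvection j i (-a) * u.1) r s =
      if r = j then u.1 j s + (-a) * u.1 i s else u.1 r s := by
    intro r s
    by_cases hr : r = j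
    · subst hr
      rw [Matrix.transvection_mul_apply_same, if_pos rfl]
    · rw [Matrix.transvection_mul_apply_of_ne _ _ _ _ hr, if_neg hr]
  have hN : ∀ r s : Fin n, (SpecialLinearGroup.transvection hji (-a) * u *
      SpecialLinearGroup.transvection hji a).1 r s =
      if s = i then (Matrix.transvection j i (-a) * u.1) r i +
        a * (Matrix.transvection j i (-a) * u.1) r j
      else (Matrix.transvection j i (-a) * u.1) r s := by
    intro r s
    show ((Matrix.transvection j i (-a) * u.1) * Matrix.transvection j i a) r s = _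
    by_cases hs' : s = i
    · subst hs'
      rw [Matrix.mul_transvection_apply_same, if_pos rfl]
    · rw [Matrix.mul_transvection_apply_of_ne _ _ _ _ hs', if_neg hs']
  obtain ⟨hu1, hu2⟩ := mem_UT.1 hu
  rw [mem_UT]
  constructor
  · intro r s hsr
    rw [hN, hM, hM, hM]
    by_cases h1 : s = i
    · subst h1
      rw [if_pos rfl]
      by_cases h2 : r = j
      · subst h2
        rw [if_pos rfl, if_pos rfl, hu1 _ _ hlt, hu2, hu2, h0]
        ring
      · have h3 : j < r := by
          rw [Fin.lt_def] at hsr ⊢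
          have h4 : (r : ℕ) ≠ j := fun h => h2 (Fin.ext h)
          omega
        rw [if_neg h2, if_neg h2, hu1 _ _ hsr, hu1 _ _ h3]
        ring
    · rw [if_neg h1]
      by_cases h2 : r = j
      · subst h2
        have h3 : s < i := by
          rw [Fin.lt_def] at hsr ⊢
          have h4 : (s : ℕ) ≠ i := fun h => h1 (Fin.ext h)
          omega
        rw [if_pos rfl, hu1 _ _ hsr, hu1 _ _ h3]
        ring
      · rw [if_neg h2, hu1 _ _ hsr]
  · intro r
    rw [hN, hM, hM, hM]
    by_cases h1 : r = i
    · subst h1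
      rw [if_pos rfl, if_neg hlt.ne, if_neg hlt.ne, hu2, h0]
      ring
    · rw [if_neg h1]
      by_cases h2 : r = j
      · subst h2
        rw [if_pos rfl, hu2, h0]
        ring
      · rw [if_neg h2, hu2]

/-- the vectors fixed by the unitriangular matrices -/
private def Fix_W {V : Type*} [AddCommGroup V] [Module ℂ V]
    (ρ : Representation ℂ (SpecialLinearGroup (Fin n) F) V) : Submodule ℂ V where
  carrier := {v | ∀ u ∈ UT n F, ρ u v = v}
  zero_mem' := fun u _ => map_zero (ρ u)
  add_mem' := by
    intro v w hv hw u hu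
    rw [map_add, hv u hu, hw u hu]
  smul_mem' := by
    intro c v hv u hu
    rw [map_smul, hv u hu]

omit [Finite F] in
private theorem Fix_memW {V : Type*} [AddCommGroup V] [Module ℂ V]
    {ρ : Representation ℂ (SpecialLinearGroup (Fin n) F) V} {v : V} :
    v ∈ Fix_W ρ ↔ ∀ u ∈ UT n F, ρ u v = v := Iff.rfl

/-- a vector fixed by the matrices with entry `0` in position `(i, i + 1)` -/
private theorem Fix_Q {V : Type*} [AddCommGroup V] [Module ℂ V]
    [FiniteDimensional ℂ V] (ρ : Representation ℂ (SpecialLinearGroup (Fin n) F) V)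
    (hall : ∀ lam ∈ Lin ρ (UT n F), lam = 1) {i j : Fin n} (hs : (j : ℕ) = i + 1) (v : V)
    (hv : ∀ u ∈ UT n F, u.1 i j = 0 → ρ u v = v) : v ∈ Fix_W ρ := by
  classical
  have : Finite (SpecialLinearGroup (Fin n) F) := inferInstance
  have : Fintype (UT n F) := Fintype.ofFinite _
  have : Finite (UT n F →* ℂˣ) := inferInstance
  have : Fintype (UT n F →* ℂˣ) := Fintype.ofFinite _
  have h1 := sum_proj_eq ρ (UT n F) v (fun x hx => hv x x.2 (Fix_comm hs x hx))
  rw [Finset.sum_eq_single (1 : UT n F →* ℂˣ)
    (fun μ _ hμ => proj_eq_zero_of_notMem ρ (UT n F) μ (fun h => hμ (hall μ h)) v)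
    (fun h => absurd (Finset.mem_univ _) h)] at h1
  intro u hu
  have h2 := rho_proj ρ (UT n F) 1 v ⟨u, hu⟩
  rw [h1] at h2
  rw [MonoidHom.one_apply, Units.val_one, one_smul] at h2
  exact h2

private theorem Fix_low1 {V : Type*} [AddCommGroup V] [Module ℂ V]
    [FiniteDimensional ℂ V] (ρ : Representation ℂ (SpecialLinearGroup (Fin n) F) V)
    (hall : ∀ lam ∈ Lin ρ (UT n F), lam = 1) {i j : Fin n} (hs : (j : ℕ) = i + 1)
    (hji : j ≠ i) (a : F) (w : V) (hw : w ∈ Fix_W ρ) :
    ρ (SpecialLinearGroup.transvection hji a) w ∈ Fix_W ρ := by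
  refine Fix_Q ρ hall hs _ ?_
  intro u hu h0
  have h1 := hw _ (Fix_conj hs hji a u hu h0)
  have h2 : u * SpecialLinearGroup.transvection hji a =
      SpecialLinearGroup.transvection hji a *
      (SpecialLinearGroup.transvection hji (-a) * u * SpecialLinearGroup.transvection hji a) := by
    rw [← mul_assoc, ← mul_assoc, ← SpecialLinearGroup.transvection_add, add_neg_cancel,
      SpecialLinearGroup.transvection_coeff_zero, one_mul]
  rw [← Module.End.mul_apply, ← map_mul, h2, map_mul, Module.End.mul_apply, h1]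

private theorem Fix_low {V : Type*} [AddCommGroup V] [Module ℂ V]
    [FiniteDimensional ℂ V] (ρ : Representation ℂ (SpecialLinearGroup (Fin n) F) V)
    (hall : ∀ lam ∈ Lin ρ (UT n F), lam = 1) :
    ∀ (d : ℕ) (i j : Fin n) (_ : (j : ℕ) = i + 1 + d) (hji : j ≠ i) (a : F) (w : V),
    w ∈ Fix_W ρ → ρ (SpecialLinearGroup.transvection hji a) w ∈ Fix_W ρ := by
  intro d
  induction d with
  | zero =>
    intro i j hs hji a w hw
    exact Fix_low1 ρ hall (by omega) hji a w hw
  | succ d ih =>
    intro i j hs hji a w hw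
    have hj := j.2
    obtain ⟨k, hk⟩ : ∃ k : Fin n, (k : ℕ) = i + 1 := ⟨⟨(i : ℕ) + 1, by omega⟩, rfl⟩
    have hjk : j ≠ k := fun h => by
      rw [h] at hs
      omega
    have hki : k ≠ i := fun h => by
      rw [h] at hk
      omega
    have h1 := el_comm hjk hki hji a (1 : F)
    rw [mul_one] at h1
    rw [← h1, map_mul, map_mul, map_mul]
    simp only [Module.End.mul_apply]
    exact ih k j (by omega) hjk _ _ (Fix_low1 ρ hall hk hki _ _
      (ih k j (by omega) hjk _ _ (Fix_low1 ρ hall hk hki _ _ hw)))

theorem exists_nontrivial (hn : 2 ≤ n) {V : Type*} [AddCommGroup V] [Module ℂ V]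
    [FiniteDimensional ℂ V] (ρ : Representation ℂ (SpecialLinearGroup (Fin n) F) V)
    (hfix : ∀ v : V, (∀ g, ρ g v = v) → v = 0) (hne : (Lin ρ (UT n F)).Nonempty) :
    ∃ lam ∈ Lin ρ (UT n F), lam ≠ 1 := by
  by_contra hcon
  have hall : ∀ lam ∈ Lin ρ (UT n F), lam = 1 := by
    intro lam hlam
    by_contra h
    exact hcon ⟨lam, hlam, h⟩
  have hstab : ∀ g, ∀ w ∈ Fix_W ρ, ρ g w ∈ Fix_W ρ := by
    refine SL_ind hn (fun g => ∀ w ∈ Fix_W ρ, ρ g w ∈ Fix_W ρ) ?_ ?_
    · intro i j h a w hw
      rcases lt_or_gt_of_ne h with h1 | h1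
      · have h2 := hw _ (el_mem h1 a)
        rw [h2]
        exact hw
      · have h2 : (i : ℕ) = j + 1 + (i - (j + 1)) := by
          rw [Fin.lt_def] at h1
          omega
        exact Fix_low ρ hall _ j i h2 h a w hw
    · intro g g' hg hg' w hw
      rw [map_mul, Module.End.mul_apply]
      exact hg _ (hg' _ hw)
  have htriv := triv_of_UT hn ρ (Fix_W ρ) hstab (fun u hu w hw => hw u hu)
  obtain ⟨lam, hlam⟩ := hne
  obtain ⟨y, hy0, hy⟩ := (mem_Lin_iff ρ (UT n F) lam).1 hlam
  refine hy0 (hfix y (fun g => htriv g y ?_))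
  intro u hu
  have h1 := hy ⟨u, hu⟩
  rw [hall lam hlam, MonoidHom.one_apply, Units.val_one, one_smul] at h1
  exact h1

end Pool.Agent.H.MP_7d3ffc_al.DC
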