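import Pool.Agent.H.MP_7d3ffc_al.DC.Gen
import Pool.Agent.H.MP_7d3ffc_al.DC.Sli
import Pool.Agent.H.MP_7d3ffc_al.DC.Cnt

/-!
# Module DC/FourA: the special linear group of degree 4 over the field with 3 elements, first part

`x_ij(a)` is the transvection. `E = eigSp ρ U lam`, `E' = eigSp ρ U lam⁻¹`, `U = UT 4 F`.
`F = {0, a, -a}` for every `a ≠ 0`, and `lam(x_01(a)) ≠ 1`, `lam(x_23(a)) ≠ 1` for all `a ≠ 0`; these are
primitive third roots of unity.

(1) If `u` in `U` has `u 0 1 = 0`, `u 2 3 = 0`, then `u = x_02(u 0 2) x_03(u 0 3) x_12(u 1 2) x_13(u 1 3)`,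
so `lam u = 1` (`lam_el`, `h12`). Let `v` be fixed by all these `u`. The commutator subgroup of `U`
consists of such `u` (the entries `(0, 1)` and `(2, 3)` are additive), so `v` is the sum of its projections
(`sum_proj_eq`), which are `0` except for `lam`, `lam⁻¹` (`proj_eq_zero_of_notMem`, `hL`): `v = v1 + v2`,
`v1 ∈ E`, `v2 ∈ E'`.

(2) `ρ(x_10(b))` maps `E` to `E`: let `z ∈ E`, `y = ρ(x_10(b)) z`. For `r` as in (1),
`x_10(-b) r x_10(b)` is again as in (1) (`r = 1 + N`, `N` in the upper right block; entries), so `y` is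
fixed by all `r` and `y = y1 + y2` as in (1). `x_23(c)` commutes with `x_10(b)`, so
`ρ(x_23(c)) y = lam(x_23(c)) y`; compare with `lam(x_23(c)) y1 + lam(x_23(c))⁻¹ y2`; for `c ≠ 0`
`lam(x_23(c)) ^ 2 ≠ 1`, so `y2 = 0`. In the same way `ρ(x_32(b))` maps `E` to `E` (commutes with
`x_01(c)`).

(3) `ρ(x_10(b))` is on `E` the scalar `lam(x_01(-b))`, `ρ(x_32(b))` the scalar `lam(x_23(-b))`:
`transv_neg`: `w x_01(a) = x_10(-a) w`, `w = x_01(1) x_10(-1) x_01(1)`; `w` and `w⁻¹` map `E` to `E`.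

`four_scal`: for `i < j` the transvection is in `U` and acts by `lam`; the pairs `(1, 0)`, `(3, 2)` are (3).
-/

namespace Pool.Agent.H.MP_7d3ffc_al.DC

open Matrix Matrix.SpecialLinearGroup Pool.Agent.H.MP_7d3ffc_al Module

variable {F : Type*} [Field F] [Finite F] {V : Type*} [AddCommGroup V] [Module ℂ V]
  [FiniteDimensional ℂ V]

omit [Finite F] in
private theorem FourA_rmul {G : Type*} [Group G] {V : Type*} [AddCommGroup V] [Module ℂ V]
    (ρ : Representation ℂ G V) (g g' : G) (v : V) : ρ (g * g') v = ρ g (ρ g' v) := by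
  rw [map_mul]
  rfl

/-- the entries outside of the upper right block are those of the identity matrix -/
private def FourA_Blk (r : Matrix (Fin 4) (Fin 4) F) : Prop :=
  ∀ k l : Fin 4, ¬ ((k : ℕ) < 2 ∧ 2 ≤ (l : ℕ)) → r k l = (1 : Matrix (Fin 4) (Fin 4) F) k l

private theorem FourA_F3 (hF : Nat.card F = 3) {a : F} (ha : a ≠ 0) (b : F) :
    b = 0 ∨ b = a ∨ b = -a := by
  classical
  have : Fintype F := Fintype.ofFinite F
  have hc : Fintype.card F = 3 := by rw [← Nat.card_eq_fintype_card, hF]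
  have hsq : ∀ x : F, x ≠ 0 → x ^ 2 = 1 := by
    intro x hx
    have h := FiniteField.pow_card_sub_one_eq_one x hx
    rwa [hc] at h
  by_cases hb : b = 0
  · exact Or.inl hb
  · right
    have h1 : b ^ 2 = a ^ 2 := by rw [hsq b hb, hsq a ha]
    exact sq_eq_sq_iff_eq_or_eq_neg.1 h1

private theorem FourA_cube (hF : Nat.card F = 3) (lam : UT 4 F →* ℂˣ) {i j : Fin 4} (h : i < j)
    (a : F) : lam (el h a) ^ 3 = 1 := by
  classical
  have : Fintype F := Fintype.ofFinite F
  have hc : Fintype.card F = 3 := by rw [← Nat.card_eq_fintype_card, hF]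
  have h3 : (3 : F) = 0 := by
    have h := FiniteField.cast_card_eq_zero F
    rw [hc] at h
    exact_mod_cast h
  have h1 : (el h a : UT 4 F) ^ 3 = 1 := by
    rw [pow_succ, pow_two, ← el_add, ← el_add]
    have h2 : a + a + a = 0 := by
      have h4 : a + a + a = 3 * a := by ring
      rw [h4, h3, zero_mul]
    rw [h2, el_zero]
  rw [← map_pow, h1, map_one]

private theorem FourA_sq (hF : Nat.card F = 3) (lam : UT 4 F →* ℂˣ) {i j : Fin 4} (h : i < j)
    (hex : ∃ b : F, lam (el h b) ≠ 1) {a : F} (ha : a ≠ 0) : lam (el h a) ^ 2 ≠ 1 := by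
  intro h2
  have h3 := FourA_cube hF lam h a
  have h1 : lam (el h a) = 1 := by
    rw [pow_succ, h2, one_mul] at h3
    exact h3
  obtain ⟨b, hb⟩ := hex
  rcases FourA_F3 hF ha b with h0 | h0 | h0
  · rw [h0, el_zero, map_one] at hb
    exact hb rfl
  · rw [h0] at hb
    exact hb h1
  · rw [h0, ← el_inv, map_inv, h1, inv_one] at hb
    exact hb rfl

omit [Finite F] in
private theorem FourA_t (i j : Fin 4) (a : F) (k l : Fin 4) :
    Matrix.transvection i j a k l =
      (1 : Matrix (Fin 4) (Fin 4) F) k l + if i = k ∧ j = l then a else 0 := by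
  rw [Matrix.transvection, Matrix.add_apply]
  congr 1

omit [Finite F] in
private theorem FourA_e01 (u v : UT 4 F) :
    ((u * v : UT 4 F) : SpecialLinearGroup (Fin 4) F).1 0 1 =
      (u : SpecialLinearGroup (Fin 4) F).1 0 1 + (v : SpecialLinearGroup (Fin 4) F).1 0 1 := by
  show ((u : SpecialLinearGroup (Fin 4) F).1 * (v : SpecialLinearGroup (Fin 4) F).1) 0 1 = _
  have hu := mem_UT.1 u.2
  have hv := mem_UT.1 v.2
  rw [Matrix.mul_apply, Fin.sum_univ_four, hu.2 0, hv.2 1, hv.1 2 1 (by decide),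
    hv.1 3 1 (by decide)]
  ring

omit [Finite F] in
private theorem FourA_e23 (u v : UT 4 F) :
    ((u * v : UT 4 F) : SpecialLinearGroup (Fin 4) F).1 2 3 =
      (u : SpecialLinearGroup (Fin 4) F).1 2 3 + (v : SpecialLinearGroup (Fin 4) F).1 2 3 := by
  show ((u : SpecialLinearGroup (Fin 4) F).1 * (v : SpecialLinearGroup (Fin 4) F).1) 2 3 = _
  have hu := mem_UT.1 u.2
  have hv := mem_UT.1 v.2
  rw [Matrix.mul_apply, Fin.sum_univ_four, hu.2 2, hv.2 3, hu.1 2 0 (by decide),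
    hu.1 2 1 (by decide)]
  ring

omit [Finite F] in
private theorem FourA_el (lam : UT 4 F →* ℂˣ)
    (h12 : ∀ a : F, lam (el (show (1 : Fin 4) < 2 by decide) a) = 1) {i j : Fin 4} (h : i < j)
    (a : F) : lam (el h a) =
      lam (el (show (0 : Fin 4) < 1 by decide) (Matrix.transvection i j a 0 1)) *
      lam (el (show (2 : Fin 4) < 3 by decide) (Matrix.transvection i j a 2 3)) := by
  rw [FourA_t, FourA_t, Matrix.one_apply_ne (by decide), Matrix.one_apply_ne (by decide),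
    zero_add, zero_add]
  by_cases h1 : i = 0 ∧ j = 1
  · obtain ⟨rfl, rfl⟩ := h1
    rw [if_pos ⟨rfl, rfl⟩, if_neg (by decide), el_zero, map_one, mul_one]
  by_cases h3 : i = 2 ∧ j = 3
  · obtain ⟨rfl, rfl⟩ := h3
    rw [if_neg (by decide), if_pos ⟨rfl, rfl⟩, el_zero, map_one, one_mul]
  rw [if_neg h1, if_neg h3, el_zero, el_zero, map_one, mul_one]
  by_cases h2 : i = 1 ∧ j = 2
  · obtain ⟨rfl, rfl⟩ := h2
    exact h12 a
  · refine lam_el lam h ?_ a
    intro e
    have hj := j.2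
    have h4 : (i : ℕ) = 0 ∨ (i : ℕ) = 1 ∨ (i : ℕ) = 2 := by omega
    rcases h4 with hi | hi | hi
    · exact h1 ⟨Fin.ext hi, Fin.ext (by rw [e, hi]; rfl)⟩
    · exact h2 ⟨Fin.ext hi, Fin.ext (by rw [e, hi]; rfl)⟩
    · exact h3 ⟨Fin.ext hi, Fin.ext (by rw [e, hi]; rfl)⟩

omit [Finite F] in
private theorem FourA_lam (lam : UT 4 F →* ℂˣ)
    (h12 : ∀ a : F, lam (el (show (1 : Fin 4) < 2 by decide) a) = 1) (u : UT 4 F) :
    lam u = lam (el (show (0 : Fin 4) < 1 by decide)
        ((u : SpecialLinearGroup (Fin 4) F).1 0 1)) *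
      lam (el (show (2 : Fin 4) < 3 by decide)
        ((u : SpecialLinearGroup (Fin 4) F).1 2 3)) := by
  refine UT_ind (P := fun u => lam u = lam (el (show (0 : Fin 4) < 1 by decide)
        ((u : SpecialLinearGroup (Fin 4) F).1 0 1)) *
      lam (el (show (2 : Fin 4) < 3 by decide)
        ((u : SpecialLinearGroup (Fin 4) F).1 2 3))) ?_ ?_ u
  · have e1 : ((1 : UT 4 F) : SpecialLinearGroup (Fin 4) F).1 0 1 = 0 :=
      Matrix.one_apply_ne (by decide)
    have e2 : ((1 : UT 4 F) : SpecialLinearGroup (Fin 4) F).1 2 3 = 0 :=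
      Matrix.one_apply_ne (by decide)
    show lam 1 = _
    rw [e1, e2, el_zero, el_zero, map_one, mul_one]
  · intro i j h a u hu
    show lam (el h a * u) = _
    rw [FourA_e01, FourA_e23, el_add, el_add, map_mul, map_mul, map_mul]
    have h1 := FourA_el lam h12 h a
    rw [← el_val h a] at h1
    rw [hu, h1]
    exact mul_mul_mul_comm _ _ _ _

omit [Finite F] in
private theorem FourA_mem {r : SpecialLinearGroup (Fin 4) F} (hr : FourA_Blk r.1) :
    r ∈ UT 4 F := by
  rw [mem_UT]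
  constructor
  · intro i j hij
    have h' : (j : ℕ) < i := hij
    rw [hr i j (by omega), Matrix.one_apply_ne hij.ne']
  · intro i
    rw [hr i i (by omega), Matrix.one_apply_eq]

omit [Finite F] in
private theorem FourA_lam1 (lam : UT 4 F →* ℂˣ)
    (h12 : ∀ a : F, lam (el (show (1 : Fin 4) < 2 by decide) a) = 1) (u : UT 4 F)
    (hu : FourA_Blk (u : SpecialLinearGroup (Fin 4) F).1) : lam u = 1 := by
  have e1 : (u : SpecialLinearGroup (Fin 4) F).1 0 1 = 0 := by
    rw [hu 0 1 (by decide), Matrix.one_apply_ne (by decide)]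
  have e2 : (u : SpecialLinearGroup (Fin 4) F).1 2 3 = 0 := by
    rw [hu 2 3 (by decide), Matrix.one_apply_ne (by decide)]
  rw [FourA_lam lam h12 u, e1, e2, el_zero, el_zero, map_one, mul_one]

omit [Finite F] in
private theorem FourA_comm (x : UT 4 F) (hx : x ∈ commutator (UT 4 F)) :
    FourA_Blk (x : SpecialLinearGroup (Fin 4) F).1 := by
  have e1 : (x : SpecialLinearGroup (Fin 4) F).1 0 1 = 0 := by
    have h1 := Abelianization.commutator_subset_ker (MonoidHom.mk'
      (fun u : UT 4 F => Multiplicative.ofAdd ((u : SpecialLinearGroup (Fin 4) F).1 0 1))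
      (fun u v => by rw [FourA_e01]; rfl)) hx
    exact h1
  have e2 : (x : SpecialLinearGroup (Fin 4) F).1 2 3 = 0 := by
    have h1 := Abelianization.commutator_subset_ker (MonoidHom.mk'
      (fun u : UT 4 F => Multiplicative.ofAdd ((u : SpecialLinearGroup (Fin 4) F).1 2 3))
      (fun u v => by rw [FourA_e23]; rfl)) hx
    exact h1
  intro k l hkl
  rcases lt_trichotomy k l with h | h | h
  · rw [Matrix.one_apply_ne h.ne]
    have h' : (k : ℕ) < l := h
    have hl := l.2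
    have h2 : ((k : ℕ) = 0 ∧ (l : ℕ) = 1) ∨ ((k : ℕ) = 2 ∧ (l : ℕ) = 3) := by omega
    rcases h2 with ⟨h3, h4⟩ | ⟨h3, h4⟩
    · have h5 : k = 0 := Fin.ext h3
      have h6 : l = 1 := Fin.ext h4
      rw [h5, h6]
      exact e1
    · have h5 : k = 2 := Fin.ext h3
      have h6 : l = 3 := Fin.ext h4
      rw [h5, h6]
      exact e2
  · rw [h, Matrix.one_apply_eq]
    exact (mem_UT.1 x.2).2 l
  · rw [Matrix.one_apply_ne h.ne']
    exact (mem_UT.1 x.2).1 k l h

omit [Finite F] in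
/-- conjugation with a transvection in one of the two diagonal blocks -/
private theorem FourA_conj {i j : Fin 4} (h : i ≠ j)
    (hb : ((i : ℕ) < 2 ∧ (j : ℕ) < 2) ∨ (2 ≤ (i : ℕ) ∧ 2 ≤ (j : ℕ))) (b : F)
    (r : SpecialLinearGroup (Fin 4) F) (hr : FourA_Blk r.1) :
    FourA_Blk ((SpecialLinearGroup.transvection h b)⁻¹ * r *
      SpecialLinearGroup.transvection h b).1 := by
  obtain ⟨N, hN⟩ : ∃ N : Matrix (Fin 4) (Fin 4) F, N = r.1 - 1 := ⟨_, rfl⟩
  have hN0 : ∀ k l : Fin 4, ¬ ((k : ℕ) < 2 ∧ 2 ≤ (l : ℕ)) → N k l = 0 := by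
    intro k l hkl
    rw [hN, Matrix.sub_apply, hr k l hkl, sub_self]
  have hr1 : r.1 = 1 + N := by
    rw [hN]
    abel
  have h1 : Matrix.transvection i j (-b) * Matrix.transvection i j b = 1 := by
    rw [Matrix.transvection_mul_transvection_same _ _ h, neg_add_cancel,
      Matrix.transvection_zero]
  have h2 : ((SpecialLinearGroup.transvection h b)⁻¹ * r *
      SpecialLinearGroup.transvection h b).1 =
      1 + Matrix.transvection i j (-b) * N * Matrix.transvection i j b := by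
    rw [SpecialLinearGroup.transvection_inv]
    show Matrix.transvection i j (-b) * r.1 * Matrix.transvection i j b = _
    rw [hr1, mul_add, mul_one, add_mul, h1]
  have h3 : ∀ k l : Fin 4, ¬ ((k : ℕ) < 2 ∧ 2 ≤ (l : ℕ)) →
      (Matrix.transvection i j (-b) * N) k l = 0 := by
    intro k l hkl
    by_cases hk : k = i
    · rw [hk] at hkl ⊢
      rw [Matrix.transvection_mul_apply_same, hN0 i l hkl, hN0 j l (by omega), mul_zero,
        add_zero]
    · rw [Matrix.transvection_mul_apply_of_ne _ _ _ _ hk, hN0 k l hkl]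
  intro k l hkl
  rw [h2, Matrix.add_apply]
  have h4 : (Matrix.transvection i j (-b) * N * Matrix.transvection i j b) k l = 0 := by
    by_cases hl : l = j
    · rw [hl] at hkl ⊢
      rw [Matrix.mul_transvection_apply_same, h3 k j hkl, h3 k i (by omega), mul_zero,
        add_zero]
    · rw [Matrix.mul_transvection_apply_of_ne _ _ _ _ hl, h3 k l hkl]
  rw [h4, add_zero]

omit [Finite F] in
private theorem FourA_ct {i j k l : Fin 4} (h : i ≠ j) (h' : k ≠ l) (hjk : j ≠ k) (hil : i ≠ l)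
    (a b : F) : SpecialLinearGroup.transvection h a * SpecialLinearGroup.transvection h' b =
      SpecialLinearGroup.transvection h' b * SpecialLinearGroup.transvection h a := by
  refine Subtype.ext ?_
  show Matrix.transvection i j a * Matrix.transvection k l b =
    Matrix.transvection k l b * Matrix.transvection i j a
  unfold Matrix.transvection
  simp only [mul_add, add_mul, mul_one, one_mul,
    Matrix.single_mul_single_of_ne _ _ _ _ hjk, Matrix.single_mul_single_of_ne _ _ _ _ hil.symm]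
  abel

private theorem FourA_split (ρ : Representation ℂ (SpecialLinearGroup (Fin 4) F) V)
    (lam : UT 4 F →* ℂˣ) (hL : ∀ mu ∈ Lin ρ (UT 4 F), mu = lam ∨ mu = lam⁻¹)
    (hne : lam ≠ lam⁻¹) (v : V)
    (hv : ∀ r : SpecialLinearGroup (Fin 4) F, FourA_Blk r.1 → ρ r v = v) :
    ∃ v1 v2 : V, v = v1 + v2 ∧ v1 ∈ eigSp ρ (UT 4 F) lam ∧ v2 ∈ eigSp ρ (UT 4 F) lam⁻¹ := by
  classical
  have : Finite (SpecialLinearGroup (Fin 4) F) := inferInstance
  have : Fintype (UT 4 F) := Fintype.ofFinite _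
  have : Finite (UT 4 F →* ℂˣ) := inferInstance
  have : Fintype (UT 4 F →* ℂˣ) := Fintype.ofFinite _
  have h1 := sum_proj_eq ρ (UT 4 F) v (fun x hx => hv x (FourA_comm x hx))
  have h2 : ∑ μ ∈ ({lam, lam⁻¹} : Finset (UT 4 F →* ℂˣ)), proj ρ (UT 4 F) μ v =
      ∑ μ : UT 4 F →* ℂˣ, proj ρ (UT 4 F) μ v := by
    refine Finset.sum_subset (Finset.subset_univ _) fun μ _ hμ => ?_
    refine proj_eq_zero_of_notMem ρ (UT 4 F) μ (fun h => hμ ?_) v
    rw [Finset.mem_insert, Finset.mem_singleton]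
    exact hL μ h
  rw [h1, Finset.sum_pair hne] at h2
  exact ⟨_, _, h2.symm, fun x => rho_proj ρ (UT 4 F) lam v x,
    fun x => rho_proj ρ (UT 4 F) lam⁻¹ v x⟩

private theorem FourA_step (ρ : Representation ℂ (SpecialLinearGroup (Fin 4) F) V)
    (lam : UT 4 F →* ℂˣ) (hL : ∀ mu ∈ Lin ρ (UT 4 F), mu = lam ∨ mu = lam⁻¹)
    (h12 : ∀ a : F, lam (el (show (1 : Fin 4) < 2 by decide) a) = 1)
    (x : SpecialLinearGroup (Fin 4) F)
    (hx : ∀ r : SpecialLinearGroup (Fin 4) F, FourA_Blk r.1 → FourA_Blk (x⁻¹ * r * x).1)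
    (u0 : UT 4 F) (hc : (u0 : SpecialLinearGroup (Fin 4) F) * x = x * u0)
    (hu0 : lam u0 ^ 2 ≠ 1) : ∀ z ∈ eigSp ρ (UT 4 F) lam, ρ x z ∈ eigSp ρ (UT 4 F) lam := by
  intro z hz
  have hne : lam ≠ lam⁻¹ := by
    intro h
    refine hu0 ?_
    have h1 : lam u0 = (lam u0)⁻¹ := by
      conv_lhs => rw [h]
      rfl
    rw [pow_two]
    conv_lhs => rw [h1]
    rw [← h1]
    exact (congrArg (· * lam u0) h1).trans (inv_mul_cancel _)
  obtain ⟨y1, y2, hy, hy1, hy2⟩ := FourA_split ρ lam hL hne (ρ x z) (by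
    intro r hr
    have h1 : r * x = x * (x⁻¹ * r * x) := by group
    rw [← FourA_rmul, h1, FourA_rmul]
    congr 1
    have h2 := hz ⟨_, FourA_mem (hx r hr)⟩
    rw [FourA_lam1 lam h12 _ (hx r hr), Units.val_one, one_smul] at h2
    exact h2)
  have h1 : ρ (u0 : SpecialLinearGroup (Fin 4) F) (ρ x z) = ((lam u0 : ℂˣ) : ℂ) • ρ x z := by
    rw [← FourA_rmul, hc, FourA_rmul, hz u0, map_smul]
  rw [hy, map_add, hy1 u0, hy2 u0, smul_add] at h1
  have h2 : (((lam⁻¹ u0 : ℂˣ) : ℂ) - ((lam u0 : ℂˣ) : ℂ)) • y2 = 0 := by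
    rw [sub_smul, sub_eq_zero]
    exact add_left_cancel h1
  have h3 : (((lam⁻¹ u0 : ℂˣ) : ℂ) - ((lam u0 : ℂˣ) : ℂ)) ≠ 0 := by
    intro h4
    have h5 : lam⁻¹ u0 = lam u0 := Units.ext (sub_eq_zero.1 h4)
    have h6 : (lam u0)⁻¹ = lam u0 := h5
    refine hu0 ?_
    rw [pow_two]
    calc lam u0 * lam u0 = (lam u0)⁻¹ * lam u0 := by rw [h6]
      _ = 1 := inv_mul_cancel _
  rw [hy, (smul_eq_zero.1 h2).resolve_left h3, add_zero]
  exact hy1

omit [FiniteDimensional ℂ V] [Finite F] in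
private theorem FourA_neg (ρ : Representation ℂ (SpecialLinearGroup (Fin 4) F) V)
    (lam : UT 4 F →* ℂˣ) {i j : Fin 4} (h : i < j)
    (hE : ∀ b : F, ∀ z ∈ eigSp ρ (UT 4 F) lam,
      ρ (SpecialLinearGroup.transvection h.ne.symm b) z ∈ eigSp ρ (UT 4 F) lam) (a : F) :
    ∀ z ∈ eigSp ρ (UT 4 F) lam, ρ (SpecialLinearGroup.transvection h.ne.symm (-a)) z =
      ((lam (el h a) : ℂˣ) : ℂ) • z := by
  intro z hz
  have hU : ∀ b : F, ∀ z ∈ eigSp ρ (UT 4 F) lam,
      ρ (SpecialLinearGroup.transvection h.ne b) z = ((lam (el h b) : ℂˣ) : ℂ) • z :=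
    fun b z hz => hz (el h b)
  have hU' : ∀ b : F, ∀ z ∈ eigSp ρ (UT 4 F) lam,
      ρ (SpecialLinearGroup.transvection h.ne b) z ∈ eigSp ρ (UT 4 F) lam := by
    intro b z hz
    rw [hU b z hz]
    exact Submodule.smul_mem _ _ hz
  obtain ⟨w, hw⟩ : ∃ w, w = SpecialLinearGroup.transvection h.ne (1 : F) *
      SpecialLinearGroup.transvection h.ne.symm (-1) * SpecialLinearGroup.transvection h.ne 1 :=
    ⟨_, rfl⟩
  have hw' : w⁻¹ = SpecialLinearGroup.transvection h.ne (-1 : F) *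
      (SpecialLinearGroup.transvection h.ne.symm (- -1) *
        SpecialLinearGroup.transvection h.ne (-1)) := by
    rw [hw, _root_.mul_inv_rev, _root_.mul_inv_rev, SpecialLinearGroup.transvection_inv,
      SpecialLinearGroup.transvection_inv]
  obtain ⟨z', hz', hzz⟩ : ∃ z' ∈ eigSp ρ (UT 4 F) lam, ρ w z' = z := by
    refine ⟨ρ w⁻¹ z, ?_, ?_⟩
    · rw [hw', FourA_rmul, FourA_rmul]
      exact hU' _ _ (hE _ _ (hU' _ _ hz))
    · rw [← FourA_rmul, mul_inv_cancel, map_one]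
      rfl
  have h1 := transv_neg h.ne a
  rw [← hw, mul_assoc, mul_assoc, ← mul_assoc (SpecialLinearGroup.transvection h.ne (1 : F)),
    ← hw] at h1
  rw [← hzz, ← FourA_rmul, ← h1, FourA_rmul, hU a z' hz', map_smul]

theorem four_scal (hF : Nat.card F = 3) (ρ : Representation ℂ (SpecialLinearGroup (Fin 4) F) V)
    (lam : UT 4 F →* ℂˣ)
    (hL : ∀ mu ∈ Lin ρ (UT 4 F), mu = lam ∨ mu = lam⁻¹)
    (h01 : ∃ a : F, lam (el (show (0 : Fin 4) < 1 by decide) a) ≠ 1)
    (h12 : ∀ a : F, lam (el (show (1 : Fin 4) < 2 by decide) a) = 1)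
    (h23 : ∃ a : F, lam (el (show (2 : Fin 4) < 3 by decide) a) ≠ 1)
    (i j : Fin 4) (h : i ≠ j) (hij : (i : ℕ) < 2 ∨ 2 ≤ (j : ℕ)) (a : F) :
    ∃ c : ℂˣ, ∀ z ∈ eigSp ρ (UT 4 F) lam,
      ρ (SpecialLinearGroup.transvection h a) z = (c : ℂ) • z := by
  rcases lt_or_gt_of_ne h with hlt | hgt
  · exact ⟨lam (el hlt a), fun z hz => hz (el hlt a)⟩
  · have h' : (j : ℕ) < i := hgt
    have hi := i.2
    have h2 : ((j : ℕ) = 0 ∧ (i : ℕ) = 1) ∨ ((j : ℕ) = 2 ∧ (i : ℕ) = 3) := by omega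
    have hE : ∀ b : F, ∀ z ∈ eigSp ρ (UT 4 F) lam,
        ρ (SpecialLinearGroup.transvection hgt.ne.symm b) z ∈ eigSp ρ (UT 4 F) lam := by
      intro b
      rcases h2 with ⟨h3, h4⟩ | ⟨h3, h4⟩
      · have h5 : j = 0 := Fin.ext h3
        have h6 : i = 1 := Fin.ext h4
        subst h5 h6
        refine FourA_step ρ lam hL h12 _
          (FourA_conj hgt.ne.symm (Or.inl ⟨by decide, by decide⟩) b)
          (el (show (2 : Fin 4) < 3 by decide) 1) ?_ (FourA_sq hF lam _ h23 one_ne_zero)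
        exact FourA_ct (show (2 : Fin 4) ≠ 3 by decide) hgt.ne.symm (by decide) (by decide) _ _
      · have h5 : j = 2 := Fin.ext h3
        have h6 : i = 3 := Fin.ext h4
        subst h5 h6
        refine FourA_step ρ lam hL h12 _
          (FourA_conj hgt.ne.symm (Or.inr ⟨by decide, by decide⟩) b)
          (el (show (0 : Fin 4) < 1 by decide) 1) ?_ (FourA_sq hF lam _ h01 one_ne_zero)
        exact FourA_ct (show (0 : Fin 4) ≠ 1 by decide) hgt.ne.symm (by decide) (by decide) _ _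
    refine ⟨lam (el hgt (-a)), fun z hz => ?_⟩
    have h3 := FourA_neg ρ lam hgt hE (-a) z hz
    rw [neg_neg] at h3
    exact h3

end Pool.Agent.H.MP_7d3ffc_al.DC
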