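import Pool.Agent.H.MP_7d3ffc_al.DC.Defs

/-!
# Module DC/Kb: double cosets in the special linear group of degree 4 over the field with 3 elements

Write `g` in blocks `A B; C D` of size 2. `M` is a subgroup which contains all transvections `x_ij(a)`
with `i < 2` or `2 ≤ j` (all except those in the block `C`).

`Kb_mem` (any field): `C = 0`, `det A = 1` implies `g ∈ M`. The statement is invariant under
`g ↦ x g` for these transvections `x` (`Matrix.transvection_mul_apply_same`, `_of_ne`: `x_ij(a) g` arises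
by adding `a` times row `j` to row `i`; the product is in `M` iff `g` is). If `g 1 0 = 0` use
`x_10(1)` to get `g 1 0 ≠ 0`. Then `x_01(t)` with `t = (1 - g 0 0) / g 1 0` makes `g 0 0 = 1`,
`x_10(-(g 1 0))` makes `g 1 0 = 0`, then `g 1 1 = 1` by `det A = 1`, and `x_01(-(g 0 1))` makes
`A = 1`. Then `det D = 1` (`det g = det A det D`, e.g. `Matrix.det_succ_row_zero` and `simp`), and the
same four steps with the rows 2 and 3 give `D = 1`. Finally `x_02`, `x_03`, `x_12`, `x_13` make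
`B = 0`, so `g` becomes `1`.

`Kb_dc` (`card F = 3`, so `a ^ 2 = 1` for `a ≠ 0`):
* `C = 0`: `det A = 1` or `det A = -1`. In the first case `g ∈ M`; in the second case `Kt * g` satisfies
  the conditions of `Kb_mem`, and `g = 1 * Kt * (Kt * g)`.
* `det C ≠ 0`: let `u` be the matrix with blocks `1, -(A C⁻¹); 0, 1` (in `M` by `Kb_mem`). Then
  `u * g` has blocks `0, B'; C, D`, so `h = Kw⁻¹ * u * g` (rows of `u * g` in the order 2, 3, 0, 1) has
  blocks `C, D; 0, B'`, and by the first case `h ∈ M` or `h = Kt * h'` with `h' = Kt * h ∈ M`. So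
  `g = u⁻¹ * Kw * h`.
* `C ≠ 0`, `det C = 0`: `C` has rank 1; there are `P`, `Q` in `SL_2` with `P C Q = 0 1; 0 0` (move a nonzero
  entry to the place `(0, 1)` by a row and a column operation, make it `1`, clear). Multiply `g` from
  the left by `1, 0; 0, P` and from the right by `Q, 0; 0, 1` (both in `M`). Now row `2` of `g` is
  `(0, 1, *, *)`, row `3` is `(0, 0, *, *)`, column `0` is `(p, r, 0, 0)`, not `0`. Multiply from the left by
  an element of `SL_2` in the upper block which maps `(p, r)` to `(1, 0)`. Column `0` is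
  now `(1, 0, 0, 0)`. Multiply by `x_12(-(g 1 1))` from the left: row `1` becomes `(0, 0, *, *)`. Then
  `m = Ks⁻¹ * g` (rows: row `0`, row `2`, minus row `1`, row `3` of `g`) has `C = 0` and
  `A = 1 *; 0 1`, so it is in `M`.
It is convenient to use the relation `∃ k ∈ M, ∃ k' ∈ M, g = k * g' * k'` (reflexive, symmetric,
transitive).
-/

namespace Pool.Agent.H.MP_7d3ffc_al.DC

open Matrix Matrix.SpecialLinearGroup

variable {F : Type*} [Field F]

/-- the diagonal matrix with entries `-1, 1, -1, 1` -/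
def Kt : SpecialLinearGroup (Fin 4) F :=
  ⟨!![-1, 0, 0, 0; 0, 1, 0, 0; 0, 0, -1, 0; 0, 0, 0, 1], by
    simp [Matrix.det_succ_row_zero, Fin.sum_univ_succ, Fin.succAbove]⟩

/-- the second basis vector is mapped to the third, the third to minus the second -/
def Ks : SpecialLinearGroup (Fin 4) F :=
  ⟨!![1, 0, 0, 0; 0, 0, -1, 0; 0, 1, 0, 0; 0, 0, 0, 1], by
    simp [Matrix.det_succ_row_zero, Fin.sum_univ_succ, Fin.succAbove]⟩

/-- the permutation matrix which exchanges the two blocks -/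
def Kw : SpecialLinearGroup (Fin 4) F :=
  ⟨!![0, 0, 1, 0; 0, 0, 0, 1; 1, 0, 0, 0; 0, 1, 0, 0], by
    simp [Matrix.det_succ_row_zero, Fin.sum_univ_succ, Fin.succAbove]⟩

/-- the block matrix with the upper left block `a b; c d` -/
def Kb_up (a b c d : F) (h : a * d - b * c = 1) : SpecialLinearGroup (Fin 4) F :=
  ⟨!![a, b, 0, 0; c, d, 0, 0; 0, 0, 1, 0; 0, 0, 0, 1], by
    simp [Matrix.det_succ_row_zero, Fin.sum_univ_succ, Fin.succAbove]
    linear_combination h⟩

/-- the block matrix with the lower right block `a b; c d` -/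
def Kb_lo (a b c d : F) (h : a * d - b * c = 1) : SpecialLinearGroup (Fin 4) F :=
  ⟨!![1, 0, 0, 0; 0, 1, 0, 0; 0, 0, a, b; 0, 0, c, d], by
    simp [Matrix.det_succ_row_zero, Fin.sum_univ_succ, Fin.succAbove]
    linear_combination h⟩

/-- the block matrix with the upper right block `x y; z w` -/
def Kb_un (x y z w : F) : SpecialLinearGroup (Fin 4) F :=
  ⟨!![1, 0, x, y; 0, 1, z, w; 0, 0, 1, 0; 0, 0, 0, 1], by
    simp [Matrix.det_succ_row_zero, Fin.sum_univ_succ, Fin.succAbove]⟩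

theorem Kb_tr (i j : Fin 4) (h : i ≠ j) (a : F) (r s : Fin 4) :
    (SpecialLinearGroup.transvection h a).1 r s
      = (if r = s then 1 else 0) + (if i = r ∧ j = s then a else 0) := by
  change (Matrix.transvection i j a) r s = _
  rw [Matrix.transvection, Matrix.add_apply, Matrix.one_apply, Matrix.single_apply]

theorem Kb_up_mem (M : Subgroup (SpecialLinearGroup (Fin 4) F))
    (hM : ∀ (i j : Fin 4) (h : i ≠ j) (a : F), ((i : ℕ) < 2 ∨ 2 ≤ (j : ℕ)) →
      SpecialLinearGroup.transvection h a ∈ M) (a b c d : F) (h : a * d - b * c = 1) :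
    Kb_up a b c d h ∈ M := by
  have key : ∀ (a b c d : F) (h : a * d - b * c = 1), c ≠ 0 → Kb_up a b c d h ∈ M := by
    intro a b c d h hc
    have e : Kb_up a b c d h =
        SpecialLinearGroup.transvection (show (0 : Fin 4) ≠ 1 by decide) ((a - 1) / c) *
        SpecialLinearGroup.transvection (show (1 : Fin 4) ≠ 0 by decide) c *
        SpecialLinearGroup.transvection (show (0 : Fin 4) ≠ 1 by decide) ((d - 1) / c) := by
      apply Subtype.ext
      ext i j
      fin_cases i <;> fin_cases j <;>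
        simp [Kb_up, Matrix.mul_apply, Matrix.vecMul, dotProduct, Fin.sum_univ_four, Kb_tr] <;> (try field_simp) <;>
        first | ring1 | linear_combination h | linear_combination (-1 : F) * h
    rw [e]
    exact M.mul_mem (M.mul_mem (hM _ _ _ _ (Or.inl (by decide))) (hM _ _ _ _ (Or.inl (by decide))))
      (hM _ _ _ _ (Or.inl (by decide)))
  by_cases hc : c = 0
  · subst hc
    have ha : a ≠ 0 := by
      rintro rfl
      simp at h
    have h' : a * (b + d) - b * a = 1 := by linear_combination h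
    have e : Kb_up a b 0 d h =
        SpecialLinearGroup.transvection (show (1 : Fin 4) ≠ 0 by decide) (-1) *
        Kb_up a b a (b + d) h' := by
      apply Subtype.ext
      ext i j
      fin_cases i <;> fin_cases j <;>
        simp [Kb_up, Matrix.mul_apply, Matrix.vecMul, dotProduct, Fin.sum_univ_four, Kb_tr]
    rw [e]
    exact M.mul_mem (hM _ _ _ _ (Or.inl (by decide))) (key _ _ _ _ _ ha)
  · exact key _ _ _ _ _ hc

theorem Kb_lo_mem (M : Subgroup (SpecialLinearGroup (Fin 4) F))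
    (hM : ∀ (i j : Fin 4) (h : i ≠ j) (a : F), ((i : ℕ) < 2 ∨ 2 ≤ (j : ℕ)) →
      SpecialLinearGroup.transvection h a ∈ M) (a b c d : F) (h : a * d - b * c = 1) :
    Kb_lo a b c d h ∈ M := by
  have key : ∀ (a b c d : F) (h : a * d - b * c = 1), c ≠ 0 → Kb_lo a b c d h ∈ M := by
    intro a b c d h hc
    have e : Kb_lo a b c d h =
        SpecialLinearGroup.transvection (show (2 : Fin 4) ≠ 3 by decide) ((a - 1) / c) *
        SpecialLinearGroup.transvection (show (3 : Fin 4) ≠ 2 by decide) c *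
        SpecialLinearGroup.transvection (show (2 : Fin 4) ≠ 3 by decide) ((d - 1) / c) := by
      apply Subtype.ext
      ext i j
      fin_cases i <;> fin_cases j <;>
        simp [Kb_lo, Matrix.mul_apply, Matrix.vecMul, dotProduct, Fin.sum_univ_four, Kb_tr] <;> (try field_simp) <;>
        first | ring1 | linear_combination h | linear_combination (-1 : F) * h
    rw [e]
    exact M.mul_mem (M.mul_mem (hM _ _ _ _ (Or.inr (by decide))) (hM _ _ _ _ (Or.inr (by decide))))
      (hM _ _ _ _ (Or.inr (by decide)))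
  by_cases hc : c = 0
  · subst hc
    have ha : a ≠ 0 := by
      rintro rfl
      simp at h
    have h' : a * (b + d) - b * a = 1 := by linear_combination h
    have e : Kb_lo a b 0 d h =
        SpecialLinearGroup.transvection (show (3 : Fin 4) ≠ 2 by decide) (-1) *
        Kb_lo a b a (b + d) h' := by
      apply Subtype.ext
      ext i j
      fin_cases i <;> fin_cases j <;>
        simp [Kb_lo, Matrix.mul_apply, Matrix.vecMul, dotProduct, Fin.sum_univ_four, Kb_tr]
    rw [e]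
    exact M.mul_mem (hM _ _ _ _ (Or.inr (by decide))) (key _ _ _ _ _ ha)
  · exact key _ _ _ _ _ hc

theorem Kb_un_mem (M : Subgroup (SpecialLinearGroup (Fin 4) F))
    (hM : ∀ (i j : Fin 4) (h : i ≠ j) (a : F), ((i : ℕ) < 2 ∨ 2 ≤ (j : ℕ)) →
      SpecialLinearGroup.transvection h a ∈ M) (x y z w : F) :
    Kb_un x y z w ∈ M := by
  have e : Kb_un x y z w =
      SpecialLinearGroup.transvection (show (0 : Fin 4) ≠ 2 by decide) x *
      SpecialLinearGroup.transvection (show (0 : Fin 4) ≠ 3 by decide) y *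
      (SpecialLinearGroup.transvection (show (1 : Fin 4) ≠ 2 by decide) z *
      SpecialLinearGroup.transvection (show (1 : Fin 4) ≠ 3 by decide) w) := by
    apply Subtype.ext
    ext i j
    fin_cases i <;> fin_cases j <;>
      simp [Kb_un, Matrix.mul_apply, Matrix.vecMul, dotProduct, Fin.sum_univ_four, Kb_tr]
  rw [e]
  exact M.mul_mem (M.mul_mem (hM _ _ _ _ (Or.inl (by decide))) (hM _ _ _ _ (Or.inl (by decide))))
    (M.mul_mem (hM _ _ _ _ (Or.inl (by decide))) (hM _ _ _ _ (Or.inl (by decide))))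

/-- the determinant if the lower left block is zero -/
theorem Kb_det (g : SpecialLinearGroup (Fin 4) F)
    (h20 : g.1 2 0 = 0) (h21 : g.1 2 1 = 0) (h30 : g.1 3 0 = 0) (h31 : g.1 3 1 = 0) :
    (g.1 0 0 * g.1 1 1 - g.1 0 1 * g.1 1 0) * (g.1 2 2 * g.1 3 3 - g.1 2 3 * g.1 3 2) = 1 := by
  have h := g.2
  rw [Matrix.det_succ_row_zero] at h
  simp [Matrix.det_succ_row_zero, Fin.sum_univ_succ, Fin.succAbove, h20, h21, h30, h31] at h
  linear_combination h

theorem Kb_mem (M : Subgroup (SpecialLinearGroup (Fin 4) F))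
    (hM : ∀ (i j : Fin 4) (h : i ≠ j) (a : F), ((i : ℕ) < 2 ∨ 2 ≤ (j : ℕ)) →
      SpecialLinearGroup.transvection h a ∈ M) (g : SpecialLinearGroup (Fin 4) F)
    (h20 : g.1 2 0 = 0) (h21 : g.1 2 1 = 0) (h30 : g.1 3 0 = 0) (h31 : g.1 3 1 = 0)
    (hA : g.1 0 0 * g.1 1 1 - g.1 0 1 * g.1 1 0 = 1) : g ∈ M := by
  have hD := Kb_det g h20 h21 h30 h31
  rw [hA, one_mul] at hD
  have e : g = Kb_up (g.1 0 0) (g.1 0 1) (g.1 1 0) (g.1 1 1) hA *
      Kb_lo (g.1 2 2) (g.1 2 3) (g.1 3 2) (g.1 3 3) hD *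
      Kb_un (g.1 1 1 * g.1 0 2 - g.1 0 1 * g.1 1 2) (g.1 1 1 * g.1 0 3 - g.1 0 1 * g.1 1 3)
        (g.1 0 0 * g.1 1 2 - g.1 1 0 * g.1 0 2) (g.1 0 0 * g.1 1 3 - g.1 1 0 * g.1 0 3) := by
    apply Subtype.ext
    ext i j
    fin_cases i <;> fin_cases j <;>
      simp [Kb_up, Kb_lo, Kb_un, Matrix.mul_apply, Matrix.vecMul, dotProduct, Fin.sum_univ_four, h20, h21, h30, h31]
    · linear_combination (-g.1 0 2) * hA
    · linear_combination (-g.1 0 3) * hA
    · linear_combination (-g.1 1 2) * hA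
    · linear_combination (-g.1 1 3) * hA
  rw [e]
  exact M.mul_mem (M.mul_mem (Kb_up_mem M hM _ _ _ _ _) (Kb_lo_mem M hM _ _ _ _ _))
    (Kb_un_mem M hM _ _ _ _)

/-- the statement on `g` -/
def Kb_cl (M : Subgroup (SpecialLinearGroup (Fin 4) F)) (g : SpecialLinearGroup (Fin 4) F) : Prop :=
  ∃ k ∈ M, ∃ k' ∈ M, g = k * k' ∨ g = k * Kt * k' ∨ g = k * Ks * k' ∨ g = k * Kw * k' ∨
      g = k * (Kw * Kt) * k'

theorem Kb_rel (M : Subgroup (SpecialLinearGroup (Fin 4) F)) (m m' g : SpecialLinearGroup (Fin 4) F)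
    (hm : m ∈ M) (hm' : m' ∈ M) (h : Kb_cl M (m * g * m')) : Kb_cl M g := by
  obtain ⟨k, hk, k', hk', h⟩ := h
  have e : g = m⁻¹ * (m * g * m') * m'⁻¹ := by group
  refine ⟨m⁻¹ * k, M.mul_mem (M.inv_mem hm) hk, k' * m'⁻¹, M.mul_mem hk' (M.inv_mem hm'), ?_⟩
  rcases h with h | h | h | h | h
  · left
    rw [e, h]
    group
  · right; left
    rw [e, h]
    group
  · right; right; left
    rw [e, h]
    group
  · right; right; right; left
    rw [e, h]
    group
  · right; right; right; right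
    rw [e, h]
    group

theorem Kb_relL (M : Subgroup (SpecialLinearGroup (Fin 4) F)) (m g : SpecialLinearGroup (Fin 4) F)
    (hm : m ∈ M) (h : Kb_cl M (m * g)) : Kb_cl M g := by
  apply Kb_rel M m 1 g hm M.one_mem
  rwa [mul_one]

theorem Kb_sq [Finite F] (hF : Nat.card F = 3) {a b : F} (h : a * b = 1) : a = 1 ∨ a = -1 := by
  have : Fintype F := Fintype.ofFinite F
  have ha : a ≠ 0 := by
    rintro rfl
    simp at h
  have h1 : a ^ (Fintype.card F - 1) = 1 := FiniteField.pow_card_sub_one_eq_one a ha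
  rw [← Nat.card_eq_fintype_card, hF] at h1
  have h2 : (a - 1) * (a + 1) = 0 := by
    have h3 : a ^ 2 = 1 := h1
    linear_combination h3
  rcases mul_eq_zero.1 h2 with h3 | h3
  · exact Or.inl (sub_eq_zero.1 h3)
  · exact Or.inr (eq_neg_of_add_eq_zero_left h3)

theorem Kb_two (M : Subgroup (SpecialLinearGroup (Fin 4) F)) [Finite F] (hF : Nat.card F = 3)
    (hM : ∀ (i j : Fin 4) (h : i ≠ j) (a : F), ((i : ℕ) < 2 ∨ 2 ≤ (j : ℕ)) →
      SpecialLinearGroup.transvection h a ∈ M) (g : SpecialLinearGroup (Fin 4) F)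
    (h20 : g.1 2 0 = 0) (h21 : g.1 2 1 = 0) (h30 : g.1 3 0 = 0) (h31 : g.1 3 1 = 0) :
    g ∈ M ∨ ∃ h ∈ M, g = Kt * h := by
  rcases Kb_sq hF (Kb_det g h20 h21 h30 h31) with h | h
  · left
    exact Kb_mem M hM g h20 h21 h30 h31 h
  · right
    refine ⟨Kt * g, ?_, ?_⟩
    · apply Kb_mem M hM
      · simp [Kt, Matrix.mul_apply, Matrix.vecMul, dotProduct, Fin.sum_univ_four, h20]
      · simp [Kt, Matrix.mul_apply, Matrix.vecMul, dotProduct, Fin.sum_univ_four, h21]
      · simp [Kt, Matrix.mul_apply, Matrix.vecMul, dotProduct, Fin.sum_univ_four, h30]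
      · simp [Kt, Matrix.mul_apply, Matrix.vecMul, dotProduct, Fin.sum_univ_four, h31]
      · simp [Kt, Matrix.mul_apply, Matrix.vecMul, dotProduct, Fin.sum_univ_four]
        linear_combination (-1 : F) * h
    · apply Subtype.ext
      ext i j
      fin_cases i <;> simp [Kt, Matrix.mul_apply, Matrix.vecMul, dotProduct, Fin.sum_univ_four]

theorem Kb_rk (a b c d : F) (h : a * d - b * c = 0) (h0 : a ≠ 0 ∨ b ≠ 0 ∨ c ≠ 0 ∨ d ≠ 0) :
    ∃ v0 v1 w0 w1 : F, a = v0 * w0 ∧ b = v0 * w1 ∧ c = v1 * w0 ∧ d = v1 * w1 ∧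
      (v0 ≠ 0 ∨ v1 ≠ 0) ∧ (w0 ≠ 0 ∨ w1 ≠ 0) := by
  by_cases ha : a = 0
  · subst ha
    by_cases hb : b = 0
    · subst hb
      refine ⟨0, 1, c, d, by simp, by simp, by simp, by simp, by simp, ?_⟩
      simpa using h0
    · have hc : c = 0 := by
        have : b * c = 0 := by linear_combination (-1 : F) * h
        exact (mul_eq_zero.1 this).resolve_left hb
      subst hc
      refine ⟨1, d / b, 0, b, by simp, by simp, by simp, by field_simp, by simp, by simp [hb]⟩
  · refine ⟨1, c / a, a, b, by simp, by simp, by field_simp, ?_, by simp, by simp [ha]⟩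
    field_simp
    linear_combination h

theorem Kb_ex (v0 v1 : F) (h : v0 ≠ 0 ∨ v1 ≠ 0) : ∃ x y : F, x * v0 + y * v1 = 1 := by
  rcases h with h | h
  · exact ⟨v0⁻¹, 0, by simp [h]⟩
  · exact ⟨0, v1⁻¹, by simp [h]⟩

/-- the rank one case in normal form -/
theorem Kb_one (M : Subgroup (SpecialLinearGroup (Fin 4) F))
    (hM : ∀ (i j : Fin 4) (h : i ≠ j) (a : F), ((i : ℕ) < 2 ∨ 2 ≤ (j : ℕ)) →
      SpecialLinearGroup.transvection h a ∈ M) (g : SpecialLinearGroup (Fin 4) F)
    (h20 : g.1 2 0 = 0) (h21 : g.1 2 1 = 1) (h30 : g.1 3 0 = 0) (h31 : g.1 3 1 = 0)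
    (h00 : g.1 0 0 = 1) (h10 : g.1 1 0 = 0) : Kb_cl M g := by
  apply Kb_relL M (Kb_un 0 0 (-(g.1 1 1)) 0) g (Kb_un_mem M hM _ _ _ _)
  refine ⟨1, M.one_mem, Ks⁻¹ * (Kb_un 0 0 (-(g.1 1 1)) 0 * g), ?_, ?_⟩
  · have hs : (Ks⁻¹ : SpecialLinearGroup (Fin 4) F) =
        ⟨!![1, 0, 0, 0; 0, 0, 1, 0; 0, -1, 0, 0; 0, 0, 0, 1], by
          simp [Matrix.det_succ_row_zero, Fin.sum_univ_succ, Fin.succAbove]⟩ := by
      rw [inv_eq_iff_mul_eq_one]
      apply Subtype.ext
      ext i j
      fin_cases i <;> fin_cases j <;> simp [Ks, Matrix.mul_apply, Matrix.vecMul, dotProduct, Fin.sum_univ_four]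
    rw [hs]
    apply Kb_mem M hM
    · simp [Kb_un, Matrix.mul_apply, Matrix.vecMul, dotProduct, Fin.sum_univ_four, h20, h10]
    · simp [Kb_un, Matrix.mul_apply, Matrix.vecMul, dotProduct, Fin.sum_univ_four, h21]
    · simp [Kb_un, Matrix.mul_apply, Matrix.vecMul, dotProduct, Fin.sum_univ_four, h30]
    · simp [Kb_un, Matrix.mul_apply, Matrix.vecMul, dotProduct, Fin.sum_univ_four, h31]
    · simp [Kb_un, Matrix.mul_apply, Matrix.vecMul, dotProduct, Fin.sum_univ_four, h00, h20, h21]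
  · right; right; left
    group

theorem Kb_dc [Finite F] (hF : Nat.card F = 3) (M : Subgroup (SpecialLinearGroup (Fin 4) F))
    (hM : ∀ (i j : Fin 4) (h : i ≠ j) (a : F), ((i : ℕ) < 2 ∨ 2 ≤ (j : ℕ)) →
      SpecialLinearGroup.transvection h a ∈ M) (g : SpecialLinearGroup (Fin 4) F) :
    ∃ k ∈ M, ∃ k' ∈ M, g = k * k' ∨ g = k * Kt * k' ∨ g = k * Ks * k' ∨ g = k * Kw * k' ∨
      g = k * (Kw * Kt) * k' := by
  change Kb_cl M g
  by_cases hdet : g.1 2 0 * g.1 3 1 - g.1 2 1 * g.1 3 0 = 0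
  · by_cases h0 : g.1 2 0 ≠ 0 ∨ g.1 2 1 ≠ 0 ∨ g.1 3 0 ≠ 0 ∨ g.1 3 1 ≠ 0
    · -- rank one
      obtain ⟨v0, v1, w0, w1, e20, e21, e30, e31, hv, hw⟩ := Kb_rk _ _ _ _ hdet h0
      obtain ⟨x, y, hxy⟩ := Kb_ex v0 v1 hv
      obtain ⟨z, w, hzw⟩ := Kb_ex w0 w1 hw
      -- first the block `C`
      have hP : x * v0 - y * (-v1) = 1 := by linear_combination hxy
      have hQ : w1 * w - z * (-w0) = 1 := by linear_combination hzw
      apply Kb_rel M (Kb_lo x y (-v1) v0 hP) (Kb_up w1 z (-w0) w hQ) g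
        (Kb_lo_mem M hM _ _ _ _ _) (Kb_up_mem M hM _ _ _ _ _)
      set g' := Kb_lo x y (-v1) v0 hP * g * Kb_up w1 z (-w0) w hQ with hg'
      have k20 : g'.1 2 0 = 0 := by
        simp [hg', Kb_lo, Kb_up, Matrix.mul_apply, Matrix.vecMul, dotProduct, Fin.sum_univ_four, e20, e21, e30, e31]
        ring
      have k21 : g'.1 2 1 = 1 := by
        simp [hg', Kb_lo, Kb_up, Matrix.mul_apply, Matrix.vecMul, dotProduct, Fin.sum_univ_four, e20, e21, e30, e31]
        linear_combination (z * w0 + w * w1) * hxy + hzw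
      have k30 : g'.1 3 0 = 0 := by
        simp [hg', Kb_lo, Kb_up, Matrix.mul_apply, Matrix.vecMul, dotProduct, Fin.sum_univ_four, e20, e21, e30, e31]
        ring
      have k31 : g'.1 3 1 = 0 := by
        simp [hg', Kb_lo, Kb_up, Matrix.mul_apply, Matrix.vecMul, dotProduct, Fin.sum_univ_four, e20, e21, e30, e31]
        ring
      clear_value g'
      have hcol : g'.1 0 0 ≠ 0 ∨ g'.1 1 0 ≠ 0 := by
        by_contra hcon
        push_neg at hcon
        have hd := g'.2
        rw [Matrix.det_eq_zero_of_column_eq_zero 0] at hd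
        · exact zero_ne_one hd
        · intro i
          fin_cases i
          · exact hcon.1
          · exact hcon.2
          · exact k20
          · exact k30
      obtain ⟨x', y', hxy'⟩ := Kb_ex _ _ hcol
      have hP' : x' * g'.1 0 0 - y' * (-(g'.1 1 0)) = 1 := by linear_combination hxy'
      apply Kb_relL M (Kb_up x' y' (-(g'.1 1 0)) (g'.1 0 0) hP') g' (Kb_up_mem M hM _ _ _ _ _)
      apply Kb_one M hM
      · simp [Kb_up, Matrix.mul_apply, Matrix.vecMul, dotProduct, Fin.sum_univ_four, k20]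
      · simp [Kb_up, Matrix.mul_apply, Matrix.vecMul, dotProduct, Fin.sum_univ_four, k21]
      · simp [Kb_up, Matrix.mul_apply, Matrix.vecMul, dotProduct, Fin.sum_univ_four, k30]
      · simp [Kb_up, Matrix.mul_apply, Matrix.vecMul, dotProduct, Fin.sum_univ_four, k31]
      · simp [Kb_up, Matrix.mul_apply, Matrix.vecMul, dotProduct, Fin.sum_univ_four]
        linear_combination hxy'
      · simp [Kb_up, Matrix.mul_apply, Matrix.vecMul, dotProduct, Fin.sum_univ_four]
        ring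
    · push_neg at h0
      obtain ⟨h20, h21, h30, h31⟩ := h0
      rcases Kb_two M hF hM g h20 h21 h30 h31 with h | ⟨h, hh, e⟩
      · exact ⟨g, h, 1, M.one_mem, Or.inl (by rw [mul_one])⟩
      · exact ⟨1, M.one_mem, h, hh, Or.inr (Or.inl (by rw [one_mul, e]))⟩
  · -- invertible block
    set δ := g.1 2 0 * g.1 3 1 - g.1 2 1 * g.1 3 0 with hδ
    -- the entries of `- A C⁻¹`
    set X00 := -(g.1 0 0 * g.1 3 1 - g.1 0 1 * g.1 3 0) / δ with hX00
    set X01 := -(g.1 0 1 * g.1 2 0 - g.1 0 0 * g.1 2 1) / δ with hX01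
    set X10 := -(g.1 1 0 * g.1 3 1 - g.1 1 1 * g.1 3 0) / δ with hX10
    set X11 := -(g.1 1 1 * g.1 2 0 - g.1 1 0 * g.1 2 1) / δ with hX11
    have hu := Kb_un_mem M hM X00 X01 X10 X11
    have hw : (Kw : SpecialLinearGroup (Fin 4) F) * Kw = 1 := by
      apply Subtype.ext
      ext i j
      fin_cases i <;> fin_cases j <;> simp [Kw, Matrix.mul_apply, Matrix.vecMul, dotProduct, Fin.sum_univ_four]
    have hb : ∀ h : SpecialLinearGroup (Fin 4) F,
        h = Kw * (Kb_un X00 X01 X10 X11 * g) → h ∈ M ∨ ∃ h' ∈ M, h = Kt * h' := by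
      intro h e
      apply Kb_two M hF hM h
      · rw [e]
        simp [Kb_un, Kw, Matrix.mul_apply, Matrix.vecMul, dotProduct, Fin.sum_univ_four, hX00, hX01]
        field_simp
        rw [hδ]
        ring
      · rw [e]
        simp [Kb_un, Kw, Matrix.mul_apply, Matrix.vecMul, dotProduct, Fin.sum_univ_four, hX00, hX01]
        field_simp
        rw [hδ]
        ring
      · rw [e]
        simp [Kb_un, Kw, Matrix.mul_apply, Matrix.vecMul, dotProduct, Fin.sum_univ_four, hX10, hX11]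
        field_simp
        rw [hδ]
        ring
      · rw [e]
        simp [Kb_un, Kw, Matrix.mul_apply, Matrix.vecMul, dotProduct, Fin.sum_univ_four, hX10, hX11]
        field_simp
        rw [hδ]
        ring
    have e1 : g = (Kb_un X00 X01 X10 X11)⁻¹ * Kw * (Kw * (Kb_un X00 X01 X10 X11 * g)) := by
      have : (Kb_un X00 X01 X10 X11)⁻¹ * Kw * (Kw * (Kb_un X00 X01 X10 X11 * g)) =
          (Kb_un X00 X01 X10 X11)⁻¹ * (Kw * Kw) * (Kb_un X00 X01 X10 X11 * g) := by group
      rw [this, hw]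
      group
    rcases hb _ rfl with h | ⟨h', hh', e'⟩
    · exact ⟨_, M.inv_mem hu, _, h, Or.inr (Or.inr (Or.inr (Or.inl e1)))⟩
    · refine ⟨_, M.inv_mem hu, h', hh', Or.inr (Or.inr (Or.inr (Or.inr ?_)))⟩
      rw [e'] at e1
      rw [e1]
      group

end Pool.Agent.H.MP_7d3ffc_al.DC
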