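import Pool.Agent.H.MP_7d3ffc_al.DC.Defs

/-!
# Module DC/Syl: the unitriangular matrices are a Sylow subgroup

`card UT = q ^ (n (n - 1) / 2)` with `q = card F = p ^ f`: a matrix in `UT` is given by its entries
above the diagonal, which are arbitrary (the determinant is `1`,
`Matrix.det_of_upperTriangular`). So `UT` is a `p`-group. The highest power of `p` dividing
`card (GL (Fin n) F) = ∏_{i < n} (q ^ n - q ^ i)` (`Matrix.card_GL_field`) is
`∏_{i < n} q ^ i = q ^ (n (n - 1) / 2)`, since `q ^ n - q ^ i = q ^ i (q ^ (n - i) - 1)` and `p` does not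
divide `q ^ (n - i) - 1`. `card SL` divides `card GL` (`Matrix.SpecialLinearGroup.toGL` is injective), so
`card SL = card UT * index` is not divisible by `p * card UT`, and `p` does not divide the index.
-/

namespace Pool.Agent.H.MP_7d3ffc_al.DC

open Matrix Matrix.SpecialLinearGroup

variable {n : ℕ} {F : Type*} [Field F] [Finite F]

/-- the matrix with given entries above the diagonal -/
private def Syl_mat (f : (Σ j : Fin n, Fin j.val) → F) : Matrix (Fin n) (Fin n) F :=
  fun i j => if h : i < j then f ⟨j, ⟨i.val, h⟩⟩ else if i = j then 1 else 0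

private theorem Syl_mat_lt (f : (Σ j : Fin n, Fin j.val) → F) {i j : Fin n} (h : i < j) :
    Syl_mat f i j = f ⟨j, ⟨i.val, h⟩⟩ := by
  unfold Syl_mat
  rw [dif_pos h]

private theorem Syl_mat_gt (f : (Σ j : Fin n, Fin j.val) → F) {i j : Fin n} (h : j < i) :
    Syl_mat f i j = 0 := by
  unfold Syl_mat
  rw [dif_neg (not_lt.2 h.le), if_neg h.ne']

private theorem Syl_mat_diag (f : (Σ j : Fin n, Fin j.val) → F) (i : Fin n) :
    Syl_mat f i i = 1 := by
  unfold Syl_mat
  rw [dif_neg (lt_irrefl i), if_pos rfl]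

private theorem Syl_det (f : (Σ j : Fin n, Fin j.val) → F) : (Syl_mat f).det = 1 := by
  have h : (Syl_mat f).BlockTriangular id := fun i j h => Syl_mat_gt f h
  rw [Matrix.det_of_isUpperTriangular h]
  exact Finset.prod_eq_one fun i _ => Syl_mat_diag f i

private noncomputable def Syl_equiv : UT n F ≃ ((Σ j : Fin n, Fin j.val) → F) where
  toFun g := fun x => g.1.1 ⟨x.2.val, x.2.2.trans x.1.2⟩ x.1
  invFun f := ⟨⟨Syl_mat f, Syl_det f⟩, fun _ _ h => Syl_mat_gt f h, fun i => Syl_mat_diag f i⟩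
  left_inv g := by
    apply Subtype.ext
    apply Subtype.ext
    funext i j
    change Syl_mat (fun x : (Σ j : Fin n, Fin j.val) =>
      g.1.1 ⟨x.2.val, x.2.2.trans x.1.2⟩ x.1) i j = g.1.1 i j
    rcases lt_trichotomy i j with h | h | h
    · rw [Syl_mat_lt _ h]
    · rw [h, Syl_mat_diag, (mem_UT.1 g.2).2 j]
    · rw [Syl_mat_gt _ h, (mem_UT.1 g.2).1 i j h]
  right_inv f := by
    funext x
    obtain ⟨j, i⟩ := x
    exact Syl_mat_lt f (i := ⟨i.val, i.2.trans j.2⟩) (j := j) i.2

private theorem Syl_card : Nat.card (Σ j : Fin n, Fin j.val) = n * (n - 1) / 2 := by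
  rw [Nat.card_eq_fintype_card, Fintype.card_sigma]
  simp only [Fintype.card_fin]
  rw [Fin.sum_univ_eq_sum_range (fun i => i) n, Finset.sum_range_id]

theorem card_UT : Nat.card (UT n F) = Nat.card F ^ (n * (n - 1) / 2) := by
  rw [Nat.card_congr Syl_equiv, Nat.card_fun, Syl_card]

private theorem Syl_field {p : ℕ} [Fact p.Prime] [CharP F p] :
    ∃ f : ℕ, 0 < f ∧ Nat.card F = p ^ f := by
  have : Fintype F := Fintype.ofFinite F
  obtain ⟨f, -, hf⟩ := FiniteField.card F p
  exact ⟨f, f.2, by rw [Nat.card_eq_fintype_card, hf]⟩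

theorem UT_pgroup {p : ℕ} [Fact p.Prime] [CharP F p] : IsPGroup p (UT n F) := by
  obtain ⟨f, -, hf⟩ := Syl_field (F := F) (p := p)
  apply IsPGroup.of_card (n := f * (n * (n - 1) / 2))
  rw [card_UT, hf, pow_mul]

theorem UT_index {p : ℕ} [Fact p.Prime] [CharP F p] : ¬ p ∣ (UT n F).index := by
  have : Fintype F := Fintype.ofFinite F
  obtain ⟨f, hf0, hf⟩ := Syl_field (F := F) (p := p)
  have hp : p.Prime := Fact.out
  obtain ⟨q, hq⟩ : ∃ q, q = Nat.card F := ⟨_, rfl⟩
  have hpq : p ∣ q := by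
    rw [hq, hf]
    exact dvd_pow_self p hf0.ne'
  have hq0 : 0 < q := by
    rw [hq, hf]
    exact pow_pos hp.pos f
  have h1 : Nat.card (UT n F) * (UT n F).index = Nat.card (SpecialLinearGroup (Fin n) F) :=
    Subgroup.card_mul_index _
  have h2 : Nat.card (SpecialLinearGroup (Fin n) F) ∣ Nat.card (GL (Fin n) F) :=
    Subgroup.card_dvd_of_injective (Matrix.SpecialLinearGroup.toGL (n := Fin n) (R := F))
      Matrix.SpecialLinearGroup.toGL_injective
  have h3 : Nat.card (GL (Fin n) F) = q ^ (n * (n - 1) / 2) * ∏ i : Fin n, (q ^ (n - i.val) - 1) := by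
    rw [Matrix.card_GL_field, ← Nat.card_eq_fintype_card, ← hq, ← Finset.sum_range_id,
      ← Fin.sum_univ_eq_sum_range (fun i => i) n, ← Finset.prod_pow_eq_pow_sum,
      ← Finset.prod_mul_distrib]
    refine Finset.prod_congr rfl fun i _ => ?_
    rw [Nat.mul_sub, mul_one, ← pow_add]
    congr 2
    have := i.2
    omega
  rw [← h1, h3, card_UT, ← hq] at h2
  have h4 : (UT n F).index ∣ ∏ i : Fin n, (q ^ (n - i.val) - 1) :=
    Nat.dvd_of_mul_dvd_mul_left (pow_pos hq0 _) h2
  intro h5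
  have h6 := h5.trans h4
  rw [Prime.dvd_finsetProd_iff hp.prime] at h6
  obtain ⟨i, -, hi⟩ := h6
  have h7 : p ∣ q ^ (n - i.val) := by
    have := i.2
    exact hpq.trans (dvd_pow_self q (by omega))
  have h8 : 1 ≤ q ^ (n - i.val) := Nat.one_le_pow _ _ hq0
  have h9 : p ∣ 1 := by
    have h10 := Nat.dvd_sub h7 hi
    rwa [Nat.sub_sub_self h8] at h10
  exact hp.one_lt.ne' (Nat.dvd_one.1 h9)

end Pool.Agent.H.MP_7d3ffc_al.DC
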