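import Pool.Agent.H.MP_7d3ffc_al.DC.FourA
import Pool.Agent.H.MP_7d3ffc_al.DC.Kb
import Pool.Agent.H.MP_7d3ffc_al.DC.Syl

/-!
# Module DC/FourB: the special linear group of degree 4 over the field with 3 elements, second part

`x_ij(a)` is the transvection. `E = eigSp ρ U lam`, `U = UT 4 F`. `F = {0, a, -a}` for every `a ≠ 0`, and
`lam(x_01(a)) ≠ 1`, `lam(x_23(a)) ≠ 1` for all `a ≠ 0`; these are primitive third roots of unity.

(4) Let `M` be the subgroup of the `g` which act on `E` as a scalar (`≠ 0`). It contains `U` and all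
transvections `x_ij(a)` with `i < 2` or `2 ≤ j` (`four_scal`). Choose `z0 ≠ 0` in `E`; the scalars define
`Lam : M →* ℂˣ` with `ρ k z = Lam k z` for `z` in `E`, and `E = eigSp ρ M Lam`. Let `e = proj ρ M Lam`
(module Lin): `e (ρ k y) = Lam k e y` (`proj_rho`), `e y ∈ E` (`rho_proj`), `e z = z` for `z` in `E`
(`proj_eq_self`).

(5) For `z` in `E`: `e ρ(Kt) z = 0` because `Kt x_01(a) = x_01(-a) Kt`, so
`lam(x_01(a)) e ρ(Kt) z = lam(x_01(-a)) e ρ(Kt) z`. `e ρ(Ks) z = 0` because `Ks x_02(a) = x_01(-a) Ks` and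
`x_02(a)` fixes `z`. `Kw x_01(a) = x_23(a) Kw` gives `lam(x_01(a)) e ρ(Kw) z = lam(x_23(a)) e ρ(Kw) z`,
`Kw Kt x_01(a) = x_23(-a) Kw Kt` gives the same with `lam(x_23(-a))`. As `lam(x_23(1))` is
`lam(x_01(1))` or `lam(x_01(1))⁻¹`, either `e ρ(Kw) z = 0` for all `z` in `E`, or
`e ρ(Kw Kt) z = 0` for all `z` in `E`. (All identities of matrices: `ext i j; fin_cases i <;> fin_cases j`
and `simp`.)

(6) The map `z ↦ e ρ(Kw) z + e ρ(Kw Kt) z` of `E` has an eigenvector `z ≠ 0`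
(`Module.End.exists_eigenvalue`). By (5) and `Kb_dc`, `e ρ(g) z` is a multiple of `z` for all `g`. By
`schur_rank_one` with a functional `ξ`, `ξ z = 1`, and `w = z`: `c y = ∑ ξ(ρ g⁻¹ y) ρ g z`, `c ≠ 0`; for
`y` in `E` apply `e`: `y` is a multiple of `z`. So `finrank E = 1` (`four_one`).

`four`: `four_one` for `lam` and for `lam⁻¹` and `cnt` (all other eigenspaces are `0`, `lam ≠ lam⁻¹`):
`finrank ℂ V` is congruent to `2` modulo `3`; `U` is a `3`-group: `UT_pgroup` (module Syl); `CharP F 3` follows from `Nat.card F = 3`.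
-/

namespace Pool.Agent.H.MP_7d3ffc_al.DC

open Matrix Matrix.SpecialLinearGroup Pool.Agent.H.MP_7d3ffc_al Module

section FourBAux

variable {F : Type*} [Field F]

theorem FourB_tv01 (h : (0 : Fin 4) ≠ 1) (a : F) :
    (SpecialLinearGroup.transvection h a).1 = !![1, a, 0, 0; 0, 1, 0, 0; 0, 0, 1, 0; 0, 0, 0, 1] := by
  change Matrix.transvection (0 : Fin 4) 1 a = _
  ext i j
  fin_cases i <;> fin_cases j <;> simp [Matrix.transvection, Matrix.single]

theorem FourB_tv02 (h : (0 : Fin 4) ≠ 2) (a : F) :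
    (SpecialLinearGroup.transvection h a).1 = !![1, 0, a, 0; 0, 1, 0, 0; 0, 0, 1, 0; 0, 0, 0, 1] := by
  change Matrix.transvection (0 : Fin 4) 2 a = _
  ext i j
  fin_cases i <;> fin_cases j <;> simp [Matrix.transvection, Matrix.single]

theorem FourB_tv23 (h : (2 : Fin 4) ≠ 3) (a : F) :
    (SpecialLinearGroup.transvection h a).1 = !![1, 0, 0, 0; 0, 1, 0, 0; 0, 0, 1, a; 0, 0, 0, 1] := by
  change Matrix.transvection (2 : Fin 4) 3 a = _
  ext i j
  fin_cases i <;> fin_cases j <;> simp [Matrix.transvection, Matrix.single]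

theorem FourB_Kt (h : (0 : Fin 4) ≠ 1) (a : F) :
    Kt * SpecialLinearGroup.transvection h a = SpecialLinearGroup.transvection h (-a) * Kt := by
  apply Subtype.ext
  change Kt.1 * (SpecialLinearGroup.transvection h a).1 =
    (SpecialLinearGroup.transvection h (-a)).1 * Kt.1
  rw [FourB_tv01, FourB_tv01]
  ext i j
  fin_cases i <;> fin_cases j <;> simp [Kt]

theorem FourB_Ks (h : (0 : Fin 4) ≠ 1) (h' : (0 : Fin 4) ≠ 2) (a : F) :
    Ks * SpecialLinearGroup.transvection h' a = SpecialLinearGroup.transvection h (-a) * Ks := by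
  apply Subtype.ext
  change Ks.1 * (SpecialLinearGroup.transvection h' a).1 =
    (SpecialLinearGroup.transvection h (-a)).1 * Ks.1
  rw [FourB_tv01, FourB_tv02]
  ext i j
  fin_cases i <;> fin_cases j <;> simp [Ks]

theorem FourB_Kw (h : (0 : Fin 4) ≠ 1) (h' : (2 : Fin 4) ≠ 3) (a : F) :
    Kw * SpecialLinearGroup.transvection h a = SpecialLinearGroup.transvection h' a * Kw := by
  apply Subtype.ext
  change Kw.1 * (SpecialLinearGroup.transvection h a).1 =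
    (SpecialLinearGroup.transvection h' a).1 * Kw.1
  rw [FourB_tv01, FourB_tv23]
  ext i j
  fin_cases i <;> fin_cases j <;> simp [Kw]

theorem FourB_inv {α : ℂˣ} (ha : α ^ 3 = 1) (ha1 : α ≠ 1) : α ≠ α⁻¹ := by
  intro h
  apply ha1
  have h1 : α * α = 1 := by
    nth_rw 2 [h]
    exact mul_inv_cancel α
  rw [← ha, pow_succ, pow_two, h1, one_mul]

end FourBAux

variable {F : Type*} [Field F] [Finite F] {V : Type*} [AddCommGroup V] [Module ℂ V]
  [FiniteDimensional ℂ V]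

theorem FourB_cube (hF : Nat.card F = 3) (lam : UT 4 F →* ℂˣ) {i j : Fin 4} (h : i < j)
    (hne : ∃ a : F, lam (el h a) ≠ 1) :
    lam (el h 1) ^ 3 = 1 ∧ lam (el h 1) ≠ 1 := by
  have hFt : Fintype F := Fintype.ofFinite F
  have hc : Fintype.card F = 3 := by rw [← Nat.card_eq_fintype_card, hF]
  have h3 : (1 : F) + 1 + 1 = 0 := by
    have h4 : ((Fintype.card F : ℕ) : F) = 0 := FiniteField.cast_card_eq_zero F
    rw [hc] at h4
    rw [← h4]
    push_cast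
    ring
  refine ⟨?_, ?_⟩
  · rw [← map_pow]
    have h4 : (el h 1 : UT 4 F) ^ 3 = 1 := by
      rw [← el_zero h, ← h3, el_add, el_add, pow_succ, pow_two]
    rw [h4, map_one]
  · intro h5
    obtain ⟨a, ha⟩ := hne
    apply ha
    have h6 : a ^ 3 = a := by
      have := FiniteField.pow_card a
      rwa [hc] at this
    have h7 : a * ((a - 1) * (a + 1)) = 0 := by linear_combination h6
    rcases mul_eq_zero.1 h7 with h8 | h8
    · rw [h8, el_zero, map_one]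
    · rcases mul_eq_zero.1 h8 with h9 | h9
      · rw [sub_eq_zero.1 h9, h5]
      · rw [eq_neg_of_add_eq_zero_left h9, ← el_inv, map_inv, h5, inv_one]

/-- the subgroup of the elements which act on the eigenspace as a scalar -/
def FourB_M (ρ : Representation ℂ (SpecialLinearGroup (Fin 4) F) V) (lam : UT 4 F →* ℂˣ) :
    Subgroup (SpecialLinearGroup (Fin 4) F) where
  carrier := {g | ∃ c : ℂˣ, ∀ z ∈ eigSp ρ (UT 4 F) lam, ρ g z = (c : ℂ) • z}
  one_mem' := ⟨1, fun z _ => by rw [map_one, Module.End.one_apply, Units.val_one, one_smul]⟩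
  mul_mem' := by
    rintro g h ⟨c, hc⟩ ⟨d, hd⟩
    refine ⟨c * d, fun z hz => ?_⟩
    rw [map_mul, Module.End.mul_apply, hd z hz, map_smul, hc z hz, smul_smul, Units.val_mul, mul_comm]
  inv_mem' := by
    rintro g ⟨c, hc⟩
    refine ⟨c⁻¹, fun z hz => ?_⟩
    have h1 : ρ g⁻¹ (ρ g z) = z := by
      rw [← Module.End.mul_apply, ← map_mul, inv_mul_cancel, map_one, Module.End.one_apply]
    rw [hc z hz, map_smul] at h1
    nth_rw 2 [← h1]
    rw [smul_smul, ← Units.val_mul, inv_mul_cancel, Units.val_one, one_smul]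

omit [FiniteDimensional ℂ V] in
theorem FourB_uniq {z : V} (hz : z ≠ 0) {c d : ℂˣ} (h : (c : ℂ) • z = (d : ℂ) • z) : c = d :=
  Units.ext (smul_left_injective ℂ hz h)

omit [Finite F] [FiniteDimensional ℂ V] in
theorem FourB_Lam (ρ : Representation ℂ (SpecialLinearGroup (Fin 4) F) V) (lam : UT 4 F →* ℂˣ)
    (z0 : V) (hz0 : z0 ≠ 0) (hz : z0 ∈ eigSp ρ (UT 4 F) lam) :
    ∃ Lam : FourB_M ρ lam →* ℂˣ, ∀ (k : FourB_M ρ lam), ∀ z ∈ eigSp ρ (UT 4 F) lam,
      ρ (k : SpecialLinearGroup (Fin 4) F) z = ((Lam k : ℂˣ) : ℂ) • z := by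
  choose f hf using fun k : FourB_M ρ lam => k.2
  refine ⟨⟨⟨f, ?_⟩, ?_⟩, hf⟩
  · apply FourB_uniq hz0
    rw [← hf 1 z0 hz, Subgroup.coe_one, map_one, Module.End.one_apply, Units.val_one, one_smul]
  · intro k l
    apply FourB_uniq hz0
    have h1 := hf (k * l) z0 hz
    rw [Subgroup.coe_mul, map_mul, Module.End.mul_apply, hf l z0 hz, map_smul, hf k z0 hz,
      smul_smul] at h1
    change ((f (k * l) : ℂˣ) : ℂ) • z0 = ((f k * f l : ℂˣ) : ℂ) • z0
    rw [← h1, Units.val_mul, mul_comm]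

theorem four_one (hF : Nat.card F = 3) (ρ : Representation ℂ (SpecialLinearGroup (Fin 4) F) V)
    (hρ : ρ.IsIrreducible) (lam : UT 4 F →* ℂˣ) (hlam : lam ∈ Lin ρ (UT 4 F))
    (hL : ∀ mu ∈ Lin ρ (UT 4 F), mu = lam ∨ mu = lam⁻¹)
    (h01 : ∃ a : F, lam (el (show (0 : Fin 4) < 1 by decide) a) ≠ 1)
    (h12 : ∀ a : F, lam (el (show (1 : Fin 4) < 2 by decide) a) = 1)
    (h23 : ∃ a : F, lam (el (show (2 : Fin 4) < 3 by decide) a) ≠ 1) :
    finrank ℂ (eigSp ρ (UT 4 F) lam) = 1 := by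
  classical
  have hfG : Finite (SpecialLinearGroup (Fin 4) F) := inferInstance
  have hGt : Fintype (SpecialLinearGroup (Fin 4) F) := Fintype.ofFinite _
  have hMt : Fintype (FourB_M ρ lam) := Fintype.ofFinite _
  obtain ⟨z0, hz0, hz0'⟩ := (mem_Lin_iff ρ (UT 4 F) lam).1 hlam
  obtain ⟨Lam, hLam⟩ := FourB_Lam ρ lam z0 hz0 hz0'
  have hU : ∀ x : UT 4 F, (x : SpecialLinearGroup (Fin 4) F) ∈ FourB_M ρ lam :=
    fun x => ⟨lam x, fun z hz => hz x⟩
  have hLU : ∀ x : UT 4 F, Lam ⟨x, hU x⟩ = lam x := fun x => by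
    apply FourB_uniq hz0
    rw [← hLam ⟨x, hU x⟩ z0 hz0', ← hz0' x]
  have hM : ∀ (i j : Fin 4) (h : i ≠ j) (a : F), ((i : ℕ) < 2 ∨ 2 ≤ (j : ℕ)) →
      SpecialLinearGroup.transvection h a ∈ FourB_M ρ lam :=
    fun i j h a hij => four_scal hF ρ lam hL h01 h12 h23 i j h hij a
  obtain ⟨e, he⟩ : ∃ e, e = proj ρ (FourB_M ρ lam) Lam := ⟨_, rfl⟩
  -- the properties of the projection
  have he1 : ∀ y : V, e y ∈ eigSp ρ (UT 4 F) lam := by
    intro y x
    rw [he, ← hLU x]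
    exact rho_proj ρ (FourB_M ρ lam) Lam y ⟨x, hU x⟩
  have he2 : ∀ (k : FourB_M ρ lam) (y : V),
      e (ρ (k : SpecialLinearGroup (Fin 4) F) y) = ((Lam k : ℂˣ) : ℂ) • e y := by
    intro k y
    rw [he]
    exact proj_rho ρ (FourB_M ρ lam) Lam y k
  have he2' : ∀ (x : UT 4 F) (y : V),
      e (ρ (x : SpecialLinearGroup (Fin 4) F) y) = ((lam x : ℂˣ) : ℂ) • e y := by
    intro x y
    rw [← hLU x]
    exact he2 ⟨x, hU x⟩ y
  have he3 : ∀ z ∈ eigSp ρ (UT 4 F) lam, e z = z := by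
    intro z hz
    rw [he]
    exact proj_eq_self ρ (FourB_M ρ lam) Lam z (fun k => hLam k z hz)
  -- the general argument
  have key : ∀ (g : SpecialLinearGroup (Fin 4) F) (x y : UT 4 F),
      g * x = y * g → lam x ≠ lam y → ∀ z ∈ eigSp ρ (UT 4 F) lam, e (ρ g z) = 0 := by
    intro g x y hg hne z hz
    have h1 : ρ g (ρ (x : SpecialLinearGroup (Fin 4) F) z) =
        ρ (y : SpecialLinearGroup (Fin 4) F) (ρ g z) := by
      rw [← Module.End.mul_apply, ← map_mul, hg, map_mul, Module.End.mul_apply]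
    rw [hz x, map_smul] at h1
    have h2 := congrArg e h1
    rw [map_smul, he2'] at h2
    by_contra h3
    exact hne (FourB_uniq h3 h2)
  obtain ⟨ha, ha1⟩ := FourB_cube hF lam (show (0 : Fin 4) < 1 by decide) h01
  have hA : ∀ z ∈ eigSp ρ (UT 4 F) lam, e (ρ Kt z) = 0 := by
    refine key Kt (el (show (0 : Fin 4) < 1 by decide) 1) (el (show (0 : Fin 4) < 1 by decide) (-1))
      (FourB_Kt (by decide) 1) ?_
    rw [← el_inv, map_inv]
    exact FourB_inv ha ha1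
  have hB : ∀ z ∈ eigSp ρ (UT 4 F) lam, e (ρ Ks z) = 0 := by
    refine key Ks (el (show (0 : Fin 4) < 2 by decide) 1) (el (show (0 : Fin 4) < 1 by decide) (-1))
      (FourB_Ks (by decide) (by decide) 1) ?_
    rw [← el_inv, map_inv, lam_el lam (show (0 : Fin 4) < 2 by decide) (by decide)]
    intro h
    exact ha1 (inv_eq_one.1 h.symm)
  have hC : lam (el (show (2 : Fin 4) < 3 by decide) 1) ≠ lam (el (show (0 : Fin 4) < 1 by decide) 1) →
      ∀ z ∈ eigSp ρ (UT 4 F) lam, e (ρ Kw z) = 0 := fun h =>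
    key Kw (el (show (0 : Fin 4) < 1 by decide) 1) (el (show (2 : Fin 4) < 3 by decide) 1)
      (FourB_Kw (by decide) (by decide) 1) h.symm
  have hD : lam (el (show (2 : Fin 4) < 3 by decide) 1) = lam (el (show (0 : Fin 4) < 1 by decide) 1) →
      ∀ z ∈ eigSp ρ (UT 4 F) lam, e (ρ (Kw * Kt) z) = 0 := by
    intro h
    refine key (Kw * Kt) (el (show (0 : Fin 4) < 1 by decide) 1)
      (el (show (2 : Fin 4) < 3 by decide) (-1)) ?_ ?_
    · change Kw * Kt * SpecialLinearGroup.transvection (show (0 : Fin 4) ≠ 1 by decide) 1 =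
        SpecialLinearGroup.transvection (show (2 : Fin 4) ≠ 3 by decide) (-1) * (Kw * Kt)
      rw [mul_assoc, FourB_Kt, ← mul_assoc, FourB_Kw _ (show (2 : Fin 4) ≠ 3 by decide), mul_assoc]
    · rw [← el_inv, map_inv, h]
      exact FourB_inv ha ha1
  have hE : (∀ z ∈ eigSp ρ (UT 4 F) lam, e (ρ Kw z) = 0) ∨
      (∀ z ∈ eigSp ρ (UT 4 F) lam, e (ρ (Kw * Kt) z) = 0) := by
    by_cases h : lam (el (show (2 : Fin 4) < 3 by decide) 1) =
        lam (el (show (0 : Fin 4) < 1 by decide) 1)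
    · exact Or.inr (hD h)
    · exact Or.inl (hC h)
  -- the eigenvector
  obtain ⟨φ, hφ⟩ : ∃ φ : Module.End ℂ (eigSp ρ (UT 4 F) lam),
      ∀ z : eigSp ρ (UT 4 F) lam, (φ z : V) = e (ρ Kw z) + e (ρ (Kw * Kt) z) := by
    refine ⟨LinearMap.restrict (e ∘ₗ ρ Kw + e ∘ₗ ρ (Kw * Kt)) (p := eigSp ρ (UT 4 F) lam)
      (q := eigSp ρ (UT 4 F) lam) (fun z _ => ?_), fun z => rfl⟩
    exact Submodule.add_mem _ (he1 _) (he1 _)
  have hnt : Nontrivial (eigSp ρ (UT 4 F) lam) :=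
    ⟨⟨⟨z0, hz0'⟩, 0, fun h => hz0 (congrArg Subtype.val h)⟩⟩
  obtain ⟨μ, hμ⟩ := Module.End.exists_eigenvalue φ
  obtain ⟨z, hz⟩ := hμ.exists_hasEigenvector
  have hz1 : e (ρ Kw z) + e (ρ (Kw * Kt) z) = μ • (z : V) := by
    rw [← hφ z, hz.apply_eq_smul]
    rfl
  have hzne : (z : V) ≠ 0 := fun h => hz.2 (Subtype.ext h)
  -- every element
  have hall : ∀ g : SpecialLinearGroup (Fin 4) F, ∃ c : ℂ, e (ρ g z) = c • (z : V) := by
    intro g
    have hkk : ∀ k ∈ FourB_M ρ lam, ∀ k' ∈ FourB_M ρ lam, ∀ X : SpecialLinearGroup (Fin 4) F,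
        (∃ c : ℂ, e (ρ X z) = c • (z : V)) → ∃ c : ℂ, e (ρ (k * X * k') z) = c • (z : V) := by
      rintro k hk k' hk' X ⟨c, hc⟩
      refine ⟨((Lam ⟨k', hk'⟩ : ℂˣ) : ℂ) * (((Lam ⟨k, hk⟩ : ℂˣ) : ℂ) * c), ?_⟩
      rw [map_mul, map_mul, Module.End.mul_apply, Module.End.mul_apply,
        hLam ⟨k', hk'⟩ z z.2, map_smul, map_smul, map_smul, he2 ⟨k, hk⟩, hc, smul_smul, smul_smul,
        mul_assoc]
    obtain ⟨k, hk, k', hk', h | h | h | h | h⟩ := Kb_dc hF (FourB_M ρ lam) hM g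
    · rw [h, ← mul_one k]
      refine hkk k hk k' hk' 1 ⟨1, ?_⟩
      rw [map_one, Module.End.one_apply, he3 z z.2, one_smul]
    · rw [h]
      exact hkk k hk k' hk' Kt ⟨0, by rw [hA z z.2, zero_smul]⟩
    · rw [h]
      exact hkk k hk k' hk' Ks ⟨0, by rw [hB z z.2, zero_smul]⟩
    · rw [h]
      apply hkk k hk k' hk' Kw
      rcases hE with h1 | h1
      · exact ⟨0, by rw [h1 z z.2, zero_smul]⟩
      · exact ⟨μ, by rw [← hz1, h1 z z.2, add_zero]⟩
    · rw [h]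
      apply hkk k hk k' hk' (Kw * Kt)
      rcases hE with h1 | h1
      · exact ⟨μ, by rw [← hz1, h1 z z.2, zero_add]⟩
      · exact ⟨0, by rw [h1 z z.2, zero_smul]⟩
  -- Schur
  obtain ⟨ξ, hξ⟩ : ∃ ξ : V →ₗ[ℂ] ℂ, ξ z = 1 := by
    obtain ⟨η, hη⟩ : ∃ η : Module.Dual ℂ V, η z ≠ 0 := by
      by_contra h
      push Not at h
      exact hzne ((Module.forall_dual_apply_eq_zero_iff ℂ (z : V)).mp h)
    exact ⟨(η z)⁻¹ • η, by rw [LinearMap.smul_apply, smul_eq_mul, inv_mul_cancel₀ hη]⟩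
  obtain ⟨c, hc, hc2⟩ := schur_rank_one ρ hρ ξ z
  have hc0 : c ≠ 0 := by
    rintro rfl
    rw [zero_mul, hξ, mul_one] at hc2
    exact Nat.cast_ne_zero.2 (Nat.card_pos (α := SpecialLinearGroup (Fin 4) F)).ne' hc2.symm
  choose f hf using hall
  apply finrank_eq_one z hz.2
  intro y
  have h1 := congrArg e (hc y)
  rw [map_sum, map_smul, he3 y y.2] at h1
  refine ⟨c⁻¹ * ∑ g : SpecialLinearGroup (Fin 4) F, ξ (ρ g⁻¹ y) * f g, Subtype.ext ?_⟩
  change (c⁻¹ * ∑ g : SpecialLinearGroup (Fin 4) F, ξ (ρ g⁻¹ y) * f g) • (z : V) = y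
  rw [mul_smul, Finset.sum_smul]
  rw [inv_smul_eq_iff₀ hc0, ← h1]
  refine Finset.sum_congr rfl fun g _ => ?_
  rw [map_smul, hf g, smul_smul]

theorem four (hF : Nat.card F = 3) (ρ : Representation ℂ (SpecialLinearGroup (Fin 4) F) V)
    (hρ : ρ.IsIrreducible) (lam : UT 4 F →* ℂˣ) (hlam : lam ∈ Lin ρ (UT 4 F))
    (hlam' : lam⁻¹ ∈ Lin ρ (UT 4 F))
    (hL : ∀ mu ∈ Lin ρ (UT 4 F), mu = lam ∨ mu = lam⁻¹)
    (h01 : ∃ a : F, lam (el (show (0 : Fin 4) < 1 by decide) a) ≠ 1)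
    (h12 : ∀ a : F, lam (el (show (1 : Fin 4) < 2 by decide) a) = 1)
    (h23 : ∃ a : F, lam (el (show (2 : Fin 4) < 3 by decide) a) ≠ 1) :
    ¬ 3 ∣ finrank ℂ V := by
  classical
  have hfG : Finite (SpecialLinearGroup (Fin 4) F) := inferInstance
  have hFt : Fintype F := Fintype.ofFinite F
  have hc : Fintype.card F = 3 := by rw [← Nat.card_eq_fintype_card, hF]
  have hp : Fact (Nat.Prime 3) := ⟨Nat.prime_three⟩
  have hch : CharP F 3 := charP_of_card_eq_prime hc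
  have hft : Fintype (UT 4 F →* ℂˣ) := Fintype.ofFinite _
  have h1 := four_one hF ρ hρ lam hlam hL h01 h12 h23
  have h2 : finrank ℂ (eigSp ρ (UT 4 F) lam⁻¹) = 1 := by
    refine four_one hF ρ hρ lam⁻¹ hlam' ?_ ?_ ?_ ?_
    · intro mu hmu
      rcases hL mu hmu with h | h
      · right
        rw [h]
        exact (inv_inv lam).symm
      · exact Or.inl h
    · obtain ⟨a, ha⟩ := h01
      exact ⟨a, fun h => ha (inv_eq_one.1 h)⟩
    · intro a
      exact inv_eq_one.2 (h12 a)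
    · obtain ⟨a, ha⟩ := h23
      exact ⟨a, fun h => ha (inv_eq_one.1 h)⟩
  obtain ⟨ha, ha1⟩ := FourB_cube hF lam (show (0 : Fin 4) < 1 by decide) h01
  have hne : lam ≠ lam⁻¹ := by
    intro h
    exact FourB_inv ha ha1 (congrFun (congrArg DFunLike.coe h) _)
  have h3 := cnt (p := 3) ρ (UT 4 F) UT_pgroup
  have h4 : ∑ μ : UT 4 F →* ℂˣ, finrank ℂ (eigSp ρ (UT 4 F) μ) = 2 := by
    rw [← Finset.sum_subset (Finset.subset_univ {lam, lam⁻¹}), Finset.sum_pair hne, h1, h2]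
    intro mu _ hmu
    by_contra h5
    obtain ⟨y, hy⟩ := Module.finrank_pos_iff_exists_ne_zero.mp (Nat.pos_of_ne_zero h5)
    apply hmu
    rw [Finset.mem_insert, Finset.mem_singleton]
    exact hL mu ((mem_Lin_iff ρ (UT 4 F) mu).2 ⟨y, fun h => hy (Subtype.ext h), y.2⟩)
  rw [h4] at h3
  intro h5
  have h6 : finrank ℂ V ≡ 0 [MOD 3] := (Nat.modEq_zero_iff_dvd).2 h5
  have h7 := h6.symm.trans h3
  exact absurd h7 (by decide)

end Pool.Agent.H.MP_7d3ffc_al.DC
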