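import Pool.Agent.H.MP_7d3ffc_al.DC.Defs

/-!
# Module DC/Gen: generation of the unitriangular group, linear characters

* `el_comm`: `[1 + a E_ik, 1 + b E_kj] = 1 + a b E_ij` for different `i`, `k`, `j`.
* `UT_ind`: every `u` in `UT` is a product of matrices `el h a`: induction on the number of the
  pairs `i < j` with `u i j ≠ 0`. If there is such a pair take one with `j` maximal (any `i`);
  row `j` of `u` is then the unit row (by maximality all `u j l = 0`, `l > j`), so
  `el h (-(u i j)) * u` differs from `u` only in the entry `(i, j)`, which is now `0`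
  (`Matrix.transvection_mul_apply_same`, `_of_ne`); and `u = el h (u i j) * (el h (-(u i j)) * u)`.
* `lam_el`: `el h a` with `j ≠ i + 1` is a commutator of elements of `UT` (`el_comm`).
* `lam_eq`: by `UT_ind`: the `(i0, j0)` entry of `el h a * u` is `u i0 j0 + a` if
  `(i, j) = (i0, j0)`, and `u i0 j0` otherwise (if `i = i0`, `j > j0` then `u j j0 = 0`).
-/

namespace Pool.Agent.H.MP_7d3ffc_al.DC

open Matrix Matrix.SpecialLinearGroup

variable {n : ℕ} {F : Type*} [Field F]

private theorem Gen_ring {R : Type*} [Ring R] {X Y : R} (hXX : X * X = 0) (hYY : Y * Y = 0)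
    (hYX : Y * X = 0) : (1 + X) * (1 + Y) * (1 + -X) * (1 + -Y) = 1 + X * Y := by
  have h1 : X * Y * X = 0 := by rw [mul_assoc, hYX, mul_zero]
  have h2 : X * Y * Y = 0 := by rw [mul_assoc, hYY, mul_zero]
  simp only [mul_add, add_mul, one_mul, mul_one, mul_neg, neg_mul, neg_neg, neg_zero, zero_mul,
    mul_zero, hXX, hYY, hYX, h1, h2]
  abel

theorem el_comm {i k j : Fin n} (hik : i ≠ k) (hkj : k ≠ j) (hij : i ≠ j) (a b : F) :
    SpecialLinearGroup.transvection hik a * SpecialLinearGroup.transvection hkj b *
      SpecialLinearGroup.transvection hik (-a) * SpecialLinearGroup.transvection hkj (-b) =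
      SpecialLinearGroup.transvection hij (a * b) := by
  refine Subtype.ext ?_
  have hn : ∀ (r s : Fin n) (c : F), Matrix.single r s (-c) = -Matrix.single r s c := by
    intro r s c
    ext x y
    rw [Matrix.neg_apply]
    by_cases h : r = x ∧ s = y
    · rw [← h.1, ← h.2, Matrix.single_apply_same, Matrix.single_apply_same]
    · rw [Matrix.single_apply_of_ne _ _ _ _ _ h, Matrix.single_apply_of_ne _ _ _ _ _ h, neg_zero]
  show Matrix.transvection i k a * Matrix.transvection k j b * Matrix.transvection i k (-a) *
    Matrix.transvection k j (-b) = Matrix.transvection i j (a * b)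
  unfold Matrix.transvection
  rw [hn, hn, Gen_ring (Matrix.single_mul_single_of_ne _ _ _ _ hik.symm _)
    (Matrix.single_mul_single_of_ne _ _ _ _ hkj.symm _)
    (Matrix.single_mul_single_of_ne _ _ _ _ hij.symm _), Matrix.single_mul_single_same]

theorem UT_ind (P : UT n F → Prop) (h1 : P 1)
    (hm : ∀ (i j : Fin n) (h : i < j) (a : F) (u : UT n F), P u → P (el h a * u)) :
    ∀ u, P u := by
  classical
  have key : ∀ (N : ℕ) (u : UT n F), (Finset.univ.filter fun q : Fin n × Fin n =>
      q.1 < q.2 ∧ (u : SpecialLinearGroup (Fin n) F).1 q.1 q.2 ≠ 0).card = N → P u := by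
    intro N
    induction N using Nat.strong_induction_on with
    | _ N ih =>
      intro u hN
      rcases Finset.eq_empty_or_nonempty (Finset.univ.filter fun q : Fin n × Fin n =>
        q.1 < q.2 ∧ (u : SpecialLinearGroup (Fin n) F).1 q.1 q.2 ≠ 0) with h0 | h0
      · have hu : u = 1 := by
          refine Subtype.ext (Subtype.ext ?_)
          ext r s
          show (u : SpecialLinearGroup (Fin n) F).1 r s = (1 : Matrix (Fin n) (Fin n) F) r s
          rcases lt_trichotomy r s with h | h | h
          · rw [Matrix.one_apply_ne h.ne]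
            by_contra hne
            have h2 : (r, s) ∈ (Finset.univ.filter fun q : Fin n × Fin n =>
                q.1 < q.2 ∧ (u : SpecialLinearGroup (Fin n) F).1 q.1 q.2 ≠ 0) :=
              Finset.mem_filter.2 ⟨Finset.mem_univ _, h, hne⟩
            rw [h0] at h2
            exact absurd h2 (Finset.notMem_empty _)
          · rw [h, Matrix.one_apply_eq]
            exact (mem_UT.1 u.2).2 s
          · rw [Matrix.one_apply_ne h.ne']
            exact (mem_UT.1 u.2).1 r s h
        rw [hu]
        exact h1
      · obtain ⟨⟨i, j⟩, hij, hmax⟩ := Finset.exists_max_image _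
          (fun q : Fin n × Fin n => q.2) h0
        have hij' := (Finset.mem_filter.1 hij).2
        have hlt : i < j := hij'.1
        have hrow : ∀ l, j < l → (u : SpecialLinearGroup (Fin n) F).1 j l = 0 := by
          intro l hl
          by_contra hne
          have h2 := hmax (j, l) (Finset.mem_filter.2 ⟨Finset.mem_univ _, hl, hne⟩)
          exact absurd hl (not_lt.2 h2)
        obtain ⟨c, hc⟩ : ∃ c, c = (u : SpecialLinearGroup (Fin n) F).1 i j := ⟨_, rfl⟩
        obtain ⟨u', hu'⟩ : ∃ u' : UT n F, u' = el hlt (-c) * u := ⟨_, rfl⟩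
        have hent : ∀ r s, (u' : SpecialLinearGroup (Fin n) F).1 r s =
            if r = i ∧ s = j then 0 else (u : SpecialLinearGroup (Fin n) F).1 r s := by
          intro r s
          rw [hu']
          show (Matrix.transvection i j (-c) * (u : SpecialLinearGroup (Fin n) F).1) r s = _
          by_cases hr : r = i
          · subst hr
            rw [Matrix.transvection_mul_apply_same]
            rcases lt_trichotomy s j with h | h | h
            · rw [(mem_UT.1 u.2).1 j s h, mul_zero, add_zero, if_neg]
              rintro ⟨-, rfl⟩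
              exact lt_irrefl _ h
            · rw [h, (mem_UT.1 u.2).2 j, if_pos ⟨rfl, rfl⟩, mul_one, ← hc]
              ring
            · rw [hrow s h, mul_zero, add_zero, if_neg]
              rintro ⟨-, rfl⟩
              exact lt_irrefl _ h
          · rw [Matrix.transvection_mul_apply_of_ne _ _ _ _ hr, if_neg (fun h => hr h.1)]
        have hsub : (Finset.univ.filter fun q : Fin n × Fin n =>
            q.1 < q.2 ∧ (u' : SpecialLinearGroup (Fin n) F).1 q.1 q.2 ≠ 0) ⊂
            (Finset.univ.filter fun q : Fin n × Fin n =>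
            q.1 < q.2 ∧ (u : SpecialLinearGroup (Fin n) F).1 q.1 q.2 ≠ 0) := by
          rw [Finset.ssubset_iff_of_subset]
          · refine ⟨(i, j), hij, ?_⟩
            intro h2
            refine (Finset.mem_filter.1 h2).2.2 ?_
            rw [hent, if_pos ⟨rfl, rfl⟩]
          · intro q hq
            obtain ⟨h2, h3⟩ := (Finset.mem_filter.1 hq).2
            refine Finset.mem_filter.2 ⟨Finset.mem_univ _, h2, ?_⟩
            rw [hent] at h3
            split_ifs at h3 with h4
            · exact absurd rfl h3
            · exact h3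
        have hP : P u' := by
          refine ih _ ?_ u' rfl
          rw [← hN]
          exact Finset.card_lt_card hsub
        have h2 := hm i j hlt c u' hP
        have h3 : el hlt c * u' = u := by
          rw [hu', ← mul_assoc, ← el_add, add_neg_cancel, el_zero, one_mul]
        rw [h3] at h2
        exact h2
  exact fun u => key _ u rfl

theorem lam_el (lam : UT n F →* ℂˣ) {i j : Fin n} (h : i < j) (hs : (j : ℕ) ≠ i + 1) (a : F) :
    lam (el h a) = 1 := by
  have hj := j.2
  have h' : (i : ℕ) < j := h
  have hik : i < (⟨(i : ℕ) + 1, by omega⟩ : Fin n) := by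
    rw [Fin.lt_def]
    show (i : ℕ) < (i : ℕ) + 1
    omega
  have hkj : (⟨(i : ℕ) + 1, by omega⟩ : Fin n) < j := by
    rw [Fin.lt_def]
    show (i : ℕ) + 1 < j
    omega
  have h1 : (el h a : UT n F) = el hik a * el hkj 1 * el hik (-a) * el hkj (-1) := by
    refine Subtype.ext ?_
    have h2 := el_comm hik.ne hkj.ne h.ne a (1 : F)
    rw [mul_one] at h2
    exact h2.symm
  have h3 : lam (el hik a) * lam (el hik (-a)) = 1 := by
    rw [← map_mul, ← el_add, add_neg_cancel, el_zero, map_one]
  have h4 : lam (el hkj 1) * lam (el hkj (-1)) = 1 := by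
    rw [← map_mul, ← el_add, add_neg_cancel, el_zero, map_one]
  rw [h1, map_mul, map_mul, map_mul, mul_right_comm (lam (el hik a)), h3, one_mul, h4]

/-- a character which is trivial on all but one of the simple root subgroups -/
theorem lam_eq (lam : UT n F →* ℂˣ) {i0 j0 : Fin n} (h0 : i0 < j0) (hs0 : (j0 : ℕ) = i0 + 1)
    (hl : ∀ (i j : Fin n) (h : i < j), (j : ℕ) = i + 1 → i ≠ i0 → ∀ a : F, lam (el h a) = 1)
    (u : UT n F) : lam u = lam (el h0 ((u : SpecialLinearGroup (Fin n) F).1 i0 j0)) := by
  refine UT_ind (P := fun u => lam u =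
    lam (el h0 ((u : SpecialLinearGroup (Fin n) F).1 i0 j0))) ?_ ?_ u
  · have h1 : ((1 : UT n F) : SpecialLinearGroup (Fin n) F).1 i0 j0 = 0 :=
      Matrix.one_apply_ne h0.ne
    show lam 1 = _
    rw [h1, el_zero]
  · intro i j h a u hu
    show lam (el h a * u) = _
    rw [map_mul, hu]
    have hent : ((el h a * u : UT n F) : SpecialLinearGroup (Fin n) F).1 =
        Matrix.transvection i j a * (u : SpecialLinearGroup (Fin n) F).1 := rfl
    rw [hent]
    by_cases hi : i = i0
    · subst hi
      rw [Matrix.transvection_mul_apply_same]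
      by_cases hj : j = j0
      · subst hj
        rw [(mem_UT.1 u.2).2 j, mul_one, add_comm, el_add, map_mul]
      · have h' : (i : ℕ) < j := h
        have hj' : (j : ℕ) ≠ i + 1 := fun e => hj (Fin.ext (e.trans hs0.symm))
        have hlt : j0 < j := by
          rw [Fin.lt_def]
          omega
        rw [(mem_UT.1 u.2).1 j j0 hlt, mul_zero, add_zero, lam_el lam h hj' a, one_mul]
    · rw [Matrix.transvection_mul_apply_of_ne _ _ _ _ (fun e => hi e.symm)]
      have h1 : lam (el h a) = 1 := by
        by_cases hj : (j : ℕ) = i + 1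
        · exact hl i j h hj hi a
        · exact lam_el lam h hj a
      rw [h1, one_mul]

theorem lam_one (lam : UT n F →* ℂˣ)
    (hl : ∀ (i j : Fin n) (h : i < j), (j : ℕ) = i + 1 → ∀ a : F, lam (el h a) = 1) :
    lam = 1 := by
  refine MonoidHom.ext fun u => ?_
  refine UT_ind (P := fun u => lam u = (1 : UT n F →* ℂˣ) u) ?_ ?_ u
  · show lam 1 = _
    rw [map_one, map_one]
  · intro i j h a u hu
    show lam (el h a * u) = _
    rw [map_mul, hu]
    have h1 : lam (el h a) = 1 := by
      by_cases hj : (j : ℕ) = i + 1
      · exact hl i j h hj a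
      · exact lam_el lam h hj a
    rw [h1, one_mul]
    rfl

end Pool.Agent.H.MP_7d3ffc_al.DC
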