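import Pool.Agent.H.MP_7d3ffc_al.DC.Gen

/-!
# Module DC/Glt: diagonal matrices of any determinant act on the linear constituents
-/

namespace Pool.Agent.H.MP_7d3ffc_al.DC

open Matrix Matrix.SpecialLinearGroup Pool.Agent.H.MP_7d3ffc_al

variable {n : ℕ} {F : Type*} [Field F]

/-- `diagonal d⁻¹ * s * diagonal d` -/
theorem Glt_det (d : Fin n → Fˣ) (s : SpecialLinearGroup (Fin n) F) :
    (Matrix.diagonal (fun i => ((d i)⁻¹ : Fˣ).1) * s.1 *
      Matrix.diagonal (fun i => (d i).1)).det = 1 := by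
  rw [Matrix.det_mul, Matrix.det_mul, s.2, mul_one, ← Matrix.det_mul,
    Matrix.diagonal_mul_diagonal, Matrix.det_diagonal]
  refine Finset.prod_eq_one fun i _ => ?_
  exact (d i).inv_mul

/-- conjugation by a diagonal matrix -/
def Gltc (d : Fin n → Fˣ) : SpecialLinearGroup (Fin n) F →* SpecialLinearGroup (Fin n) F where
  toFun s := ⟨_, Glt_det d s⟩
  map_one' := by
    refine Subtype.ext ?_
    change Matrix.diagonal (fun i => ((d i)⁻¹ : Fˣ).1) * (1 : Matrix (Fin n) (Fin n) F) *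
      Matrix.diagonal (fun i => (d i).1) = 1
    rw [mul_one, Matrix.diagonal_mul_diagonal, ← Matrix.diagonal_one]
    congr 1
    funext i
    exact (d i).inv_mul
  map_mul' s s' := by
    refine Subtype.ext ?_
    change Matrix.diagonal (fun i => ((d i)⁻¹ : Fˣ).1) * (s.1 * s'.1) *
      Matrix.diagonal (fun i => (d i).1) =
      (Matrix.diagonal (fun i => ((d i)⁻¹ : Fˣ).1) * s.1 * Matrix.diagonal (fun i => (d i).1)) *
      (Matrix.diagonal (fun i => ((d i)⁻¹ : Fˣ).1) * s'.1 * Matrix.diagonal (fun i => (d i).1))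
    have h1 : Matrix.diagonal (fun i => (d i).1) * Matrix.diagonal (fun i => ((d i)⁻¹ : Fˣ).1) =
        1 := by
      rw [Matrix.diagonal_mul_diagonal, ← Matrix.diagonal_one]
      congr 1
      funext i
      exact (d i).mul_inv
    calc _ = Matrix.diagonal (fun i => ((d i)⁻¹ : Fˣ).1) * (s.1 * 1 * s'.1) *
          Matrix.diagonal (fun i => (d i).1) := by rw [mul_one]
      _ = _ := by
        rw [← h1]
        simp only [Matrix.mul_assoc]

theorem Gltc_apply (d : Fin n → Fˣ) (s : SpecialLinearGroup (Fin n) F) (i j : Fin n) :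
    (Gltc d s).1 i j = ((d i).1)⁻¹ * s.1 i j * (d j).1 := by
  change (Matrix.diagonal (fun i => ((d i)⁻¹ : Fˣ).1) * s.1 *
    Matrix.diagonal (fun i => (d i).1)) i j = _
  rw [Matrix.mul_diagonal, Matrix.diagonal_mul, Units.val_inv_eq_inv_val]

theorem Gltc_mem (d : Fin n → Fˣ) {u : SpecialLinearGroup (Fin n) F} (hu : u ∈ UT n F) :
    Gltc d u ∈ UT n F := by
  rw [mem_UT] at hu ⊢
  refine ⟨fun i j h => ?_, fun i => ?_⟩
  · rw [Gltc_apply, hu.1 i j h, mul_zero, zero_mul]
  · rw [Gltc_apply, hu.2 i, mul_one, inv_mul_cancel₀ (d i).ne_zero]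

theorem Gltc_el (d : Fin n → Fˣ) {i j : Fin n} (h : i < j) (a : F)
    (hm : Gltc d ((el h a : UT n F) : SpecialLinearGroup (Fin n) F) ∈ UT n F) :
    (⟨_, hm⟩ : UT n F) = el h (((d i).1)⁻¹ * a * (d j).1) := by
  refine Subtype.ext (Subtype.ext ?_)
  ext r s
  rw [el_val]
  have h1 := Gltc_apply d ((el h a : UT n F) : SpecialLinearGroup (Fin n) F) r s
  refine h1.trans ?_
  rw [el_val, Matrix.transvection, Matrix.transvection, Matrix.add_apply, Matrix.add_apply]
  by_cases hrs : i = r ∧ j = s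
  · obtain ⟨rfl, rfl⟩ := hrs
    rw [Matrix.one_apply_ne h.ne, Matrix.single_apply_same, Matrix.single_apply_same, zero_add,
      zero_add]
  · rw [Matrix.single_apply_of_ne _ _ _ _ _ hrs, Matrix.single_apply_of_ne _ _ _ _ _ hrs,
      add_zero]
    by_cases hr : r = s
    · subst hr
      rw [Matrix.one_apply_eq, mul_one, inv_mul_cancel₀ (d r).ne_zero]
    · rw [Matrix.one_apply_ne hr, mul_zero, zero_mul]

/-- the diagonal matrix as an element of the general linear group -/
def Gltt (d : Fin n → Fˣ) : GL (Fin n) F where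
  val := Matrix.diagonal fun i => (d i).1
  inv := Matrix.diagonal fun i => ((d i)⁻¹ : Fˣ).1
  val_inv := by
    rw [Matrix.diagonal_mul_diagonal, ← Matrix.diagonal_one]
    congr 1
    funext i
    exact (d i).mul_inv
  inv_val := by
    rw [Matrix.diagonal_mul_diagonal, ← Matrix.diagonal_one]
    congr 1
    funext i
    exact (d i).inv_mul

theorem Gltt_conj (d : Fin n → Fˣ) (s : SpecialLinearGroup (Fin n) F) :
    (toGL s : GL (Fin n) F) * Gltt d = Gltt d * toGL (Gltc d s) := by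
  have h1 : (toGL (Gltc d s) : GL (Fin n) F) = (Gltt d)⁻¹ * toGL s * Gltt d := Units.ext rfl
  rw [h1]
  group

theorem gl_tor [Finite F] {G : Type*} [Group G] {V : Type*} [AddCommGroup V] [Module ℂ V]
    [FiniteDimensional ℂ V] (ρ : Representation ℂ G V) (π : SpecialLinearGroup (Fin n) F →* G)
    (π' : GL (Fin n) F →* G) (hπ : ∀ s : SpecialLinearGroup (Fin n) F, π' (toGL s) = π s)
    (d : Fin n → Fˣ) {lam : UT n F →* ℂˣ}
    (hlam : lam ∈ Lin (ρ.comp π : Representation ℂ (SpecialLinearGroup (Fin n) F) V) (UT n F)) :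
    ∃ mu ∈ Lin (ρ.comp π : Representation ℂ (SpecialLinearGroup (Fin n) F) V) (UT n F),
      ∀ (i j : Fin n) (h : i < j) (a : F), mu (el h a) = lam (el h (((d i).1)⁻¹ * a * (d j).1)) := by
  obtain ⟨v, hv0, hv⟩ := (mem_Lin_iff _ _ lam).1 hlam
  let φ : UT n F →* UT n F := ((Gltc d).comp (UT n F).subtype).codRestrict (UT n F)
    fun u => Gltc_mem d u.2
  refine ⟨lam.comp φ, (mem_Lin_iff _ _ _).2 ⟨ρ (π' (Gltt d)) v, fun h => hv0 ?_, fun u => ?_⟩,
    fun i j h a => ?_⟩
  · have h1 := congrArg (ρ (π' (Gltt d))⁻¹) h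
    rw [map_zero, ← Module.End.mul_apply, ← map_mul, inv_mul_cancel, map_one] at h1
    exact h1
  · have h1 := hv (φ u)
    have h2 : ρ (π (u : SpecialLinearGroup (Fin n) F)) (ρ (π' (Gltt d)) v) =
        ρ (π' (Gltt d)) (ρ (π ((φ u : UT n F) : SpecialLinearGroup (Fin n) F)) v) := by
      have h3 : π (u : SpecialLinearGroup (Fin n) F) * π' (Gltt d) =
          π' (Gltt d) * π ((φ u : UT n F) : SpecialLinearGroup (Fin n) F) := by
        rw [← hπ, ← hπ, ← map_mul, ← map_mul]
        exact congrArg π' (Gltt_conj d u)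
      rw [← Module.End.mul_apply, ← map_mul, h3, map_mul, Module.End.mul_apply]
    have h4 : ρ (π ((φ u : UT n F) : SpecialLinearGroup (Fin n) F)) v =
        ((lam (φ u) : ℂˣ) : ℂ) • v := h1
    change ρ (π (u : SpecialLinearGroup (Fin n) F)) (ρ (π' (Gltt d)) v) = _
    rw [h2, h4, map_smul]
    rfl
  · have h1 : φ (el h a) = el h (((d i).1)⁻¹ * a * (d j).1) :=
      Gltc_el d h a (Gltc_mem d (el h a).2)
    rw [MonoidHom.comp_apply, h1]

end Pool.Agent.H.MP_7d3ffc_al.DC
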