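import Mathlib
import Pool.Agent.H.MP_7d3ffc_al.ThmA

/-!
# Module DC/Red: reduction to a normal subgroup

`π : S → G` is a homomorphism of finite groups whose range is normal of index prime to `p`, `U` is a
`p`-subgroup of `S` of index prime to `p`.
* `sylow_eq`: `U` is a Sylow subgroup of `S` (`IsPGroup.toSylow`), its image in the range a Sylow
  subgroup (`Sylow.mapSurjective`), and `U.map π` is a `p`-group of index prime to `p` in `G` (the
  index of `U.map π` in the range divides the one of `U` in `S`): Sylow subgroups of `G` are conjugate.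
* `ncard_conj`, `nonempty_conj`: `μ ↦ (x ↦ μ(g⁻¹ x g))` is a bijection of the two sets `Lin`, an
  eigenvector `v` is mapped to `ρ g v` (`mem_Lin_iff`).
* `lin_map`: the eigenvector `v` of `U` (acting through `π`) for `μ` shows that `μ` is trivial on
  the kernel of `π` in `U`, so it comes from a character of `U.map π`; conversely `μ ↦ μ ∘ π`.
* `of_fixed`: `theoremA` (module ThmA) for the subgroup `P` and `H = π.range`, `b = 0`:
  `1` is in `Lin ρ H` because of `v`; all conjugates of `H` are `H`, which contains `P`, because `P` is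
  conjugate to `U.map π`; `relIndex = 1`; `padicValNat p P.index = 0`,
  `padicValNat p (finrank ℂ V) ≥ 1`.
-/

namespace Pool.Agent.H.MP_7d3ffc_al.DC

open Pool.Agent.H.MP_7d3ffc_al Module
open scoped Pointwise

variable {S G : Type*} [Group S] [Group G] [Finite S] [Finite G] {V : Type*} [AddCommGroup V]
  [Module ℂ V] [FiniteDimensional ℂ V] {p : ℕ} [Fact p.Prime]

theorem sylow_eq (π : S →* G) (hidx : ¬ p ∣ π.range.index) (U : Subgroup S)
    (hU : IsPGroup p U) (hUi : ¬ p ∣ U.index) (P : Sylow p G) :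
    ∃ g : G, (P : Subgroup G) = MulAut.conj g • (U.map π) := by
  have h1 : ¬ p ∣ (U.map π).index := by
    intro h
    rw [Subgroup.index_map] at h
    rcases (Fact.out : p.Prime).dvd_mul.mp h with h | h
    · exact hUi (h.trans (Subgroup.index_dvd_of_le le_sup_left))
    · exact hidx h
  have h2 : IsPGroup p (U.map π) := hU.map π
  obtain ⟨g, hg⟩ := MulAction.exists_smul_eq G (h2.toSylow h1) P
  refine ⟨g, ?_⟩
  rw [← hg, Sylow.coe_subgroup_smul]
  rfl

theorem Red_conj (ρ : Representation ℂ G V) (g : G) (K : Subgroup G)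
    (μ : (MulAut.conj g • K : Subgroup G) →* ℂˣ) :
    μ ∈ Lin ρ (MulAut.conj g • K) ↔
      μ.comp (Subgroup.equivSMul (MulAut.conj g) K).toMonoidHom ∈ Lin ρ K := by
  have hval : ∀ x : K, (((Subgroup.equivSMul (MulAut.conj g) K) x : _) : G) = g * x * g⁻¹ := by
    intro x
    rfl
  rw [mem_Lin_iff, mem_Lin_iff]
  constructor
  · rintro ⟨y, hy0, hy⟩
    refine ⟨ρ g⁻¹ y, ?_, fun x => ?_⟩
    · intro h
      apply hy0
      have h1 : ρ g (ρ g⁻¹ y) = y := by
        rw [← Module.End.mul_apply, ← map_mul, mul_inv_cancel, map_one, Module.End.one_apply]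
      rw [← h1, h, map_zero]
    · have h2 := hy (Subgroup.equivSMul (MulAut.conj g) K x)
      rw [hval] at h2
      have h3 : ρ (x : G) (ρ g⁻¹ y) = ρ g⁻¹ (ρ (g * x * g⁻¹) y) := by
        rw [← Module.End.mul_apply, ← Module.End.mul_apply, ← map_mul, ← map_mul]
        congr 2
        group
      rw [h3, h2, map_smul]
      rfl
  · rintro ⟨y, hy0, hy⟩
    refine ⟨ρ g y, ?_, fun x' => ?_⟩
    · intro h
      apply hy0
      have h1 : ρ g⁻¹ (ρ g y) = y := by
        rw [← Module.End.mul_apply, ← map_mul, inv_mul_cancel, map_one, Module.End.one_apply]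
      rw [← h1, h, map_zero]
    · obtain ⟨x, rfl⟩ := (Subgroup.equivSMul (MulAut.conj g) K).surjective x'
      rw [hval]
      have h2 : ρ (x : G) y = ((μ (Subgroup.equivSMul (MulAut.conj g) K x) : ℂˣ) : ℂ) • y := hy x
      have h3 : ρ (g * x * g⁻¹) (ρ g y) = ρ g (ρ (x : G) y) := by
        rw [← Module.End.mul_apply, ← Module.End.mul_apply, ← map_mul, ← map_mul]
        congr 2
        group
      rw [h3, h2, map_smul]

theorem ncard_conj (ρ : Representation ℂ G V) (g : G) (K : Subgroup G) :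
    (Lin ρ (MulAut.conj g • K)).ncard = (Lin ρ K).ncard := by
  refine Set.ncard_congr
    (fun μ _ => μ.comp (Subgroup.equivSMul (MulAut.conj g) K).toMonoidHom) ?_ ?_ ?_
  · intro μ hμ
    exact (Red_conj ρ g K μ).mp hμ
  · intro μ ν _ _ h
    ext x
    obtain ⟨y, rfl⟩ := (Subgroup.equivSMul (MulAut.conj g) K).surjective x
    exact congrArg Units.val (DFunLike.congr_fun h y)
  · intro ν hν
    have h1 : (ν.comp (Subgroup.equivSMul (MulAut.conj g) K).symm.toMonoidHom).comp
        (Subgroup.equivSMul (MulAut.conj g) K).toMonoidHom = ν := by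
      ext x
      simp
    refine ⟨ν.comp (Subgroup.equivSMul (MulAut.conj g) K).symm.toMonoidHom, ?_, h1⟩
    rw [Red_conj, h1]
    exact hν

theorem nonempty_conj (ρ : Representation ℂ G V) (g : G) (K : Subgroup G)
    (h : (Lin ρ (MulAut.conj g • K)).Nonempty) : (Lin ρ K).Nonempty := by
  obtain ⟨μ, hμ⟩ := h
  exact ⟨_, (Red_conj ρ g K μ).mp hμ⟩

theorem lin_map (ρ : Representation ℂ G V) (π : S →* G) (U : Subgroup S) :
    (Lin (ρ.comp π : Representation ℂ S V) U).ncard ≤ (Lin ρ (U.map π)).ncard ∧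
      ((Lin ρ (U.map π)).Nonempty → (Lin (ρ.comp π : Representation ℂ S V) U).Nonempty) := by
  classical
  constructor
  · have h1 : Lin (ρ.comp π : Representation ℂ S V) U ⊆
        (fun ν : U.map π →* ℂˣ => ν.comp (π.subgroupMap U)) '' Lin ρ (U.map π) := by
      intro μ hμ
      obtain ⟨y, hy0, hy⟩ := (mem_Lin_iff _ _ _).mp hμ
      have hker : (π.subgroupMap U).ker ≤ μ.ker := by
        intro u hu
        have h2 : π (u : S) = 1 := congrArg Subtype.val (MonoidHom.mem_ker.mp hu)
        have h3 : ρ (π (u : S)) y = ((μ u : ℂˣ) : ℂ) • y := hy u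
        rw [h2, map_one, Module.End.one_apply] at h3
        rw [MonoidHom.mem_ker]
        apply Units.ext
        have h4 : (((μ u : ℂˣ) : ℂ) - 1) • y = 0 := by
          rw [sub_smul, one_smul, ← h3, sub_self]
        rcases smul_eq_zero.mp h4 with h5 | h5
        · rw [Units.val_one]
          exact sub_eq_zero.mp h5
        · exact absurd h5 hy0
      have hcomp : ((π.subgroupMap U).liftOfSurjective (π.subgroupMap_surjective U)
          ⟨μ, hker⟩).comp (π.subgroupMap U) = μ := by
        exact MonoidHom.liftOfRightInverse_comp _ _ _ _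
      refine ⟨_, ?_, hcomp⟩
      rw [mem_Lin_iff]
      refine ⟨y, hy0, fun x => ?_⟩
      obtain ⟨u, rfl⟩ := π.subgroupMap_surjective U x
      have h6 := DFunLike.congr_fun hcomp u
      rw [MonoidHom.comp_apply] at h6
      rw [h6]
      exact hy u
    exact (Set.ncard_le_ncard h1 (Set.toFinite _)).trans (Set.ncard_image_le (Set.toFinite _))
  · rintro ⟨ν, hν⟩
    obtain ⟨y, hy0, hy⟩ := (mem_Lin_iff _ _ _).mp hν
    refine ⟨ν.comp (π.subgroupMap U), ?_⟩
    rw [mem_Lin_iff]
    exact ⟨y, hy0, fun u => hy (π.subgroupMap U u)⟩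

theorem of_fixed (π : S →* G) (hN : π.range.Normal) (hidx : ¬ p ∣ π.range.index) (U : Subgroup S)
    (hU : IsPGroup p U) (hUi : ¬ p ∣ U.index) (P : Sylow p G)
    (ρ : Representation ℂ G V) (hρ : ρ.IsIrreducible) (hd : p ∣ finrank ℂ V) (v : V) (hv : v ≠ 0)
    (hfix : ∀ s : S, ρ (π s) v = v) (hne : (Lin ρ (P : Subgroup G)).Nonempty) :
    p ≤ (Lin ρ (P : Subgroup G)).ncard := by
  have hp : p.Prime := Fact.out
  have hH : (Lin ρ π.range).Nonempty := by
    refine ⟨1, ?_⟩
    rw [mem_Lin_iff]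
    refine ⟨v, hv, ?_⟩
    rintro ⟨x, s, rfl⟩
    simpa using hfix s
  obtain ⟨g0, hg0⟩ := sylow_eq π hidx U hU hUi P
  have hPle : (P : Subgroup G) ≤ π.range := by
    rw [hg0, ← Subgroup.Normal.conj_smul_eq_self g0 π.range]
    exact Subgroup.pointwise_smul_le_pointwise_smul_iff.mpr (Subgroup.map_le_range π U)
  have hA := theoremA (P : Subgroup G) P.isPGroup' ρ hρ π.range hH 0 (fun g => by
    rw [Subgroup.Normal.conj_smul_eq_self g π.range, Subgroup.relIndex_eq_one.mpr
      ((Subgroup.commutator_le_self _).trans hPle)]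
    exact one_dvd _) hne
  rw [padicValNat.eq_zero_of_not_dvd P.not_dvd_index] at hA
  have hfin : finrank ℂ V ≠ 0 :=
    (Module.finrank_pos_iff_exists_ne_zero.mpr ⟨v, hv⟩).ne'
  have h1 : 1 ≤ padicValNat p (finrank ℂ V) := one_le_padicValNat_of_dvd hfin hd
  have h2 : (p - 1) * 1 ≤ (p - 1) * padicValNat p (finrank ℂ V) := Nat.mul_le_mul_left _ h1
  have h3 := hp.two_le
  omega

end Pool.Agent.H.MP_7d3ffc_al.DC
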