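import Pool.Agent.H.MP_7d3ffc_al.DC.Gen

/-!
# Module DC/Tor: diagonal matrices act on the linear constituents

* `tor`: `v` an eigenvector for `lam` (`mem_Lin_iff`), then `ρ t v` is one for
  `mu(u) = lam(t⁻¹ u t)`; `t = diagonal d` normalizes `UT`, and
  `t⁻¹ x_ij(a) t = x_ij((d i)⁻¹ a d j)`.
* `tor_one`: `f s` from `tor` with `d j = s`, `d k = s⁻¹`, `k` different from `i`, `j`, the other
  entries `1` (`diag2n`; `n ≥ 3`). Injective: `lam(x_ij(s a)) = lam(x_ij(s' a))` for all `a` gives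
  `lam(x_ij((s - s') a)) = 1` for all `a`, so `s = s'` by `hnt`.
* `tor_two`: let `i < i'`. If `i' = j` let `τ` have the entries `-1` in the positions `i`, `j` and
  `1` elsewhere. If `i' > j` and `n ≥ 5` let `τ` have `-1` in the positions `j'` and `k`, `k` different
  from `i`, `j`, `i'`, `j'`. If `i' > j` and `n = 4` (so `(i, j, i', j') = (0, 1, 2, 3)`), then
  `card F ≠ 3`; let `τ` have `c`, `c⁻¹` in the positions `i'`, `j'`, `c ^ 2 ≠ 1`. In all cases `τ_i = τ_j` and
  `τ_i' ≠ τ_j'`. The `2 (card F - 1)` characters obtained from `lam` by `t_s` and by `τ t_s`, where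
  `t_s` is as in `tor_one` for `(i, j)`, are different: compare them on `x_ij` (gives `s = s'`), then
  on `x_i'j'`.
-/

namespace Pool.Agent.H.MP_7d3ffc_al.DC

open Matrix Matrix.SpecialLinearGroup Pool.Agent.H.MP_7d3ffc_al

variable {n : ℕ} {F : Type*} [Field F] [Finite F] {V : Type*} [AddCommGroup V] [Module ℂ V]
    [FiniteDimensional ℂ V] (ρ : Representation ℂ (SpecialLinearGroup (Fin n) F) V)

private theorem Tor_inv {t : SpecialLinearGroup (Fin n) F} {d : Fin n → F}
    (ht : t.1 = Matrix.diagonal d) : (∀ i, d i ≠ 0) ∧ (t⁻¹).1 = Matrix.diagonal fun i => (d i)⁻¹ := by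
  have h0 : ∀ i, d i ≠ 0 := by
    intro i hi
    have h1 := t.2
    rw [ht, Matrix.det_diagonal] at h1
    rw [Finset.prod_eq_zero (Finset.mem_univ i) hi] at h1
    exact zero_ne_one h1
  refine ⟨h0, ?_⟩
  have h2 : t.1 * (t⁻¹).1 = 1 := congrArg Subtype.val (mul_inv_cancel t)
  have h3 : t.1 * (Matrix.diagonal fun i => (d i)⁻¹) = 1 := by
    rw [ht, Matrix.diagonal_mul_diagonal]
    rw [← Matrix.diagonal_one]
    congr 1
    funext i
    exact mul_inv_cancel₀ (h0 i)
  have h4 : (t⁻¹).1 * t.1 = 1 := congrArg Subtype.val (inv_mul_cancel t)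
  calc (t⁻¹).1 = (t⁻¹).1 * (t.1 * Matrix.diagonal fun i => (d i)⁻¹) := by rw [h3, mul_one]
    _ = Matrix.diagonal fun i => (d i)⁻¹ := by rw [← mul_assoc, h4, one_mul]

private theorem Tor_conj {t : SpecialLinearGroup (Fin n) F} {d : Fin n → F}
    (ht : t.1 = Matrix.diagonal d) (u : SpecialLinearGroup (Fin n) F) (i j : Fin n) :
    (t⁻¹ * u * t).1 i j = (d i)⁻¹ * u.1 i j * d j := by
  have h1 : (t⁻¹ * u * t).1 = (t⁻¹).1 * u.1 * t.1 := rfl
  rw [h1, (Tor_inv ht).2, ht, Matrix.mul_diagonal, Matrix.diagonal_mul]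

private theorem Tor_mem {t : SpecialLinearGroup (Fin n) F} {d : Fin n → F}
    (ht : t.1 = Matrix.diagonal d) {u : SpecialLinearGroup (Fin n) F} (hu : u ∈ UT n F) :
    t⁻¹ * u * t ∈ UT n F := by
  rw [mem_UT] at hu ⊢
  refine ⟨fun i j h => ?_, fun i => ?_⟩
  · rw [Tor_conj ht, hu.1 i j h, mul_zero, zero_mul]
  · rw [Tor_conj ht, hu.2 i, mul_one, inv_mul_cancel₀ ((Tor_inv ht).1 i)]

private theorem Tor_el {t : SpecialLinearGroup (Fin n) F} {d : Fin n → F}
    (ht : t.1 = Matrix.diagonal d) {i j : Fin n} (h : i < j) (a : F)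
    (hm : t⁻¹ * ((el h a : UT n F) : SpecialLinearGroup (Fin n) F) * t ∈ UT n F) :
    (⟨_, hm⟩ : UT n F) = el h ((d i)⁻¹ * a * d j) := by
  refine Subtype.ext (Subtype.ext ?_)
  ext r s
  rw [el_val]
  have h1 := Tor_conj ht ((el h a : UT n F) : SpecialLinearGroup (Fin n) F) r s
  refine h1.trans ?_
  rw [el_val, Matrix.transvection, Matrix.transvection, Matrix.add_apply, Matrix.add_apply]
  by_cases hrs : i = r ∧ j = s
  · obtain ⟨rfl, rfl⟩ := hrs
    rw [Matrix.one_apply_ne h.ne, Matrix.single_apply_same, Matrix.single_apply_same, zero_add,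
      zero_add]
  · rw [Matrix.single_apply_of_ne _ _ _ _ _ hrs, Matrix.single_apply_of_ne _ _ _ _ _ hrs,
      add_zero]
    by_cases hr : r = s
    · subst hr
      rw [Matrix.one_apply_eq, mul_one, inv_mul_cancel₀ ((Tor_inv ht).1 r)]
    · rw [Matrix.one_apply_ne hr, mul_zero, zero_mul]

theorem tor {lam : UT n F →* ℂˣ} (hlam : lam ∈ Lin ρ (UT n F))
    (t : SpecialLinearGroup (Fin n) F) (d : Fin n → F) (ht : t.1 = Matrix.diagonal d) :
    ∃ mu ∈ Lin ρ (UT n F), ∀ (i j : Fin n) (h : i < j) (a : F),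
      mu (el h a) = lam (el h ((d i)⁻¹ * a * d j)) := by
  obtain ⟨v, hv0, hv⟩ := (mem_Lin_iff ρ _ lam).1 hlam
  let φ : UT n F →* UT n F :=
    { toFun := fun u => ⟨t⁻¹ * u * t, Tor_mem ht u.2⟩
      map_one' := by
        refine Subtype.ext ?_
        simp
      map_mul' := fun u w => by
        refine Subtype.ext ?_
        simp [mul_assoc] }
  refine ⟨lam.comp φ, (mem_Lin_iff ρ _ _).2 ⟨ρ t v, fun h => hv0 ?_, fun u => ?_⟩,
    fun i j h a => ?_⟩
  · have h1 := congrArg (ρ t⁻¹) h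
    rw [map_zero, ← Module.End.mul_apply, ← map_mul, inv_mul_cancel, map_one] at h1
    exact h1
  · have h1 := hv (φ u)
    have h2 : ρ (u : SpecialLinearGroup (Fin n) F) (ρ t v) =
        ρ t (ρ ((φ u : UT n F) : SpecialLinearGroup (Fin n) F) v) := by
      have h3 : (u : SpecialLinearGroup (Fin n) F) * t =
          t * ((φ u : UT n F) : SpecialLinearGroup (Fin n) F) := by
        change (u : SpecialLinearGroup (Fin n) F) * t = t * (t⁻¹ * u * t)
        group
      rw [← Module.End.mul_apply, ← map_mul, h3, map_mul, Module.End.mul_apply]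
    rw [h2, h1, map_smul]
    rfl
  · have h1 : φ (el h a) = el h ((d i)⁻¹ * a * d j) := Tor_el ht h a (Tor_mem ht (el h a).2)
    rw [MonoidHom.comp_apply, h1]

private theorem Tor_third (hn : 3 ≤ n) (i j : Fin n) : ∃ k, k ≠ i ∧ k ≠ j := by
  classical
  have h1 : ({i, j} : Finset (Fin n)).card < (Finset.univ : Finset (Fin n)).card := by
    rw [Finset.card_univ, Fintype.card_fin]
    exact lt_of_le_of_lt Finset.card_le_two (by omega)
  obtain ⟨k, -, hk⟩ := Finset.exists_mem_notMem_of_card_lt_card h1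
  simp only [Finset.mem_insert, Finset.mem_singleton, not_or] at hk
  exact ⟨k, hk.1, hk.2⟩

private theorem Tor_fifth (hn : 5 ≤ n) (i j i' j' : Fin n) :
    ∃ k, k ≠ i ∧ k ≠ j ∧ k ≠ i' ∧ k ≠ j' := by
  classical
  have h1 : ({i, j, i', j'} : Finset (Fin n)).card < (Finset.univ : Finset (Fin n)).card := by
    rw [Finset.card_univ, Fintype.card_fin]
    exact lt_of_le_of_lt Finset.card_le_four (by omega)
  obtain ⟨k, -, hk⟩ := Finset.exists_mem_notMem_of_card_lt_card h1
  simp only [Finset.mem_insert, Finset.mem_singleton, not_or] at hk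
  exact ⟨k, hk.1, hk.2.1, hk.2.2.1, hk.2.2.2⟩

/-- two numbers which give the same translate of a nontrivial character are equal -/
private theorem Tor_eq {lam : UT n F →* ℂˣ} {i j : Fin n} {h : i < j}
    (hnt : ∃ a : F, lam (el h a) ≠ 1) {x y : F}
    (hxy : ∀ a : F, lam (el h (a * x)) = lam (el h (a * y))) : x = y := by
  by_contra hne
  obtain ⟨a, ha⟩ := hnt
  have h0 : x - y ≠ 0 := sub_ne_zero.2 hne
  apply ha
  have h1 : (el h a : UT n F) = el h (a / (x - y) * x) * (el h (a / (x - y) * y))⁻¹ := by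
    rw [el_inv, ← el_add]
    congr 1
    field_simp
    ring
  rw [h1, map_mul, map_inv, hxy, mul_inv_cancel]

theorem tor_one (hn : 3 ≤ n) {lam : UT n F →* ℂˣ} (hlam : lam ∈ Lin ρ (UT n F)) {i j : Fin n}
    (h : i < j) (hnt : ∃ a : F, lam (el h a) ≠ 1) :
    ∃ f : Fˣ → (UT n F →* ℂˣ), Function.Injective f ∧ (∀ s, f s ∈ Lin ρ (UT n F)) ∧
      (∀ s, ∃ a : F, f s (el h a) ≠ 1) ∧
      ∀ (s : Fˣ) (i' j' : Fin n) (h' : i' < j'), (∀ a : F, lam (el h' a) = 1) →
        ∀ a : F, f s (el h' a) = 1 := by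
  obtain ⟨k, hki, hkj⟩ := Tor_third hn i j
  choose f hf1 hf2 using fun s : Fˣ => tor ρ hlam (diag2n hkj.symm (s : F) s.ne_zero) _
    (diag2n_coe hkj.symm (s : F) s.ne_zero)
  have hf3 : ∀ (s : Fˣ) (a : F), f s (el h a) = lam (el h (a * s)) := by
    intro s a
    rw [hf2 s i j h a, if_neg h.ne, if_neg hki.symm, if_pos rfl, inv_one, one_mul]
  refine ⟨f, fun s s' hss => ?_, hf1, fun s => ?_, fun s i' j' h' hl a => ?_⟩
  · refine Units.ext (Tor_eq hnt fun a => ?_)
    rw [← hf3, ← hf3, hss]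
  · obtain ⟨a, ha⟩ := hnt
    refine ⟨a * (s : F)⁻¹, ?_⟩
    rw [hf3, inv_mul_cancel_right₀ s.ne_zero]
    exact ha
  · rw [hf2 s i' j' h' a]
    exact hl _

private theorem Tor_tau (h2 : (2 : F) ≠ 0)
    {i j i' j' : Fin n} (h43 : Nat.card F = 3 → n = 4 → i' = j) (h : i < j) (hs : (j : ℕ) = i + 1) (h' : i' < j')
    (hs' : (j' : ℕ) = i' + 1) (hii : i < i') :
    ∃ (t : SpecialLinearGroup (Fin n) F) (d : Fin n → F), t.1 = Matrix.diagonal d ∧ d i = d j ∧
      d i' ≠ d j' := by
  classical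
  have hm : (-1 : F) ≠ 1 := by
    intro h3
    apply h2
    rw [← one_add_one_eq_two]
    nth_rewrite 1 [← h3]
    exact neg_add_cancel 1
  by_cases h3 : i' = j
  · subst h3
    refine ⟨diag2n h.ne (-1) (neg_ne_zero.2 one_ne_zero), _, diag2n_coe _ _ _, ?_, ?_⟩
    · rw [if_pos rfl, if_neg h.ne', if_pos rfl, inv_neg, inv_one]
    · rw [if_neg h.ne', if_pos rfl, if_neg (h.trans h').ne', if_neg h'.ne', inv_neg, inv_one]
      exact hm
  · have h4 : j < i' := by
      have h5 : (i' : ℕ) ≠ j := fun h => h3 (Fin.ext h)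
      have h6 : (i : ℕ) < i' := hii
      exact Fin.lt_def.2 (by omega)
    by_cases hF : Nat.card F = 3
    · have hn5 : 5 ≤ n := by
        have h5 : n ≠ 4 := fun h5 => h3 (h43 hF h5)
        have h6 : (j : ℕ) < i' := h4
        have h7 := j'.2
        omega
      obtain ⟨k, k1, k2, k3, k4⟩ := Tor_fifth hn5 i j i' j'
      refine ⟨diag2n k4.symm (-1) (neg_ne_zero.2 one_ne_zero), _, diag2n_coe _ _ _, ?_, ?_⟩
      · rw [if_neg (h.trans (h4.trans h')).ne, if_neg k1.symm, if_neg (h4.trans h').ne,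
          if_neg k2.symm]
      · rw [if_neg h'.ne, if_neg k3.symm, if_pos rfl]
        exact hm.symm
    · have hc : ∃ c : F, c ≠ 0 ∧ c ≠ 1 ∧ c ≠ -1 := by
        by_contra hcon
        push Not at hcon
        apply hF
        have h5 : (Set.univ : Set F) = (({0, 1, -1} : Finset F) : Set F) := by
          ext c
          simp only [Set.mem_univ, Finset.coe_insert, Finset.coe_singleton, Set.mem_insert_iff,
            Set.mem_singleton_iff, true_iff]
          by_cases c0 : c = 0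
          · exact Or.inl c0
          · by_cases c1 : c = 1
            · exact Or.inr (Or.inl c1)
            · exact Or.inr (Or.inr (hcon c c0 c1))
        rw [← Set.ncard_univ, h5, Set.ncard_coe_finset, Finset.card_insert_of_notMem,
          Finset.card_insert_of_notMem, Finset.card_singleton]
        · simp only [Finset.mem_singleton]
          exact hm.symm
        · simp only [Finset.mem_insert, Finset.mem_singleton, not_or]
          exact ⟨zero_ne_one, fun h => one_ne_zero (neg_eq_zero.1 h.symm)⟩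
      obtain ⟨c, c0, c1, c2⟩ := hc
      refine ⟨diag2n h'.ne c c0, _, diag2n_coe _ _ _, ?_, ?_⟩
      · rw [if_neg hii.ne, if_neg (hii.trans h').ne, if_neg h4.ne, if_neg (h4.trans h').ne]
      · rw [if_pos rfl, if_neg h'.ne', if_pos rfl]
        intro h5
        have h6 : c * c = 1 := by
          nth_rewrite 2 [h5]
          exact mul_inv_cancel₀ c0
        rcases mul_self_eq_one_iff.1 h6 with h7 | h7
        · exact c1 h7
        · exact c2 h7

theorem tor_two (hn : 3 ≤ n) (h2 : (2 : F) ≠ 0)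
    {lam : UT n F →* ℂˣ} (hlam : lam ∈ Lin ρ (UT n F)) {i j i' j' : Fin n}
    (h43 : Nat.card F = 3 → n = 4 → i' = j) (h : i < j) (hs : (j : ℕ) = i + 1) (h' : i' < j') (hs' : (j' : ℕ) = i' + 1) (hii : i < i')
    (hnt : ∃ a : F, lam (el h a) ≠ 1) (hnt' : ∃ a : F, lam (el h' a) ≠ 1) :
    2 * (Nat.card F - 1) ≤ (Lin ρ (UT n F)).ncard := by
  classical
  obtain ⟨k, hki, hkj⟩ := Tor_third hn i j
  obtain ⟨τ, e, he, he1, he2⟩ := Tor_tau h2 h43 h hs h' hs' hii
  let ds : Fˣ → Fin n → F := fun s r => if r = j then (s : F) else if r = k then (s : F)⁻¹ else 1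
  have hds : ∀ s : Fˣ, (diag2n hkj.symm (s : F) s.ne_zero).1 = Matrix.diagonal (ds s) :=
    fun s => diag2n_coe hkj.symm (s : F) s.ne_zero
  have hd1 : ∀ s r, ds s r ≠ 0 := fun s => (Tor_inv (hds s)).1
  have he0 : ∀ r, e r ≠ 0 := (Tor_inv he).1
  have hτ : ∀ s : Fˣ, (τ * diag2n hkj.symm (s : F) s.ne_zero).1 =
      Matrix.diagonal (fun r => e r * ds s r) := by
    intro s
    have h1 : (τ * diag2n hkj.symm (s : F) s.ne_zero).1 =
      τ.1 * (diag2n hkj.symm (s : F) s.ne_zero).1 := rfl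
    rw [h1, he, hds, Matrix.diagonal_mul_diagonal]
  choose f hf1 hf2 using fun s : Fˣ => tor ρ hlam _ _ (hds s)
  choose g hg1 hg2 using fun s : Fˣ => tor ρ hlam _ _ (hτ s)
  have hdi : ∀ s, ds s i = 1 := fun s => by
    simp only [ds]
    rw [if_neg h.ne, if_neg hki.symm]
  have hdj : ∀ s, ds s j = s := fun s => if_pos rfl
  have hf3 : ∀ (s : Fˣ) (a : F), f s (el h a) = lam (el h (a * s)) := by
    intro s a
    rw [hf2 s i j h a, hdi, hdj, inv_one, one_mul]
  have hg3 : ∀ (s : Fˣ) (a : F), g s (el h a) = lam (el h (a * s)) := by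
    intro s a
    rw [hg2 s i j h a, hdi, hdj, he1]
    congr 2
    have := he0 j
    field_simp
  have hfs : ∀ s s' : Fˣ, (∀ a, lam (el h (a * (s : F))) = lam (el h (a * (s' : F)))) → s = s' :=
    fun s s' hss => Units.ext (Tor_eq hnt hss)
  have hfg : ∀ s s' : Fˣ, f s ≠ g s' := by
    intro s s' hss
    have h1 : s = s' := hfs s s' fun a => by rw [← hf3, ← hg3, hss]
    subst h1
    have h3 : (ds s i')⁻¹ * ds s j' = (e i' * ds s i')⁻¹ * (e j' * ds s j') := by
      refine Tor_eq hnt' fun a => ?_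
      have h4 := hf2 s i' j' h' a
      have h5 := hg2 s i' j' h' a
      rw [hss] at h4
      have h6 := h4.symm.trans h5
      have e1 : (ds s i')⁻¹ * a * ds s j' = a * ((ds s i')⁻¹ * ds s j') := by ring
      have e2 : (e i' * ds s i')⁻¹ * a * (e j' * ds s j') =
          a * ((e i' * ds s i')⁻¹ * (e j' * ds s j')) := by ring
      rw [e1, e2] at h6
      exact h6
    apply he2
    have a1 := hd1 s i'
    have a2 := hd1 s j'
    have a3 := he0 i'
    field_simp at h3
    exact h3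
  have hft : Function.Injective f := fun s s' hss => hfs s s' fun a => by rw [← hf3, ← hf3, hss]
  have hgt : Function.Injective g := fun s s' hss => hfs s s' fun a => by rw [← hg3, ← hg3, hss]
  have : Finite (UT n F →* ℂˣ) := inferInstance
  have hsub : Set.range f ∪ Set.range g ⊆ Lin ρ (UT n F) := by
    rintro μ (⟨s, rfl⟩ | ⟨s, rfl⟩)
    · exact hf1 s
    · exact hg1 s
  have hcF : Nat.card Fˣ = Nat.card F - 1 := Nat.card_units F
  have h5 : (Set.range f ∪ Set.range g).ncard = 2 * (Nat.card F - 1) := by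
    rw [Set.ncard_union_eq, Set.ncard_range_of_injective hft, Set.ncard_range_of_injective hgt,
      hcF, two_mul]
    rw [Set.disjoint_left]
    rintro μ ⟨s, rfl⟩ ⟨s', hs'⟩
    exact hfg s s' hs'.symm
  rw [← h5]
  exact Set.ncard_le_ncard hsub (Set.toFinite _)

end Pool.Agent.H.MP_7d3ffc_al.DC
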