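import Pool.Agent.H.MP_7d3ffc_al.DC.Fix
import Pool.Agent.H.MP_7d3ffc_al.DC.Adj
import Pool.Agent.H.MP_7d3ffc_al.DC.Tor
import Pool.Agent.H.MP_7d3ffc_al.DC.Glt
import Pool.Agent.H.MP_7d3ffc_al.DC.FourB
import Pool.Agent.H.MP_7d3ffc_al.DC.Syl
import Pool.Agent.H.MP_7d3ffc_al.DC.Red

/-!
# Module DC/Main: the defining characteristic
-/

namespace Pool.Agent.H.MP_7d3ffc_al.DC

open Matrix Matrix.SpecialLinearGroup Pool.Agent.H.MP_7d3ffc_al Module
open scoped Pointwise

section card

variable {P : Type*} [Group P] [Finite P]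

theorem Main_inj {α : Type*} (L : Set (P →* ℂˣ)) (f : α → (P →* ℂˣ)) (hf : Function.Injective f)
    (hL : ∀ a, f a ∈ L) : Nat.card α ≤ L.ncard := by
  have : Finite L := Set.toFinite L
  rw [← Nat.card_coe_set_eq]
  exact Nat.card_le_card_of_injective (fun a => (⟨f a, hL a⟩ : L))
    fun a b hab => hf (congrArg Subtype.val hab)

theorem Main_inj_two {α β : Type*} [Finite α] [Finite β] (L : Set (P →* ℂˣ)) (f : α → (P →* ℂˣ))
    (g : β → (P →* ℂˣ)) (hf : Function.Injective f) (hg : Function.Injective g)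
    (hfL : ∀ a, f a ∈ L) (hgL : ∀ a, g a ∈ L) (hfg : ∀ a b, f a ≠ g b) :
    Nat.card α + Nat.card β ≤ L.ncard := by
  rw [← Nat.card_sum]
  refine Main_inj L (Sum.elim f g) (hf.sumElim hg hfg) ?_
  rintro (a | b)
  · exact hfL a
  · exact hgL b

end card

variable {n : ℕ} {F : Type*} [Field F] [Finite F]

theorem Main_self_inv (lam : UT n F →* ℂˣ) (h3 : Nat.card F = 3) {i j : Fin n} (h : i < j) (a : F)
    (ha : lam (el h (-a)) = lam (el h a)) : lam (el h a) = 1 := by
  have h1 : (3 : F) = 0 := by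
    have := card_nsmul_eq_zero' (G := F) (x := 1)
    rw [h3] at this
    simpa using this
  have h2 : lam (el h a) * lam (el h a) * lam (el h a) = 1 := by
    rw [← map_mul, ← map_mul, ← el_add, ← el_add, show a + a + a = 3 * a by ring, h1, zero_mul,
      el_zero, map_one]
  have h4 : lam (el h a) * lam (el h a) = 1 := by
    nth_rewrite 1 [← ha]
    rw [← el_inv, map_inv, inv_mul_cancel]
  rwa [h4, one_mul] at h2

theorem Main_three {V : Type*} [AddCommGroup V] [Module ℂ V] [FiniteDimensional ℂ V]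
    (ρ : Representation ℂ (SpecialLinearGroup (Fin n) F) V) (hn4 : n = 4) (hc3 : Nat.card F = 3)
    (h43 : ∀ lam ∈ Lin ρ (UT n F), ∃ mu ∈ Lin ρ (UT n F),
      ∀ (i j : Fin n) (h : i < j) (a : F),
        mu (el h a) = lam (el h (if (j : ℕ) = 3 then -a else a)))
    {lam : UT n F →* ℂˣ} (hlam : lam ∈ Lin ρ (UT n F)) {i j i' j' : Fin n}
    (h : i < j) (hs : (j : ℕ) = i + 1) (h' : i' < j') (hs' : (j' : ℕ) = i' + 1) (hii : i < i')
    (hne : i' ≠ j) (hnt : ∃ a : F, lam (el h a) ≠ 1) (hnt' : ∃ a : F, lam (el h' a) ≠ 1) :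
    3 ≤ (Lin ρ (UT n F)).ncard := by
  classical
  have e1 : (i : ℕ) < i' := hii
  have e2 : (i' : ℕ) ≠ j := fun h0 => hne (Fin.ext h0)
  have e3 := j'.2
  have e4 : (j : ℕ) = 1 := by omega
  have e5 : (j' : ℕ) = 3 := by omega
  obtain ⟨mu, hmu, hmu1⟩ := h43 lam hlam
  obtain ⟨a, ha⟩ := hnt
  obtain ⟨b, hb⟩ := hnt'
  have hm1 : mu (el h a) = lam (el h a) := by
    rw [hmu1 i j h a, if_neg (by omega)]
  have hm2 : mu ≠ lam := by
    intro h0
    have h5 := hmu1 i' j' h' b
    rw [if_pos e5, h0] at h5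
    exact hb (Main_self_inv lam hc3 h' b h5.symm)
  obtain ⟨nu, hnu, hnu1⟩ := tor ρ hlam (diag2n hii.ne (-1) (neg_ne_zero.2 one_ne_zero)) _
    (diag2n_coe _ _ _)
  have hn1 : nu (el h a) ≠ lam (el h a) := by
    rw [hnu1 i j h a, if_pos rfl, if_neg h.ne', if_neg hne.symm, inv_neg, inv_one, mul_one,
      neg_one_mul]
    exact fun h0 => ha (Main_self_inv lam hc3 h a h0)
  refine (Set.two_lt_ncard_iff (Set.toFinite _)).2 ⟨lam, mu, nu, hlam, hmu, hnu, hm2.symm, ?_, ?_⟩
  · rintro rfl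
    exact hn1 rfl
  · rintro rfl
    exact hn1 hm1

theorem Main_four {V : Type*} [AddCommGroup V] [Module ℂ V] [FiniteDimensional ℂ V]
    (ρ : Representation ℂ (SpecialLinearGroup (Fin n) F) V) (hn4 : n = 4) (hc3 : Nat.card F = 3)
    (h2F : (2 : F) ≠ 0) (hρ : ρ.IsIrreducible) (hd : 3 ∣ finrank ℂ V)
    {lam : UT n F →* ℂˣ} (hlam : lam ∈ Lin ρ (UT n F)) {i j i' j' : Fin n}
    (h : i < j) (hs : (j : ℕ) = i + 1) (h' : i' < j') (hs' : (j' : ℕ) = i' + 1) (hii : i < i')
    (hne : i' ≠ j) (hnt : ∃ a : F, lam (el h a) ≠ 1) (hnt' : ∃ a : F, lam (el h' a) ≠ 1) :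
    3 ≤ (Lin ρ (UT n F)).ncard := by
  classical
  subst hn4
  have e1 : (i : ℕ) < i' := hii
  have e2 : (i' : ℕ) ≠ j := fun h0 => hne (Fin.ext h0)
  have e3 := j'.2
  obtain rfl : i = 0 := Fin.ext (by simp; omega)
  obtain rfl : j = 1 := Fin.ext (by simp; omega)
  obtain rfl : i' = 2 := Fin.ext (by simp; omega)
  obtain rfl : j' = 3 := Fin.ext (by simp; omega)
  have h12 : (1 : Fin 4) < 2 := by decide
  by_cases hmid : ∃ a : F, lam (el h12 a) ≠ 1
  · have h4 := tor_two ρ (by norm_num) h2F hlam (fun _ _ => rfl) h hs h12 rfl (by decide) hnt hmid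
    rw [hc3] at h4
    omega
  push Not at hmid
  obtain ⟨nu, hnu, hnu1⟩ := tor ρ hlam (diag2n hii.ne (-1) (neg_ne_zero.2 one_ne_zero)) _
    (diag2n_coe _ _ _)
  have hnul : nu = lam⁻¹ := by
    have h5 : nu * lam = 1 := by
      refine lam_one (nu * lam) fun r s hrs hrs1 a => ?_
      have h6 : nu (el hrs a) = lam (el hrs (-a)) := by
        rw [hnu1 r s hrs a]
        congr 2
        have e5 := s.2
        have e6 : (r : ℕ) = 0 ∨ (r : ℕ) = 1 ∨ (r : ℕ) = 2 := by omega
        rcases e6 with e6 | e6 | e6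
        · obtain rfl : r = 0 := Fin.ext e6
          obtain rfl : s = 1 := Fin.ext (by simp; omega)
          simp
        · obtain rfl : r = 1 := Fin.ext e6
          obtain rfl : s = 2 := Fin.ext (by simp; omega)
          simp
        · obtain rfl : r = 2 := Fin.ext e6
          obtain rfl : s = 3 := Fin.ext (by simp; omega)
          simp
      rw [MonoidHom.mul_apply, h6, ← map_mul, ← el_add, neg_add_cancel, el_zero, map_one]
    refine MonoidHom.ext fun u => ?_
    have h6 : nu u * lam u = 1 := by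
      rw [← MonoidHom.mul_apply, h5, MonoidHom.one_apply]
    exact eq_inv_of_mul_eq_one_left h6
  have hne1 : lam ≠ lam⁻¹ := by
    intro h0
    obtain ⟨a, ha⟩ := hnt
    apply ha
    refine Main_self_inv lam hc3 h a ?_
    rw [← el_inv, map_inv]
    conv_rhs => rw [h0]
    rfl
  by_contra hlt
  have hlt2 : (Lin ρ (UT 4 F)).ncard ≤ 2 := by omega
  rw [hnul] at hnu
  refine four hc3 ρ hρ lam hlam hnu (fun mu hmu => ?_) hnt hmid hnt' hd
  by_contra hcon
  push Not at hcon
  have h7 : 2 < (Lin ρ (UT 4 F)).ncard :=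
    (Set.two_lt_ncard_iff (Set.toFinite _)).2
      ⟨lam, lam⁻¹, mu, hlam, hnu, hmu, hne1, hcon.1.symm, hcon.2.symm⟩
  omega

theorem slmain {p : ℕ} [Fact p.Prime] [CharP F p] (hn : 3 ≤ n) (hq2 : Nat.card F ≠ 2)
    {V : Type*} [AddCommGroup V] [Module ℂ V] [FiniteDimensional ℂ V]
    (ρ : Representation ℂ (SpecialLinearGroup (Fin n) F) V)
    (h43 : Nat.card F = 3 → n = 4 → (ρ.IsIrreducible ∧ p ∣ finrank ℂ V) ∨
      ∀ lam ∈ Lin ρ (UT n F), ∃ mu ∈ Lin ρ (UT n F), ∀ (i j : Fin n) (h : i < j) (a : F),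
        mu (el h a) = lam (el h (if (j : ℕ) = 3 then -a else a)))
    (hfix : ∀ v : V, (∀ g, ρ g v = v) → v = 0) (hne : (Lin ρ (UT n F)).Nonempty) :
    p ≤ (Lin ρ (UT n F)).ncard := by
  classical
  have hp : p.Prime := Fact.out
  obtain ⟨lam, hlam, hl1⟩ := exists_nontrivial (by omega : 2 ≤ n) ρ hfix hne
  obtain ⟨i, j, h, hs, hnt⟩ : ∃ (i j : Fin n) (h : i < j), (j : ℕ) = i + 1 ∧
      ∃ a : F, lam (el h a) ≠ 1 := by
    by_contra hcon
    push Not at hcon
    exact hl1 (lam_one lam fun i j h hs a => hcon i j h hs a)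
  obtain ⟨f, hf1, hf2, hf3, hf4⟩ := tor_one ρ hn hlam h hnt
  have hu : Nat.card Fˣ = Nat.card F - 1 := Nat.card_units F
  have hfin : Fintype F := Fintype.ofFinite F
  obtain ⟨m, hmp, hm⟩ := FiniteField.card F p
  rw [← Nat.card_eq_fintype_card] at hm
  by_cases hqp : Nat.card F = p
  · -- prime field
    have hp2 : p ≠ 2 := fun h0 => hq2 (hqp.trans h0)
    have hp3 : 3 ≤ p := by
      have := hp.two_le
      omega
    have h2F : (2 : F) ≠ 0 := by
      intro h0
      have h3 : p ∣ 2 := (CharP.cast_eq_zero_iff F p 2).1 (by exact_mod_cast h0)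
      exact hp2 ((Nat.prime_dvd_prime_iff_eq hp Nat.prime_two).1 h3)
    have key : 2 * (Nat.card F - 1) ≤ (Lin ρ (UT n F)).ncard → p ≤ (Lin ρ (UT n F)).ncard := by
      intro h0
      rw [hqp] at h0
      omega
    by_cases hone : ∀ (r s : Fin n) (h : r < s), (s : ℕ) = r + 1 → r ≠ i →
        ∀ a : F, lam (el h a) = 1
    · -- lam is supported on one simple root
      apply key
      -- it is enough to find a second type
      have fin : ∀ (i' j' : Fin n) (h' : i' < j'), (j' : ℕ) = i' + 1 → i' ≠ i →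
          ∀ mu ∈ Lin ρ (UT n F), (∃ a : F, mu (el h' a) ≠ 1) →
          (∀ (r s : Fin n) (h : r < s), (s : ℕ) = r + 1 → r ≠ i' → ∀ a : F, mu (el h a) = 1) →
          2 * (Nat.card F - 1) ≤ (Lin ρ (UT n F)).ncard := by
        intro i' j' h' hs' hii mu hmu hmnt hmone
        obtain ⟨g, hg1, hg2, hg3, hg4⟩ := tor_one ρ hn hmu h' hmnt
        have h5 := Main_inj_two (Lin ρ (UT n F)) f g hf1 hg1 hf2 hg2 (by
          intro s s' hss
          obtain ⟨a, ha⟩ := hf3 s
          exact ha (by rw [hss]; exact hg4 s' i j h (hmone i j h hs (Ne.symm hii)) a))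
        rw [hu] at h5
        omega
      obtain ⟨i', j', h', hs', hii⟩ : ∃ (i' j' : Fin n) (_ : i' < j'), (j' : ℕ) = i' + 1 ∧
          ((i' : ℕ) = i + 1 ∨ (i : ℕ) = i' + 1) := by
        by_cases hj : (j : ℕ) + 1 < n
        · exact ⟨j, ⟨j + 1, hj⟩, by rw [Fin.lt_def]; simp, rfl, Or.inl hs⟩
        · have hi : 1 ≤ (i : ℕ) := by
            have := j.2
            omega
          have hi' := i.2
          refine ⟨⟨i - 1, by omega⟩, i, ?_, ?_, Or.inr ?_⟩
          · rw [Fin.lt_def]
            simp only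
            omega
          · simp only
            omega
          · simp only
            omega
      obtain ⟨mu, hmu, hmnt, hmone⟩ := adj_char ρ h hs h' hs' hii hlam hnt hone
      refine fin i' j' h' hs' ?_ mu hmu hmnt hmone
      rintro rfl
      omega
    · -- two simple roots in the support
      push Not at hone
      obtain ⟨i', j', h', hs', hii, hnt'⟩ := hone
      rcases lt_or_gt_of_ne hii with h0 | h0
      · by_cases hex : Nat.card F = 3 → n = 4 → i = j'
        · exact key (tor_two ρ hn h2F hlam hex h' hs' h hs h0 hnt' hnt)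
        · push Not at hex
          obtain ⟨hc3, hn4, hne'⟩ := hex
          have hp3' : p = 3 := hqp.symm.trans hc3
          rcases h43 hc3 hn4 with h9 | h9
          · rw [hp3'] at h9 ⊢
            exact Main_four ρ hn4 hc3 h2F h9.1 h9.2 hlam h' hs' h hs h0 hne' hnt' hnt
          · rw [hp3']
            exact Main_three ρ hn4 hc3 h9 hlam h' hs' h hs h0 hne' hnt' hnt
      · by_cases hex : Nat.card F = 3 → n = 4 → i' = j
        · exact key (tor_two ρ hn h2F hlam hex h hs h' hs' h0 hnt hnt')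
        · push Not at hex
          obtain ⟨hc3, hn4, hne'⟩ := hex
          have hp3' : p = 3 := hqp.symm.trans hc3
          rcases h43 hc3 hn4 with h9 | h9
          · rw [hp3'] at h9 ⊢
            exact Main_four ρ hn4 hc3 h2F h9.1 h9.2 hlam h hs h' hs' h0 hne' hnt hnt'
          · rw [hp3']
            exact Main_three ρ hn4 hc3 h9 hlam h hs h' hs' h0 hne' hnt hnt'
  · have h5 := Main_inj (Lin ρ (UT n F)) f hf1 hf2
    rw [hu] at h5
    have h6 : 2 ≤ (m : ℕ) := by
      by_contra h7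
      have h8 : (m : ℕ) = 1 := le_antisymm (Nat.lt_succ_iff.1 (not_le.1 h7)) m.pos
      rw [h8, pow_one] at hm
      exact hqp hm
    have h9 : p ^ 2 ≤ Nat.card F := by
      rw [hm]
      exact Nat.pow_le_pow_right hp.pos h6
    have h10 := hp.two_le
    have h11 : p + 1 ≤ p ^ 2 := by nlinarith
    omega

/-- for `n ≤ 2` the unitriangular group is commutative -/
theorem Main_comm (hn : n ≤ 2) (u v : SpecialLinearGroup (Fin n) F) (hu : u ∈ UT n F)
    (hv : v ∈ UT n F) : u * v = v * u := by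
  rw [mem_UT] at hu hv
  refine Subtype.ext ?_
  change u.1 * v.1 = v.1 * u.1
  ext i j
  rw [Matrix.mul_apply, Matrix.mul_apply]
  rcases lt_trichotomy i j with h | h | h
  · have h1 : ∀ k : Fin n, k = i ∨ k = j := by
      intro k
      have e1 : (i : ℕ) < j := h
      have e2 := j.2
      have e3 := k.2
      rcases Nat.eq_zero_or_pos (k : ℕ) with h4 | h4
      · exact Or.inl (Fin.ext (by omega))
      · exact Or.inr (Fin.ext (by omega))
    have h2 : (Finset.univ : Finset (Fin n)) = {i, j} := by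
      ext k
      simp only [Finset.mem_univ, Finset.mem_insert, Finset.mem_singleton, true_iff]
      exact h1 k
    rw [h2, Finset.sum_pair h.ne, Finset.sum_pair h.ne, hu.2, hu.2, hv.2, hv.2]
    ring
  · subst h
    refine Finset.sum_congr rfl fun k _ => ?_
    rcases lt_trichotomy i k with h | h | h
    · rw [hv.1 k i h, hu.1 k i h]
      ring
    · rw [h]
      ring
    · rw [hu.1 i k h, hv.1 i k h]
      ring
  · refine Finset.sum_congr rfl fun k _ => ?_
    have e1 : (j : ℕ) < i := h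
    have e2 := i.2
    have e3 := k.2
    rcases Nat.eq_zero_or_pos (k : ℕ) with h4 | h4
    · rw [hu.1 i k (by rw [Fin.lt_def]; omega), hv.1 i k (by rw [Fin.lt_def]; omega)]
      ring
    · rw [hu.1 k j (by rw [Fin.lt_def]; omega), hv.1 k j (by rw [Fin.lt_def]; omega)]
      ring

/-- a Sylow subgroup with trivial commutator subgroup -/
theorem Main_abelian {G : Type*} [Group G] [Finite G] {V : Type*} [AddCommGroup V] [Module ℂ V]
    [FiniteDimensional ℂ V] {p : ℕ} [Fact p.Prime] (P : Sylow p G)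
    (hc : ⁅(P : Subgroup G), (P : Subgroup G)⁆ = ⊥)
    (ρ : Representation ℂ G V) (hρ : ρ.IsIrreducible) (hd : p ∣ finrank ℂ V)
    (hne : (Lin ρ (P : Subgroup G)).Nonempty) : p ≤ (Lin ρ (P : Subgroup G)).ncard := by
  have hp : p.Prime := Fact.out
  have h1 := theoremA (P : Subgroup G) P.isPGroup' ρ hρ (P : Subgroup G) hne 0 (fun g => by
    rw [hc, Subgroup.relIndex_bot_right, pow_zero]) hne
  have h2 : padicValNat p (P : Subgroup G).index = 0 :=
    padicValNat.eq_zero_of_not_dvd P.not_dvd_index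
  have h3 : 1 ≤ padicValNat p (finrank ℂ V) := by
    refine one_le_padicValNat_of_dvd ?_ hd
    intro h0
    obtain ⟨lam, hlam⟩ := hne
    obtain ⟨y, hy0, _⟩ := (mem_Lin_iff ρ _ lam).mp hlam
    have : Subsingleton V := (finrank_zero_iff (R := ℂ) (M := V)).mp h0
    exact hy0 (Subsingleton.elim _ _)
  rw [h2] at h1
  have h4 : (p - 1) * 1 ≤ (p - 1) * padicValNat p (finrank ℂ V) := Nat.mul_le_mul_left _ h3
  have := hp.two_le
  omega

/-- irreducibility is preserved under surjective homomorphisms -/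
theorem Main_comp {S G : Type*} [Group S] [Group G] {V : Type*} [AddCommGroup V] [Module ℂ V]
    (π : S →* G) (hπ : Function.Surjective π) (ρ : Representation ℂ G V) (hρ : ρ.IsIrreducible)
    (σ : Representation ℂ S V) (hσ : ∀ s, σ s = ρ (π s)) : σ.IsIrreducible := by
  let f : Subrepresentation ρ ≃o Subrepresentation σ :=
    { toFun := fun W => ⟨W.toSubmodule, fun s v hv => by
        rw [hσ]
        exact W.apply_mem_toSubmodule _ hv⟩
      invFun := fun W => ⟨W.toSubmodule, fun g v hv => by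
        obtain ⟨s, rfl⟩ := hπ g
        rw [← hσ]
        exact W.apply_mem_toSubmodule _ hv⟩
      left_inv := fun W => rfl
      right_inv := fun W => rfl
      map_rel_iff' := Iff.rfl }
  exact (OrderIso.isSimpleOrder_iff f).1 hρ

theorem main {p : ℕ} [Fact p.Prime] [CharP F p] {G : Type*} [Group G] [Finite G]
    (π : SpecialLinearGroup (Fin n) F →* G) (hN : π.range.Normal) (hidx : ¬ p ∣ π.range.index)
    (hq2 : Nat.card F = 2 → n ≤ 2)
    (hq3 : Nat.card F = 3 → n = 4 → Function.Surjective π ∨ ∃ π' : GL (Fin n) F →* G,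
      ∀ s : SpecialLinearGroup (Fin n) F, π' (toGL s) = π s)
    {V : Type*} [AddCommGroup V] [Module ℂ V] [FiniteDimensional ℂ V]
    (P : Sylow p G) (ρ : Representation ℂ G V) (hρ : ρ.IsIrreducible) (hd : p ∣ finrank ℂ V)
    (hne : (Lin ρ (P : Subgroup G)).Nonempty) : p ≤ (Lin ρ (P : Subgroup G)).ncard := by
  have hU : IsPGroup p (UT n F) := UT_pgroup
  have hUi : ¬ p ∣ (UT n F).index := UT_index
  obtain ⟨g, hg⟩ := sylow_eq π hidx (UT n F) hU hUi P
  rcases le_or_gt n 2 with hn | hn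
  · refine Main_abelian P ?_ ρ hρ hd hne
    rw [Subgroup.commutator_eq_bot_iff_le_centralizer, hg]
    rintro x hx y hy
    obtain ⟨x', hx', rfl⟩ := Subgroup.mem_smul_pointwise_iff_exists _ _ _ |>.1 hx
    obtain ⟨y', hy', rfl⟩ := Subgroup.mem_smul_pointwise_iff_exists _ _ _ |>.1 hy
    obtain ⟨u, hu, rfl⟩ := Subgroup.mem_map.1 hx'
    obtain ⟨w, hw, rfl⟩ := Subgroup.mem_map.1 hy'
    rw [MulAut.smul_def, MulAut.smul_def, ← map_mul, ← map_mul, ← map_mul, ← map_mul,
      Main_comm hn u w hu hw]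
  · by_cases hfix : ∀ v : V, (∀ s : SpecialLinearGroup (Fin n) F, ρ (π s) v = v) → v = 0
    · have h1 := lin_map ρ π (UT n F)
      have h2 : (Lin ρ ((UT n F).map π)).Nonempty := nonempty_conj ρ g _ (by rwa [← hg])
      have h3 : p ≤ (Lin (ρ.comp π : Representation ℂ (SpecialLinearGroup (Fin n) F) V)
          (UT n F)).ncard := by
        refine slmain (by omega) (fun h => absurd (hq2 h) (by omega)) _ ?_ hfix (h1.2 h2)
        intro hc3 hn4
        rcases hq3 hc3 hn4 with hsur | ⟨π', hπ'⟩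
        · exact Or.inl ⟨Main_comp π hsur ρ hρ _ fun _ => rfl, hd⟩
        refine Or.inr fun lam hlam => ?_
        obtain ⟨mu, hmu, hmu1⟩ := gl_tor ρ π π' hπ'
          (fun i : Fin n => if (i : ℕ) = 3 then -1 else 1) hlam
        refine ⟨mu, hmu, fun i j h a => ?_⟩
        rw [hmu1 i j h a]
        have e1 : (i : ℕ) < j := h
        have e2 := j.2
        rw [if_neg (by omega)]
        by_cases h5 : (j : ℕ) = 3
        · rw [if_pos h5, if_pos h5]
          simp
        · rw [if_neg h5, if_neg h5]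
          simp
      rw [hg, ncard_conj]
      exact h3.trans h1.1
    · push Not at hfix
      obtain ⟨v, hv, hv0⟩ := hfix
      exact of_fixed π hN hidx (UT n F) hU hUi P ρ hρ hd v hv0 hv hne

end Pool.Agent.H.MP_7d3ffc_al.DC
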