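import Pool.Agent.H.MP_7d3ffc_al.TraceE

/-!
# Module DC/PiA: dimensions of the constituents of the restriction to a normal subgroup

`N` is a normal subgroup of the finite group `G`, `ρ` an irreducible representation of `G` on `V`, `σ` an
irreducible representation of `N` on `W`, `ι : W → V` and `q0 : V → W` nonzero `N`-equivariant maps, `v` a
valuation on `ℂ`. Claim `rel_int` (module DC/PiC): `v(|G:N|) v(dim W) ≤ v(dim V)`.

`TwE σ g A` means `A (σ n x) = σ (g n g⁻¹) (A x)`. All is elementary: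
* `twE_mul`, `twE_inv`: computation.
* `twE_zero_or`: kernel and range of `B` are `N`-stable (`B x = 0 → B (σ n x) = σ(gng⁻¹)(B x) = 0`; and
  `σ m (B x) = B (σ (g⁻¹ m g) x)`), so `B` is `0` or bijective (irreducibility of `σ`:
  subrepresentations are `⊥` or `⊤`).
* `twE_unique`: `A⁻¹ ∘ B` commutes with all `σ n` (`TwE σ 1`), so it is a scalar (Schur:
  `Representation.IsIrreducible.algebraMap_intertwiningMap_bijective_of_isAlgClosed`, see the use in
  `schur_general` in module TraceE).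
* `exists_w`: for `g` such that a nonzero `B` with `TwE σ g B` exists, `B` is bijective; multiply it by a
  scalar `c` with `c ^ (dim W) = (det B)⁻¹` (`IsAlgClosed.exists_pow_nat_eq`; `dim W > 0` because `σ` is
  irreducible; `LinearMap.det_smul`): the determinant is `1`. For the other `g` take the identity.
* `w_mul`: if `TwE σ g (w g)`, `TwE σ h (w h)` then `TwE σ (g*h) (w (g*h))` and
  `w g ∘ w h = α • w (g*h)` with `α ^ (dim W) = 1` by the determinants, so `v α = 1`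
  (`val_rootOfUnity`).
-/

namespace Pool.Agent.H.MP_7d3ffc_al.DC

open Pool.Agent.H.MP_7d3ffc_al Module

variable {G : Type*} [Group G] {V : Type*} [AddCommGroup V] [Module ℂ V]
  {W : Type*} [AddCommGroup W] [Module ℂ W] {N : Subgroup G} [N.Normal]
  {Γ₀ : Type*} [LinearOrderedCommGroupWithZero Γ₀]

/-- `A` intertwines `σ` and its conjugate by `g` -/
def TwE (σ : Representation ℂ N W) (g : G) (A : W →ₗ[ℂ] W) : Prop :=
  ∀ (n : N) (x : W), A (σ n x) = σ (MulAut.conjNormal g n) (A x)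

theorem PiA_c (g : G) (n : N) : MulAut.conjNormal g (MulAut.conjNormal g⁻¹ n) = n := by
  rw [← MulAut.mul_apply, ← map_mul, mul_inv_cancel, map_one, MulAut.one_apply]

theorem PiA_sub {σ : Representation ℂ N W} (hσ : σ.IsIrreducible) (M : Submodule ℂ W)
    (hM : ∀ (n : N) (x : W), x ∈ M → σ n x ∈ M) : M = ⊥ ∨ M = ⊤ := by
  rcases hσ.eq_bot_or_eq_top ⟨M, fun n x hx => hM n x hx⟩ with h | h
  · exact Or.inl (congrArg Subrepresentation.toSubmodule h)
  · exact Or.inr (congrArg Subrepresentation.toSubmodule h)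

theorem PiA_ne {σ : Representation ℂ N W} (hσ : σ.IsIrreducible) : ∃ x : W, x ≠ 0 := by
  by_contra hcon
  push Not at hcon
  have h1 : (⊥ : Subrepresentation σ) = ⊤ := by
    refine Subrepresentation.toSubmodule_injective ?_
    ext x
    rw [hcon x]
    exact ⟨fun _ => Submodule.zero_mem _, fun _ => Submodule.zero_mem _⟩
  have := hσ.toNontrivial
  exact bot_ne_top h1

theorem twE_mul {σ : Representation ℂ N W} {g h : G} {A B : W →ₗ[ℂ] W} (hA : TwE σ g A)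
    (hB : TwE σ h B) : TwE σ (g * h) (A ∘ₗ B) := by
  intro n x
  rw [LinearMap.comp_apply, hB, hA, map_mul, MulAut.mul_apply, LinearMap.comp_apply]

theorem twE_inv {σ : Representation ℂ N W} {g : G} {A : W ≃ₗ[ℂ] W}
    (hA : TwE σ g (A : W →ₗ[ℂ] W)) : TwE σ g⁻¹ (A.symm : W →ₗ[ℂ] W) := by
  intro n x
  refine A.injective ?_
  have h1 := hA (MulAut.conjNormal g⁻¹ n) (A.symm x)
  rw [PiA_c] at h1
  have h2 : A (A.symm (σ n x)) = σ n x := A.apply_symm_apply _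
  have h3 : A (σ (MulAut.conjNormal g⁻¹ n) (A.symm x)) = σ n (A (A.symm x)) := h1
  show A (A.symm (σ n x)) = A (σ (MulAut.conjNormal g⁻¹ n) (A.symm x))
  rw [h2, h3, A.apply_symm_apply]

theorem twE_zero_or {σ : Representation ℂ N W} (hσ : σ.IsIrreducible) {g : G} {B : W →ₗ[ℂ] W}
    (hB : TwE σ g B) : B = 0 ∨ Function.Bijective B := by
  rcases PiA_sub hσ (LinearMap.ker B) (by
    intro n x hx
    rw [LinearMap.mem_ker] at hx ⊢
    rw [hB, hx, map_zero]) with h | h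
  · rcases PiA_sub hσ (LinearMap.range B) (by
      rintro n _ ⟨y, rfl⟩
      refine ⟨σ (MulAut.conjNormal g⁻¹ n) y, ?_⟩
      rw [hB, PiA_c]) with h' | h'
    · exact Or.inl (LinearMap.range_eq_bot.1 h')
    · exact Or.inr ⟨LinearMap.ker_eq_bot.1 h, LinearMap.range_eq_top.1 h'⟩
  · exact Or.inl (LinearMap.ker_eq_top.1 h)

theorem twE_unique [FiniteDimensional ℂ W] {σ : Representation ℂ N W} (hσ : σ.IsIrreducible)
    {g : G} {A : W ≃ₗ[ℂ] W} (hA : TwE σ g (A : W →ₗ[ℂ] W)) {B : W →ₗ[ℂ] W} (hB : TwE σ g B) :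
    ∃ β : ℂ, B = β • (A : W →ₗ[ℂ] W) := by
  have h1 := twE_mul (twE_inv hA) hB
  rw [inv_mul_cancel] at h1
  have hcomm : ∀ (n : N) (x : W), ((A.symm : W →ₗ[ℂ] W) ∘ₗ B) (σ n x) =
      σ n (((A.symm : W →ₗ[ℂ] W) ∘ₗ B) x) := by
    intro n x
    rw [h1 n x, map_one, MulAut.one_apply]
  obtain ⟨c, hc⟩ :=
    (Representation.IsIrreducible.algebraMap_intertwiningMap_bijective_of_isAlgClosed
      (ρ := σ)).2 (((A.symm : W →ₗ[ℂ] W) ∘ₗ B).intertwiningMap_of_isIntertwiningMap σ σ hcomm)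
  refine ⟨c, ?_⟩
  ext x
  have h2 : A.symm (B x) = c • x := by
    have h3 : (((A.symm : W →ₗ[ℂ] W) ∘ₗ B).intertwiningMap_of_isIntertwiningMap σ σ hcomm) x =
        A.symm (B x) := rfl
    rw [← h3, ← hc]
    rfl
  have h4 := congrArg A h2
  rw [A.apply_symm_apply, map_smul] at h4
  exact h4

theorem exists_w [FiniteDimensional ℂ W] {σ : Representation ℂ N W} (hσ : σ.IsIrreducible) :
    ∃ w : G → (W ≃ₗ[ℂ] W), (∀ g, LinearMap.det (w g : W →ₗ[ℂ] W) = 1) ∧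
      ∀ (g : G) (B : W →ₗ[ℂ] W), TwE σ g B → B ≠ 0 → TwE σ g (w g : W →ₗ[ℂ] W) := by
  classical
  have key : ∀ g : G, ∃ A : W ≃ₗ[ℂ] W, LinearMap.det (A : W →ₗ[ℂ] W) = 1 ∧
      ∀ B : W →ₗ[ℂ] W, TwE σ g B → B ≠ 0 → TwE σ g (A : W →ₗ[ℂ] W) := by
    intro g
    by_cases hex : ∃ B : W →ₗ[ℂ] W, TwE σ g B ∧ B ≠ 0
    · obtain ⟨B, hB, hB0⟩ := hex
      have hbij := (twE_zero_or hσ hB).resolve_left hB0
      have hn : 0 < finrank ℂ W := by
        rw [Module.finrank_pos_iff_exists_ne_zero]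
        exact PiA_ne hσ
      obtain ⟨e, he⟩ : ∃ e : W ≃ₗ[ℂ] W, (e : W →ₗ[ℂ] W) = B :=
        ⟨LinearEquiv.ofBijective B hbij, rfl⟩
      have hdet : LinearMap.det B ≠ 0 := by
        rw [← he]
        exact (LinearEquiv.isUnit_det' e).ne_zero
      obtain ⟨c, hc⟩ := IsAlgClosed.exists_pow_nat_eq (LinearMap.det B)⁻¹ hn
      have hc0 : c ≠ 0 := by
        intro h
        rw [h, zero_pow hn.ne'] at hc
        exact inv_ne_zero hdet hc.symm
      obtain ⟨A, hA⟩ : ∃ A : W ≃ₗ[ℂ] W, (A : W →ₗ[ℂ] W) = c • B := by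
        refine ⟨e.trans (LinearEquiv.smulOfNeZero ℂ W c hc0), ?_⟩
        ext x
        show c • e x = c • B x
        rw [← he]
        rfl
      refine ⟨A, ?_, fun _ _ _ => ?_⟩
      · rw [hA, LinearMap.det_smul, hc, inv_mul_cancel₀ hdet]
      · intro n x
        rw [hA, LinearMap.smul_apply, LinearMap.smul_apply, hB, map_smul]
    · refine ⟨LinearEquiv.refl ℂ W, ?_, fun B hB hB0 => absurd ⟨B, hB, hB0⟩ hex⟩
      have h1 : ((LinearEquiv.refl ℂ W : W ≃ₗ[ℂ] W) : W →ₗ[ℂ] W) = LinearMap.id := rfl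
      rw [h1, LinearMap.det_id]
  choose w hw using key
  exact ⟨w, fun g => (hw g).1, fun g => (hw g).2⟩

theorem w_mul [FiniteDimensional ℂ W] (v : Valuation ℂ Γ₀) {σ : Representation ℂ N W}
    (hσ : σ.IsIrreducible) (w : G → (W ≃ₗ[ℂ] W))
    (hw : ∀ g, LinearMap.det (w g : W →ₗ[ℂ] W) = 1)
    (hw' : ∀ (g : G) (B : W →ₗ[ℂ] W), TwE σ g B → B ≠ 0 → TwE σ g (w g : W →ₗ[ℂ] W)) {g h : G}
    (hg : TwE σ g (w g : W →ₗ[ℂ] W)) (hh : TwE σ h (w h : W →ₗ[ℂ] W)) :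
    TwE σ (g * h) (w (g * h) : W →ₗ[ℂ] W) ∧
      ∃ α : ℂ, v α = 1 ∧ (w g : W →ₗ[ℂ] W) ∘ₗ (w h : W →ₗ[ℂ] W) =
        α • (w (g * h) : W →ₗ[ℂ] W) := by
  have hm := twE_mul hg hh
  have hne : (w g : W →ₗ[ℂ] W) ∘ₗ (w h : W →ₗ[ℂ] W) ≠ 0 := by
    intro h0
    obtain ⟨x, hx⟩ := PiA_ne hσ
    have h1 : w g (w h x) = 0 := congrArg (fun f : W →ₗ[ℂ] W => f x) h0
    exact hx ((w h).map_eq_zero_iff.1 ((w g).map_eq_zero_iff.1 h1))
  have hgh := hw' (g * h) _ hm hne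
  refine ⟨hgh, ?_⟩
  obtain ⟨β, hβ⟩ := twE_unique hσ hgh hm
  refine ⟨β, ?_, hβ⟩
  have hn : 0 < finrank ℂ W := by
    rw [Module.finrank_pos_iff_exists_ne_zero]
    exact PiA_ne hσ
  refine val_rootOfUnity v hn.ne' ?_
  have h1 := congrArg LinearMap.det hβ
  rw [LinearMap.det_comp, LinearMap.det_smul, hw, hw, hw, mul_one, mul_one] at h1
  exact h1.symm

end Pool.Agent.H.MP_7d3ffc_al.DC
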