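import Pool.Agent.H.MP_7d3ffc_al.ThmA

/-!
# Module DC/PiB: an irreducible constituent of the restriction which sees a given vector

`N` is a subgroup of the finite group `G`, `ρ` a representation of `G` on `V`, `y ≠ 0` a vector.
`exists_constituent`: let `τ` be the restriction of `ρ` to `N`. Subrepresentations of `τ` have
complements (Maschke: Mathlib has `ComplementedLattice (Subrepresentation τ)`, files
`Mathlib/RepresentationTheory/Maschke.lean` and `Semisimple.lean`). Let `A` be a subrepresentation of `τ` of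
maximal dimension which does not contain `y` (`⊥` does not contain `y`; the dimension is at most
`finrank V`), `W` a complement of `A`, `y = a + c` with `a ∈ A`, `c ∈ W`; `c ≠ 0`. `W` is simple: it is not
`0`; let `0 ≠ C < W` be a subrepresentation and `C'` a complement of `C` in `W` (take a complement `D`
of `C` in `V` and `C' = D ⊓ W`: modular law), `C' ≠ 0`. `A ⊔ C` and `A ⊔ C'` are larger than `A`, so both
contain `y`; so `c ∈ C` and `c ∈ C'` (the component of `y` in `W` along `A`: if `y = a' + c'` with `c' ∈ C ≤ W`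
then `c' = c`), so `c = 0`, a contradiction. `q0` is the projection to `W` along `A`
(`Submodule.linearProjOfIsCompl` or its new name `Submodule.projectionOnto...`, search Mathlib); it is
equivariant because `A` and `W` are stable, `q0 y = c`.
`σ` is the representation of `N` on `W` (`Subrepresentation.toRepresentation`).
-/

namespace Pool.Agent.H.MP_7d3ffc_al.DC

open Pool.Agent.H.MP_7d3ffc_al Module

variable {G : Type*} [Group G] {V : Type*} [AddCommGroup V] [Module ℂ V]

/-- stable subspaces have stable complements -/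
theorem PiB_compl [Finite G] (τ : Representation ℂ G V) (A : Submodule ℂ V)
    (hA : ∀ (g : G) (v : V), v ∈ A → τ g v ∈ A) :
    ∃ B : Submodule ℂ V, (∀ (g : G) (v : V), v ∈ B → τ g v ∈ B) ∧ IsCompl A B := by
  have hne : NeZero (Nat.card G : ℂ) := ⟨Nat.cast_ne_zero.2 Nat.card_pos.ne'⟩
  obtain ⟨B, hB⟩ := exists_isCompl (⟨A, fun g v hv => hA g v hv⟩ : Subrepresentation τ)
  refine ⟨B.toSubmodule, fun g v hv => B.apply_mem_toSubmodule g hv, ?_, ?_⟩
  · have h1 := hB.inf_eq_bot
    have h2 := congrArg Subrepresentation.toSubmodule h1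
    rw [Subrepresentation.toSubmodule_inf] at h2
    rw [disjoint_iff]
    exact h2
  · have h1 := hB.sup_eq_top
    have h2 := congrArg Subrepresentation.toSubmodule h1
    rw [Subrepresentation.toSubmodule_sup] at h2
    rw [codisjoint_iff]
    exact h2

/-- a stable subspace which is maximal among those which do not contain `y` -/
theorem PiB_max [FiniteDimensional ℂ V] (τ : Representation ℂ G V) (y : V) (hy : y ≠ 0) :
    ∃ A : Submodule ℂ V, (∀ (g : G) (v : V), v ∈ A → τ g v ∈ A) ∧ y ∉ A ∧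
      ∀ B : Submodule ℂ V, (∀ (g : G) (v : V), v ∈ B → τ g v ∈ B) → A < B → y ∈ B := by
  classical
  obtain ⟨P, hP⟩ : ∃ P : ℕ → Prop, P = fun n => ∃ A : Submodule ℂ V,
      (∀ (g : G) (v : V), v ∈ A → τ g v ∈ A) ∧ y ∉ A ∧ finrank ℂ A = n := ⟨_, rfl⟩
  have h0 : P 0 := by
    rw [hP]
    refine ⟨⊥, fun g v hv => ?_, ?_, finrank_bot ℂ V⟩
    · rw [Submodule.mem_bot] at hv ⊢
      rw [hv, map_zero]
    · rw [Submodule.mem_bot]
      exact hy
  have hspec := Nat.findGreatest_spec (P := P) (Nat.zero_le (finrank ℂ V)) h0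
  obtain ⟨n, hn⟩ : ∃ n, n = Nat.findGreatest P (finrank ℂ V) := ⟨_, rfl⟩
  rw [← hn] at hspec
  have hspec' := hspec
  rw [hP] at hspec'
  obtain ⟨A, hA, hyA, hAn⟩ := hspec'
  refine ⟨A, hA, hyA, fun B hB hAB => ?_⟩
  by_contra hyB
  have h1 : finrank ℂ A < finrank ℂ B := Submodule.finrank_lt_finrank_of_lt hAB
  have h2 : P (finrank ℂ B) := by
    rw [hP]
    exact ⟨B, hB, hyB, rfl⟩
  have h3 : finrank ℂ B ≤ Nat.findGreatest P (finrank ℂ V) :=
    Nat.le_findGreatest (Submodule.finrank_le B) h2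
  omega

/-- a stable subspace with a nonzero component of `y`, simple -/
theorem PiB_simple [Finite G] [FiniteDimensional ℂ V] (τ : Representation ℂ G V) (y : V)
    (hy : y ≠ 0) :
    ∃ A W : Submodule ℂ V, (∀ (g : G) (v : V), v ∈ A → τ g v ∈ A) ∧
      (∀ (g : G) (v : V), v ∈ W → τ g v ∈ W) ∧ IsCompl W A ∧ y ∉ A ∧
      ∀ C : Submodule ℂ V, (∀ (g : G) (v : V), v ∈ C → τ g v ∈ C) → C ≤ W → C = ⊥ ∨ C = W := by
  obtain ⟨A, hA, hyA, hmax⟩ := PiB_max τ y hy
  obtain ⟨W, hW, hAW⟩ := PiB_compl τ A hA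
  refine ⟨A, W, hA, hW, hAW.symm, hyA, fun C hC hCW => ?_⟩
  obtain ⟨D, hD, hCD⟩ := PiB_compl τ C hC
  by_contra hcon
  rw [not_or] at hcon
  obtain ⟨hC0, hC1⟩ := hcon
  have hsup : C ⊔ D ⊓ W = W := by
    rw [← sup_inf_assoc_of_le D hCW, hCD.sup_eq_top, top_inf_eq]
  have hD0 : D ⊓ W ≠ ⊥ := by
    intro h
    rw [h, sup_bot_eq] at hsup
    exact hC1 hsup
  have hDs : ∀ (g : G) (v : V), v ∈ D ⊓ W → τ g v ∈ D ⊓ W := fun g v hv =>
    ⟨hD g v hv.1, hW g v hv.2⟩
  have hkey : ∀ E : Submodule ℂ V, (∀ (g : G) (v : V), v ∈ E → τ g v ∈ E) → E ≤ W → E ≠ ⊥ →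
      y ∈ A ⊔ E := by
    intro E hE hEW hE0
    refine hmax _ ?_ ?_
    · intro g v hv
      obtain ⟨a, ha, e, he, rfl⟩ := Submodule.mem_sup.1 hv
      rw [map_add]
      exact Submodule.add_mem_sup (hA g a ha) (hE g e he)
    · refine lt_of_le_of_ne le_sup_left fun h => hE0 ?_
      have h1 : E ≤ A := by
        rw [h]
        exact le_sup_right
      exact le_bot_iff.1 (hAW.disjoint h1 hEW)
  have h1 := hkey C hC hCW hC0
  have h2 := hkey (D ⊓ W) hDs inf_le_right hD0
  obtain ⟨a1, ha1, c1, hc1, e1⟩ := Submodule.mem_sup.1 h1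
  obtain ⟨a2, ha2, c2, hc2, e2⟩ := Submodule.mem_sup.1 h2
  have h3 : c1 - c2 = a2 - a1 := by
    have h4 : a1 + c1 = a2 + c2 := e1.trans e2.symm
    have h5 : c1 = a2 + c2 - a1 := by rw [← h4]; abel
    rw [h5]
    abel
  have h4 : c1 - c2 ∈ A := by
    rw [h3]
    exact A.sub_mem ha2 ha1
  have h5 : c1 - c2 ∈ W := W.sub_mem (hCW hc1) hc2.2
  have h6 : c1 - c2 = 0 := Submodule.disjoint_def.1 hAW.disjoint _ h4 h5
  have h7 : c1 = c2 := sub_eq_zero.1 h6
  have h8 : c1 = 0 := Submodule.disjoint_def.1 hCD.disjoint _ hc1 (by rw [h7]; exact hc2.1)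
  rw [h8, add_zero] at e1
  exact hyA (e1 ▸ ha1)

theorem exists_constituent [Finite G] [FiniteDimensional ℂ V] (N : Subgroup G)
    (ρ : Representation ℂ G V) (y : V) (hy : y ≠ 0) :
    ∃ (W : Submodule ℂ V) (σ : Representation ℂ N W) (q0 : V →ₗ[ℂ] W), σ.IsIrreducible ∧
      (∀ (n : N) (x : W), ((σ n x : W) : V) = ρ n x) ∧
      (∀ (n : N) (z : V), q0 (ρ n z) = σ n (q0 z)) ∧ (∀ x : W, q0 x = x) ∧ q0 y ≠ 0 := by
  obtain ⟨τ, hτ⟩ : ∃ τ : Representation ℂ N V, ∀ (n : N) (v : V), τ n v = ρ n v :=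
    ⟨ρ.comp N.subtype, fun _ _ => rfl⟩
  obtain ⟨A, W, hA, hW, hWA, hyA, hsimple⟩ := PiB_simple τ y hy
  obtain ⟨S, hS⟩ : ∃ S : Subrepresentation τ, S.toSubmodule = W :=
    ⟨⟨W, fun g v hv => hW g v hv⟩, rfl⟩
  subst hS
  have hσ : ∀ (n : N) (x : S.toSubmodule), ((S.toRepresentation n x : S.toSubmodule) : V) =
      ρ n x := fun n x => hτ n x
  refine ⟨S.toSubmodule, S.toRepresentation, Submodule.projectionOnto _ _ hWA, ?_, hσ, ?_, ?_, ?_⟩
  · have hW0 : S.toSubmodule ≠ ⊥ := by
      intro h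
      have h1 := hWA.sup_eq_top
      rw [h, bot_sup_eq] at h1
      exact hyA (h1 ▸ Submodule.mem_top)
    have hnt : Nontrivial (Subrepresentation S.toRepresentation) := by
      refine ⟨⊥, ⊤, fun h => hW0 ?_⟩
      rw [Submodule.eq_bot_iff]
      intro x hx
      have h1 : (⟨x, hx⟩ : S.toSubmodule) ∈
          (⊤ : Subrepresentation S.toRepresentation).toSubmodule := Submodule.mem_top
      rw [← h] at h1
      have h2 : (⟨x, hx⟩ : S.toSubmodule) = 0 := (Submodule.mem_bot ℂ).1 h1
      exact congrArg Subtype.val h2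
    refine @IsSimpleOrder.mk _ _ _ hnt fun C => ?_
    rcases hsimple (C.toSubmodule.map S.toSubmodule.subtype) (by
        rintro g _ ⟨c, hc, rfl⟩
        refine ⟨S.toRepresentation g c, C.apply_mem_toSubmodule g hc, rfl⟩)
        (Submodule.map_subtype_le _ _) with h | h
    · left
      apply Subrepresentation.toSubmodule_injective
      show C.toSubmodule = ⊥
      rw [Submodule.eq_bot_iff]
      intro c hc
      have h1 : S.toSubmodule.subtype c ∈ C.toSubmodule.map S.toSubmodule.subtype :=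
        Submodule.mem_map_of_mem hc
      rw [h, Submodule.mem_bot] at h1
      exact Subtype.ext h1
    · right
      apply Subrepresentation.toSubmodule_injective
      show C.toSubmodule = ⊤
      rw [eq_top_iff]
      intro x _
      have hx : (x : V) ∈ C.toSubmodule.map S.toSubmodule.subtype := h.ge x.2
      obtain ⟨c, hc, hcx⟩ := hx
      have h1 : c = x := Subtype.ext hcx
      rw [← h1]
      exact hc
  · intro n z
    obtain ⟨w, hw, a, ha, rfl⟩ := Submodule.mem_sup.1
      (show z ∈ S.toSubmodule ⊔ A by rw [hWA.sup_eq_top]; exact Submodule.mem_top)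
    have h1 : ρ n (w + a) = ((S.toRepresentation n ⟨w, hw⟩ : S.toSubmodule) : V) +
        ((⟨ρ n a, by rw [← hτ]; exact hA n a ha⟩ : A) : V) := by
      rw [map_add, hσ]
    have h2 : w + a = ((⟨w, hw⟩ : S.toSubmodule) : V) + ((⟨a, ha⟩ : A) : V) := rfl
    rw [h1, h2, map_add, map_add, Submodule.projectionOnto_apply_left,
      Submodule.projectionOnto_apply_right, Submodule.projectionOnto_apply_left,
      Submodule.projectionOnto_apply_right, add_zero, add_zero]
  · intro x
    exact Submodule.projectionOnto_apply_left hWA x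
  · intro h
    exact hyA ((Submodule.projectionOnto_apply_eq_zero_iff hWA).1 h)

end Pool.Agent.H.MP_7d3ffc_al.DC
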