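import Pool.Agent.H.MP_7d3ffc_al.DC.PiA

/-!
# Module DC/PiC: dimensions of the constituents of the restriction to a normal subgroup

`N` is a normal subgroup of the finite group `G`, `ρ` an irreducible representation of `G` on `V`, `σ` an
irreducible representation of `N` on `W`, `ι : W → V` and `q0 : V → W` nonzero `N`-equivariant maps, `v` a
valuation on `ℂ`. Claim `rel_int`: `v(|G:N|) v(dim W) ≤ v(dim V)`. `w` is from `exists_w` (module PiA).
* `rel_int`: for `g : G` the map `q0 ∘ ρ g ∘ ι` has `TwE σ g`, so it is `β g • w g` for a number `β g`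
  (`β g = 0` if there is no nonzero `B` with `TwE σ g B`). Some `β g` is not `0`: otherwise
  `q0 (ρ g (ι x)) = 0` for all `g`, `x`; with `x` such that `ι x ≠ 0` the span of the `ρ g (ι x)` is `V`
  (irreducibility), so `q0 = 0` (see `exists_ne_zero` in module Lattice, which is this fact for
  functionals; compose `q0` with a functional). Choose `g0` with `v (β g0)` maximal
  (`Finite.exists_max`), so `β g0 ≠ 0`, put `q = (β g0)⁻¹ • q0`, `f = ρ g0 ∘ ι ∘ (w g0)⁻¹`. Then `f` and `q`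
  are `N`-equivariant (`f`: `ι (w g0)⁻¹ (σ n x) = ι (σ (g0⁻¹ n g0) (w g0)⁻¹ x)`, etc.), `q ∘ f = id`, and
  `q ∘ ρ g ∘ f = (β g0)⁻¹ β (g g0) • w (g g0) ∘ (w g0)⁻¹`. If this is not `0` then `TwE` holds for
  `w (g g0)` and `w g0`, hence for `w g` (as `w (g g0) ∘ (w g0)⁻¹` is a nonzero map with `TwE σ g`), and by
  `w_mul` it is `b g • w g` with `v (b g) ≤ 1`. So for all `g`: `q ∘ ρ g ∘ f = b g • w g` with `v (b g) ≤ 1`
  and `b g = 0` or `TwE σ g (w g)`.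
  By `schur_general` for `f ∘ q`: `∑ g, ρ g ∘ f ∘ q ∘ ρ g⁻¹ = c • id` with
  `c * dim V = |G| * trace (f ∘ q)` and `trace (f ∘ q) = trace (q ∘ f) = dim W`
  (`LinearMap.trace_comp_comm'`, `LinearMap.trace_id`). Apply `q ∘ _ ∘ f`:
  `∑ g, (b g • w g) ∘ (b g⁻¹ • w g⁻¹) = c • id`, and `w g ∘ w g⁻¹ = α • w 1 = α' • id` with `v α' = 1` if
  `TwE σ g (w g)` (then also `TwE σ g⁻¹ (w g⁻¹)`; `w 1` is a scalar with `d`-th power `1`), so
  `c = ∑ g, F g` where `F g` is the number with `q ρ g f q ρ g⁻¹ f = F g • id`, `v (F g) ≤ 1`, and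
  `F (g n) = F g` for `n ∈ N` (as `f q` commutes with `ρ n`). By `val_sum_invariant_le` (module Core)
  with `D = N`: `v c ≤ v |N|`. So `v |G:N| * v |N| * v (dim W) = v c * v (dim V) ≤ v |N| * v (dim V)`; cancel
  `v |N| > 0` (see the end of the proof of `key_integrality` in module ThmA for this step).
-/

namespace Pool.Agent.H.MP_7d3ffc_al.DC

open Pool.Agent.H.MP_7d3ffc_al Module

variable {G : Type*} [Group G] {V : Type*} [AddCommGroup V] [Module ℂ V]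
  {W : Type*} [AddCommGroup W] [Module ℂ W] {N : Subgroup G} [N.Normal]
  {Γ₀ : Type*} [LinearOrderedCommGroupWithZero Γ₀]

/-- the maps `q ∘ ρ g ∘ ι` are twisted intertwiners -/
theorem PiC_twE (ρ : Representation ℂ G V) (σ : Representation ℂ N W) (ι : W →ₗ[ℂ] V)
    (hι : ∀ (n : N) (x : W), ι (σ n x) = ρ n (ι x)) (q0 : V →ₗ[ℂ] W)
    (hq : ∀ (n : N) (y : V), q0 (ρ n y) = σ n (q0 y)) (g : G) :
    TwE σ g (q0 ∘ₗ ρ g ∘ₗ ι) := by
  intro n x
  show q0 (ρ g (ι (σ n x))) = σ (MulAut.conjNormal g n) (q0 (ρ g (ι x)))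
  rw [hι, ← hq]
  congr 1
  rw [← Module.End.mul_apply, ← Module.End.mul_apply, ← map_mul, ← map_mul]
  congr 2
  rw [MulAut.conjNormal_apply]
  group

/-- the coefficients with respect to the normalised maps -/
theorem PiC_coef [FiniteDimensional ℂ W] {σ : Representation ℂ N W} (hσ : σ.IsIrreducible)
    (w : G → (W ≃ₗ[ℂ] W))
    (hw' : ∀ (g : G) (B : W →ₗ[ℂ] W), TwE σ g B → B ≠ 0 → TwE σ g (w g : W →ₗ[ℂ] W)) (g : G)
    (A : W →ₗ[ℂ] W) (hA : TwE σ g A) :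
    ∃ b : ℂ, A = b • (w g : W →ₗ[ℂ] W) ∧ (b ≠ 0 → TwE σ g (w g : W →ₗ[ℂ] W)) := by
  by_cases h : A = 0
  · exact ⟨0, by rw [h, zero_smul], fun h0 => absurd rfl h0⟩
  · have h1 := hw' g A hA h
    obtain ⟨b, hb⟩ := twE_unique hσ h1 hA
    exact ⟨b, hb, fun _ => h1⟩

theorem rel_int [Finite G] [FiniteDimensional ℂ V] [FiniteDimensional ℂ W] (v : Valuation ℂ Γ₀)
    (ρ : Representation ℂ G V) (hρ : ρ.IsIrreducible)
    (σ : Representation ℂ N W) (hσ : σ.IsIrreducible) (ι : W →ₗ[ℂ] V) (hι0 : ι ≠ 0)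
    (hι : ∀ (n : N) (x : W), ι (σ n x) = ρ n (ι x)) (q0 : V →ₗ[ℂ] W) (hq0 : q0 ≠ 0)
    (hq : ∀ (n : N) (y : V), q0 (ρ n y) = σ n (q0 y)) :
    v (N.index : ℂ) * v (finrank ℂ W : ℂ) ≤ v (finrank ℂ V : ℂ) := by
  classical
  have : Fintype G := Fintype.ofFinite _
  -- a vector not killed by `ι`
  obtain ⟨x0, hx0⟩ : ∃ x, ι x ≠ 0 := by
    by_contra h
    push Not at h
    exact hι0 (LinearMap.ext h)
  have hx00 : x0 ≠ 0 := by
    rintro rfl
    exact hx0 (map_zero ι)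
  have hnt : Nontrivial W := ⟨⟨x0, 0, hx00⟩⟩
  obtain ⟨w, hdet, hw'⟩ := exists_w (G := G) hσ
  -- a bijective map is not zero
  have hne : ∀ e : W ≃ₗ[ℂ] W, (e : W →ₗ[ℂ] W) ≠ 0 := by
    intro e he
    have h1 : e x0 = 0 := LinearMap.congr_fun he x0
    exact hx00 ((map_eq_zero_iff e e.injective).mp h1)
  choose β hβ hβ' using fun g : G => PiC_coef hσ w hw' g _ (PiC_twE ρ σ ι hι q0 hq g)
  have hβx : ∀ (g : G) (x : W), q0 (ρ g (ι x)) = β g • w g x := fun g x =>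
    LinearMap.congr_fun (hβ g) x
  -- some coefficient is not zero
  obtain ⟨g1, hg1⟩ : ∃ g, β g ≠ 0 := by
    by_contra h
    push Not at h
    obtain ⟨y, hy⟩ : ∃ y, q0 y ≠ 0 := by
      by_contra h1
      push Not at h1
      exact hq0 (LinearMap.ext h1)
    obtain ⟨φ, hφ⟩ : ∃ φ : Module.Dual ℂ W, φ (q0 y) ≠ 0 := by
      by_contra h1
      push Not at h1
      exact hy ((Module.forall_dual_apply_eq_zero_iff ℂ (q0 y)).mp h1)
    have h2 : (φ ∘ₗ q0 : V →ₗ[ℂ] ℂ) ≠ 0 := by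
      intro h3
      exact hφ (LinearMap.congr_fun h3 y)
    obtain ⟨g, hg⟩ := exists_ne_zero ρ hρ (φ ∘ₗ q0) h2 (ι x0) hx0
    apply hg
    rw [LinearMap.comp_apply, hβx, h g, zero_smul, map_zero]
  obtain ⟨g0, hg0⟩ := Finite.exists_max (fun g : G => v (β g))
  have hg0ne : β g0 ≠ 0 := by
    intro h
    have := hg0 g1
    rw [h, map_zero, le_zero_iff, map_eq_zero] at this
    exact hg1 this
  have hT0 : TwE σ g0 (w g0 : W →ₗ[ℂ] W) := hβ' g0 hg0ne
  have hT0i := twE_inv hT0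
  -- the normalised maps
  set q : V →ₗ[ℂ] W := (β g0)⁻¹ • q0 with hqdef
  set f : W →ₗ[ℂ] V := ρ g0 ∘ₗ ι ∘ₗ ((w g0).symm : W →ₗ[ℂ] W) with hfdef
  have hqN : ∀ (n : N) (y : V), q (ρ n y) = σ n (q y) := by
    intro n y
    rw [hqdef, LinearMap.smul_apply, LinearMap.smul_apply, hq, map_smul]
  have hfx : ∀ x : W, f x = ρ g0 (ι ((w g0).symm x)) := fun x => rfl
  have hfN : ∀ (n : N) (x : W), f (σ n x) = ρ n (f x) := by
    intro n x
    have h1 : (w g0).symm (σ n x) = σ (MulAut.conjNormal g0⁻¹ n) ((w g0).symm x) := hT0i n x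
    rw [hfx, hfx, h1, hι, ← Module.End.mul_apply, ← Module.End.mul_apply, ← map_mul, ← map_mul]
    congr 2
    rw [MulAut.conjNormal_apply]
    group
  have hqf0 : ∀ (g : G) (x : W), q (ρ g (f x)) =
      ((β g0)⁻¹ * β (g * g0)) • w (g * g0) ((w g0).symm x) := by
    intro g x
    rw [hfx, ← Module.End.mul_apply (ρ g), ← map_mul, hqdef, LinearMap.smul_apply, hβx, smul_smul]
  have hqf : ∀ x : W, q (f x) = x := by
    intro x
    have h1 := hqf0 1 x
    rw [map_one, one_mul, inv_mul_cancel₀ hg0ne, one_smul, LinearEquiv.apply_symm_apply] at h1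
    exact h1
  -- the coefficients of `q ∘ ρ g ∘ f`
  have hb : ∀ g : G, ∃ b : ℂ, v b ≤ 1 ∧ (∀ x : W, q (ρ g (f x)) = b • w g x) ∧
      (b ≠ 0 → TwE σ g (w g : W →ₗ[ℂ] W)) := by
    intro g
    by_cases h0 : β (g * g0) = 0
    · refine ⟨0, by rw [map_zero]; exact zero_le_one, fun x => ?_, fun h => absurd rfl h⟩
      rw [hqf0, h0, mul_zero, zero_smul, zero_smul]
    · have h1 : TwE σ (g * g0) (w (g * g0) : W →ₗ[ℂ] W) := hβ' _ h0
      have h2 := twE_mul h1 hT0i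
      rw [mul_inv_cancel_right] at h2
      have h3 : (w (g * g0) : W →ₗ[ℂ] W) ∘ₗ ((w g0).symm : W →ₗ[ℂ] W) ≠ 0 :=
        hne ((w g0).symm.trans (w (g * g0)))
      have h4 : TwE σ g (w g : W →ₗ[ℂ] W) := hw' g _ h2 h3
      obtain ⟨-, α, hα, hα'⟩ := w_mul v hσ w hdet hw' h4 hT0
      have hα0 : α ≠ 0 := by
        rintro rfl
        rw [map_zero] at hα
        exact zero_ne_one hα
      refine ⟨(β g0)⁻¹ * β (g * g0) * α⁻¹, ?_, fun x => ?_, fun _ => h4⟩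
      · rw [map_mul, map_mul, map_inv₀, map_inv₀, hα, inv_one, mul_one]
        have hpos : 0 < v (β g0) := by rw [Valuation.pos_iff]; exact hg0ne
        rw [inv_mul_le_iff₀ hpos, mul_one]
        exact hg0 (g * g0)
      · have h5 : w g (w g0 ((w g0).symm x)) = α • w (g * g0) ((w g0).symm x) :=
          LinearMap.congr_fun hα' ((w g0).symm x)
        rw [LinearEquiv.apply_symm_apply] at h5
        rw [hqf0, h5, smul_smul, mul_assoc ((β g0)⁻¹ * β (g * g0)), inv_mul_cancel₀ hα0, mul_one]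
  choose b hb1 hb2 hb3 using hb
  -- the map `w 1`
  have hT1 : TwE σ 1 (w 1 : W →ₗ[ℂ] W) := by
    refine hw' 1 LinearMap.id (fun n x => ?_) (hne (LinearEquiv.refl ℂ W))
    rw [map_one]
    rfl
  obtain ⟨a1, ha1, ha1'⟩ : ∃ a1 : ℂ, v a1 = 1 ∧ ∀ x, w 1 x = a1 • x := by
    obtain ⟨-, α, hα, hα'⟩ := w_mul v hσ w hdet hw' hT1 hT1
    refine ⟨α, hα, fun x => ?_⟩
    have h1 : w 1 (w 1 x) = α • w (1 * 1) x := LinearMap.congr_fun hα' x
    rw [mul_one, ← map_smul] at h1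
    exact (w 1).injective h1
  -- the numbers `F g`
  have hF : ∀ g : G, ∃ F : ℂ, v F ≤ 1 ∧ ∀ x : W, q (ρ g (f (q (ρ g⁻¹ (f x))))) = F • x := by
    intro g
    by_cases h0 : b g = 0
    · refine ⟨0, by rw [map_zero]; exact zero_le_one, fun x => ?_⟩
      rw [hb2 g, h0, zero_smul, zero_smul]
    · by_cases h1 : b g⁻¹ = 0
      · refine ⟨0, by rw [map_zero]; exact zero_le_one, fun x => ?_⟩
        rw [hb2 g⁻¹, h1, zero_smul, map_zero, map_zero, map_zero, zero_smul]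
      · obtain ⟨-, α, hα, hα'⟩ := w_mul v hσ w hdet hw' (hb3 g h0) (hb3 g⁻¹ h1)
        refine ⟨b g * b g⁻¹ * α * a1, ?_, fun x => ?_⟩
        · rw [map_mul, map_mul, map_mul, hα, ha1, mul_one, mul_one]
          exact mul_le_one' (hb1 g) (hb1 g⁻¹)
        · have h2 : w g (w g⁻¹ x) = α • w (g * g⁻¹) x := LinearMap.congr_fun hα' x
          rw [mul_inv_cancel, ha1'] at h2
          rw [hb2 g⁻¹, hb2 g, map_smul, h2, smul_smul, smul_smul, smul_smul]
  choose F hF1 hF2 using hF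
  have hFN : ∀ g : G, ∀ d ∈ N, F (g * d) = F g := by
    intro g d hd
    have h1 := hF2 (g * d) x0
    have h2 : f (q (ρ (g * d)⁻¹ (f x0))) = ρ d⁻¹ (f (q (ρ g⁻¹ (f x0)))) := by
      have h3 : ρ (g * d)⁻¹ (f x0) = ρ d⁻¹ (ρ g⁻¹ (f x0)) := by
        rw [mul_inv_rev, map_mul, Module.End.mul_apply]
      have h4 := hqN (⟨d, hd⟩ : N)⁻¹ (ρ g⁻¹ (f x0))
      have h5 := hfN (⟨d, hd⟩ : N)⁻¹ (q (ρ g⁻¹ (f x0)))
      rw [h3]
      have h6 : (((⟨d, hd⟩ : N)⁻¹ : N) : G) = d⁻¹ := rfl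
      rw [h6] at h4 h5
      rw [h4, h5]
    rw [h2, ← Module.End.mul_apply, ← map_mul, mul_inv_cancel_right, hF2 g x0] at h1
    exact (smul_left_injective ℂ hx00 h1).symm
  obtain ⟨c, hc1, hc2⟩ := schur_general ρ hρ (f ∘ₗ q)
  have htr : LinearMap.trace ℂ V (f ∘ₗ q) = (finrank ℂ W : ℂ) := by
    rw [LinearMap.trace_comp_comm']
    have h1 : q ∘ₗ f = LinearMap.id := LinearMap.ext hqf
    rw [h1, LinearMap.trace_id]
  rw [htr] at hc2
  have hsum : ∑ g : G, F g = c := by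
    have h1 := congrArg q (LinearMap.congr_fun hc1 (f x0))
    rw [LinearMap.sum_apply, map_sum] at h1
    have h2 : ∀ g : G, q ((ρ g ∘ₗ (f ∘ₗ q) ∘ₗ ρ g⁻¹) (f x0)) = F g • x0 := fun g => hF2 g x0
    simp only [h2] at h1
    have h3 : (c • (LinearMap.id : V →ₗ[ℂ] V)) (f x0) = c • f x0 := rfl
    rw [← Finset.sum_smul, h3, map_smul, hqf] at h1
    exact smul_left_injective ℂ hx00 h1
  have hvc : v c ≤ v (Nat.card N : ℂ) := by
    have h1 := val_sum_invariant_le v N F hFN 1 hF1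
    rwa [hsum, mul_one] at h1
  have hcard : (Nat.card G : ℂ) = (N.index : ℂ) * (Nat.card N : ℂ) := by
    rw [← Nat.cast_mul, N.index_mul_card]
  have hN0 : (Nat.card N : ℂ) ≠ 0 := Nat.cast_ne_zero.mpr Nat.card_pos.ne'
  have hNpos : 0 < v (Nat.card N : ℂ) := by rw [Valuation.pos_iff]; exact hN0
  have h1 : v (Nat.card N : ℂ) * (v (N.index : ℂ) * v (finrank ℂ W : ℂ)) ≤
      v (Nat.card N : ℂ) * v (finrank ℂ V : ℂ) := by
    calc v (Nat.card N : ℂ) * (v (N.index : ℂ) * v (finrank ℂ W : ℂ))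
        = v ((Nat.card G : ℂ) * (finrank ℂ W : ℂ)) := by
          rw [hcard, map_mul, map_mul, mul_comm (v (N.index : ℂ)) (v (Nat.card N : ℂ)), mul_assoc]
      _ = v c * v (finrank ℂ V : ℂ) := by rw [← hc2, map_mul]
      _ ≤ v (Nat.card N : ℂ) * v (finrank ℂ V : ℂ) := by gcongr
  exact le_of_mul_le_mul_left h1 hNpos

end Pool.Agent.H.MP_7d3ffc_al.DC
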