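import Pool.Agent.H.MP_7d3ffc_al.DC.PiB
import Pool.Agent.H.MP_7d3ffc_al.DC.PiC

/-!
# Module DC/PiD: the restriction to a normal subgroup of index prime to `p`
-/

namespace Pool.Agent.H.MP_7d3ffc_al.DC

open Pool.Agent.H.MP_7d3ffc_al Module
open scoped Pointwise

variable {G : Type*} [Group G] [Finite G] {V : Type*} [AddCommGroup V] [Module ℂ V]
  [FiniteDimensional ℂ V] {p : ℕ} [Fact p.Prime]

theorem PiD_le (N : Subgroup G) [N.Normal] (hidx : ¬ p ∣ N.index) (P : Sylow p G) :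
    (P : Subgroup G) ≤ N := by
  have hp : p.Prime := Fact.out
  have h1 : N.relIndex (P : Subgroup G) ∣ N.index := Subgroup.relIndex_dvd_index_of_normal N _
  have h2 : N.relIndex (P : Subgroup G) ∣ Nat.card (P : Subgroup G) := by
    rw [Subgroup.relIndex]
    exact Subgroup.index_dvd_card _
  obtain ⟨k, hk⟩ := P.isPGroup'.exists_card_eq
  rw [hk] at h2
  obtain ⟨m, _, hm⟩ := (Nat.dvd_prime_pow hp).1 h2
  rcases Nat.eq_zero_or_pos m with h3 | h3
  · rw [h3, pow_zero] at hm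
    exact Subgroup.relIndex_eq_one.1 hm
  · exfalso
    apply hidx
    refine dvd_trans ?_ h1
    rw [hm]
    exact dvd_pow_self p h3.ne'

theorem constituent_sylow (N : Subgroup G) [N.Normal] (hidx : ¬ p ∣ N.index) (P : Sylow p G)
    (ρ : Representation ℂ G V) (hρ : ρ.IsIrreducible) (hd : p ∣ finrank ℂ V)
    (hne : (Lin ρ (P : Subgroup G)).Nonempty) :
    ∃ (W : Submodule ℂ V) (σ : Representation ℂ N W), σ.IsIrreducible ∧ p ∣ finrank ℂ W ∧
      (Lin σ ((P : Subgroup G).subgroupOf N)).Nonempty ∧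
      (Lin σ ((P : Subgroup G).subgroupOf N)).ncard ≤ (Lin ρ (P : Subgroup G)).ncard := by
  classical
  have hp : p.Prime := Fact.out
  have hPN : (P : Subgroup G) ≤ N := PiD_le N hidx P
  obtain ⟨lam, hlam⟩ := hne
  obtain ⟨y, hy0, hy⟩ := (mem_Lin_iff ρ _ lam).mp hlam
  obtain ⟨W, σ, q0, hσ, hW, hq, hqW, hqy⟩ := exists_constituent N ρ y hy0
  refine ⟨W, σ, hσ, ?_, ?_, ?_⟩
  · -- the dimension
    obtain ⟨B, hB⟩ := exists_valuation p hp
    by_contra hcon
    have h1 := rel_int B.valuation ρ hρ σ hσ W.subtype (fun h => hqy (by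
      have : q0 y = 0 := Subtype.ext (LinearMap.congr_fun h (q0 y))
      exact this)) (fun n x => hW n x) q0 (fun h => hqy (by rw [h]; rfl)) hq
    rw [val_natCast_eq_one B.valuation hB ((Nat.Prime.coprime_iff_not_dvd hp).mpr hidx).symm,
      val_natCast_eq_one B.valuation hB ((Nat.Prime.coprime_iff_not_dvd hp).mpr hcon).symm,
      mul_one] at h1
    obtain ⟨m, hm⟩ := hd
    rw [hm, Nat.cast_mul, map_mul] at h1
    have h2 : B.valuation (m : ℂ) ≤ 1 := val_natCast_le _ m
    have h3 : B.valuation (p : ℂ) * B.valuation (m : ℂ) ≤ B.valuation (p : ℂ) * 1 := by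
      gcongr
    rw [mul_one] at h3
    exact absurd (h1.trans (h3.trans_lt hB).le) (not_le.2 (by
      exact (lt_of_le_of_lt (h1.trans h3) hB)))
  · refine ⟨lam.comp (Subgroup.subgroupOfEquivOfLe hPN).toMonoidHom, ?_⟩
    rw [mem_Lin_iff]
    refine ⟨q0 y, hqy, fun x => ?_⟩
    have h1 := hq (x : N) y
    have h2 := hy (Subgroup.subgroupOfEquivOfLe hPN x)
    have h3 : ((Subgroup.subgroupOfEquivOfLe hPN x : _) : G) = ((x : N) : G) := rfl
    rw [h3] at h2
    rw [← h1, h2, map_smul]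
    rfl
  · refine Set.ncard_le_ncard_of_injOn
      (fun μ => μ.comp (Subgroup.subgroupOfEquivOfLe hPN).symm.toMonoidHom) ?_ ?_ (Set.toFinite _)
    · intro μ hμ
      obtain ⟨z, hz0, hz⟩ := (mem_Lin_iff _ _ _).mp hμ
      rw [mem_Lin_iff]
      refine ⟨(z : V), fun h => hz0 (Subtype.ext h), fun x => ?_⟩
      have h1 := congrArg Subtype.val (hz ((Subgroup.subgroupOfEquivOfLe hPN).symm x))
      rw [hW] at h1
      exact h1
    · intro μ _ ν _ h
      refine MonoidHom.ext fun x => ?_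
      have h1 := DFunLike.congr_fun h (Subgroup.subgroupOfEquivOfLe hPN x)
      simpa using h1

end Pool.Agent.H.MP_7d3ffc_al.DC
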